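import Mathlib

set_option autoImplicit false

/-! # Elementary counting lemmas -/

namespace Pool.Agent.H35.SP

open Finset

/-- number of integers in a half-open real interval, upper bound -/
theorem card_le_of_mem {S : Finset ℤ} {s t : ℝ} (h : ∀ x ∈ S, s ≤ x ∧ (x : ℝ) < t) :
    (S.card : ℝ) ≤ max (t - s) 0 + (if s < t then 1 else 0) := by
  by_cases hst : s < t
  · rw [if_pos hst]
    have h1 : S ⊆ Ico ⌈s⌉ ⌈t⌉ := by
      intro x hx
      rw [mem_Ico]
      exact ⟨Int.ceil_le.2 (h x hx).1, Int.lt_ceil.2 (h x hx).2⟩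
    have h2 := card_le_card h1
    rw [Int.card_Ico] at h2
    have h3 : ⌈s⌉ ≤ ⌈t⌉ := Int.ceil_le_ceil hst.le
    have h4 : ((S.card : ℕ) : ℤ) ≤ ⌈t⌉ - ⌈s⌉ := by omega
    have h5 : (S.card : ℝ) ≤ ⌈t⌉ - ⌈s⌉ := by exact_mod_cast h4
    have h6 := Int.ceil_lt_add_one t
    have h7 := Int.le_ceil s
    have h8 := le_max_left (t - s) 0
    linarith
  · rw [if_neg hst]
    have h1 : S = ∅ := by
      rw [eq_empty_iff_forall_notMem]
      intro x hx
      obtain ⟨h2, h3⟩ := h x hx
      linarith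
    rw [h1]
    simp

/-- number of natural numbers in a real interval -/
theorem card_nat_le {S : Finset ℕ} {s t : ℝ} (hst : s ≤ t) (h : ∀ x ∈ S, s ≤ x ∧ (x : ℝ) ≤ t) :
    (S.card : ℝ) ≤ t - s + 1 := by
  have h1 : S.map Nat.castEmbedding ⊆ Icc ⌈s⌉ ⌊t⌋ := by
    intro x hx
    rw [mem_map] at hx
    obtain ⟨n, hn, rfl⟩ := hx
    rw [mem_Icc]
    obtain ⟨h2, h3⟩ := h n hn
    refine ⟨Int.ceil_le.2 ?_, Int.le_floor.2 ?_⟩
    · simpa using h2
    · simpa using h3
  have h2 := card_le_card h1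
  rw [card_map, Int.card_Icc] at h2
  by_cases h3 : ⌈s⌉ ≤ ⌊t⌋ + 1
  · have h4 : ((S.card : ℕ) : ℤ) ≤ ⌊t⌋ + 1 - ⌈s⌉ := by omega
    have h5 : (S.card : ℝ) ≤ ⌊t⌋ + 1 - ⌈s⌉ := by exact_mod_cast h4
    have h6 := Int.floor_le t
    have h7 := Int.le_ceil s
    linarith
  · have h4 : S.card = 0 := by omega
    rw [h4]
    push_cast
    linarith

/-- lower bound for truncated sums -/
theorem le_sum_pos {σ A : ℝ} (hσ : 0 < σ) {B : ℕ} (hA : 0 ≤ A) (hB : A < σ * B) :
    A ^ 2 / (2 * σ) + A / 2 ≤ ∑ b ∈ range B, max (A - σ * b) 0 := by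
  set n := ⌊A / σ⌋₊ with hn
  have h1 : (n : ℝ) ≤ A / σ := Nat.floor_le (div_nonneg hA hσ.le)
  have h2 : A / σ < n + 1 := Nat.lt_floor_add_one _
  rw [le_div_iff₀ hσ] at h1
  rw [div_lt_iff₀ hσ] at h2
  have h3 : n + 1 ≤ B := by
    have h4 : (n : ℝ) * σ < B * σ := by linarith
    have h5 : (n : ℝ) < B := lt_of_mul_lt_mul_right h4 hσ.le
    have : n < B := by exact_mod_cast h5
    omega
  have h4 : ∑ b ∈ range (n + 1), (A - σ * b) ≤ ∑ b ∈ range B, max (A - σ * b) 0 := by
    calc ∑ b ∈ range (n + 1), (A - σ * b) ≤ ∑ b ∈ range (n + 1), max (A - σ * b) 0 :=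
          sum_le_sum fun b _ => le_max_left _ _
      _ ≤ _ := sum_le_sum_of_subset_of_nonneg (range_mono h3) fun b _ _ => le_max_right _ _
  refine le_trans ?_ h4
  have h5 : ∑ b ∈ range (n + 1), (A - σ * b) = (n + 1) * A - σ * (n * (n + 1) / 2) := by
    rw [sum_sub_distrib, ← mul_sum, sum_const, card_range, nsmul_eq_mul]
    have h6 : ∀ k : ℕ, ∑ b ∈ range (k + 1), (b : ℝ) = k * (k + 1) / 2 := by
      intro k
      induction k with
      | zero => simp
      | succ k ih =>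
        rw [sum_range_succ, ih]
        push_cast
        ring
    rw [h6]
    push_cast
    ring
  rw [h5]
  have h6 : 0 ≤ (A - σ * n) * (σ * (n + 1) - A) :=
    mul_nonneg (by linarith) (by linarith)
  have h7 : A ^ 2 / (2 * σ) + A / 2 = (A ^ 2 + σ * A) / (2 * σ) := by
    field_simp
  rw [h7, div_le_iff₀ (by positivity)]
  nlinarith

/-- upper bound for truncated sums -/
theorem sum_pos_le {σ A : ℝ} (hσ : 0 < σ) (B : ℕ) :
    ∑ b ∈ range B, max (A - σ * b) 0 ≤ A ^ 2 / (2 * σ) + A / 2 + σ / 8 := by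
  have key : ∀ (n : ℕ) (A : ℝ), ∑ b ∈ range n, max (A - σ * b) 0 ≤
      (max (A + σ / 2) 0) ^ 2 / (2 * σ) := by
    intro n
    induction n with
    | zero =>
      intro A
      simp only [range_zero, sum_empty]
      positivity
    | succ n ih =>
      intro A
      rw [sum_range_succ']
      have h1 : ∑ b ∈ range n, max (A - σ * ((b + 1 : ℕ) : ℝ)) 0 =
          ∑ b ∈ range n, max ((A - σ) - σ * b) 0 := by
        apply sum_congr rfl
        intro b _
        congr 1
        push_cast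
        ring
      rw [h1]
      refine (add_le_add_left (ih (A - σ)) _).trans ?_
      simp only [Nat.cast_zero, mul_zero, sub_zero]
      have e : A - σ + σ / 2 = A - σ / 2 := by ring
      rw [e, ← le_sub_iff_add_le', ← sub_div, le_div_iff₀ (by positivity)]
      rcases le_total A 0 with hA | hA
      · rw [max_eq_right hA, max_eq_right (by linarith : A - σ / 2 ≤ 0)]
        have := sq_nonneg (max (A + σ / 2) 0)
        linarith
      · rw [max_eq_left hA, max_eq_left (by linarith : 0 ≤ A + σ / 2)]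
        rcases le_total (A - σ / 2) 0 with h | h
        · rw [max_eq_right h]
          nlinarith [sq_nonneg (A - σ / 2)]
        · rw [max_eq_left h]
          nlinarith
  refine (key B A).trans ?_
  have h1 : A ^ 2 / (2 * σ) + A / 2 + σ / 8 = (A + σ / 2) ^ 2 / (2 * σ) := by
    field_simp
    ring
  rw [h1]
  refine div_le_div_of_nonneg_right ?_ (by positivity)
  rcases le_total (A + σ / 2) 0 with h | h
  · rw [max_eq_right h]
    nlinarith [sq_nonneg (A + σ / 2)]
  · rw [max_eq_left h]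

/-- the truncated sums of one piece, lower bound -/
theorem le_sum_len {σ A l : ℝ} (hσ : 0 < σ) (hl : 0 ≤ l) {B : ℕ} (hB : A < σ * B) :
    l * (A - l / 2 + σ / 2) / σ - σ / 8 ≤
      ∑ b ∈ range B, (max (A - σ * b) 0 - max (A - l - σ * b) 0) := by
  have e : l * (A - l / 2 + σ / 2) / σ - σ / 8 = (A ^ 2 / (2 * σ) + A / 2) -
      ((A - l) ^ 2 / (2 * σ) + (A - l) / 2 + σ / 8) := by
    field_simp
    ring
  rw [e]
  rcases le_or_gt 0 A with hA | hA
  · rw [sum_sub_distrib]
    exact sub_le_sub (le_sum_pos hσ hA hB) (sum_pos_le hσ B)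
  · have h1 : ∑ b ∈ range B, (max (A - σ * b) 0 - max (A - l - σ * b) 0) = 0 := by
      apply sum_eq_zero
      intro b _
      have hb : 0 ≤ σ * b := by positivity
      rw [max_eq_right (by linarith), max_eq_right (by linarith), sub_zero]
    rw [h1]
    have e2 : A ^ 2 / (2 * σ) + A / 2 - ((A - l) ^ 2 / (2 * σ) + (A - l) / 2 + σ / 8) =
        (l * (2 * A - l + σ) - σ ^ 2 / 4) / (2 * σ) := by
      field_simp
      ring
    rw [e2]
    apply div_nonpos_of_nonpos_of_nonneg _ (by positivity)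
    nlinarith [sq_nonneg (l - σ / 2), mul_nonneg hl (neg_nonneg.2 hA.le)]

/-- the truncated sums of one piece, upper bound -/
theorem sum_len_le {σ A l : ℝ} (hσ : 0 < σ) {B : ℕ} (hA : 0 ≤ A - l)
    (hB : A - l < σ * B) :
    ∑ b ∈ range B, (max (A - σ * b) 0 - max (A - l - σ * b) 0) ≤
      l * (A - l / 2 + σ / 2) / σ + σ / 8 := by
  have e : l * (A - l / 2 + σ / 2) / σ + σ / 8 = (A ^ 2 / (2 * σ) + A / 2 + σ / 8) -
      ((A - l) ^ 2 / (2 * σ) + (A - l) / 2) := by
    field_simp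
    ring
  rw [e, sum_sub_distrib]
  exact sub_le_sub (sum_pos_le hσ B) (le_sum_pos hσ hA hB)

end Pool.Agent.H35.SP
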