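import Mathlib
import Pool.Agent.H35.SP.Cnt0

set_option autoImplicit false

/-! # Counting in one window -/

namespace Pool.Agent.H35.SP

open Finset

/-- the end points of the pieces of the window `[α, β)` -/
noncomputable def Fq (α β K : ℝ) (q : ℕ) : ℝ := max α (min β (K * q))

theorem Fq_mono {α β K : ℝ} (hK : 0 < K) (q : ℕ) : Fq α β K q ≤ Fq α β K (q + 1) := by
  unfold Fq
  refine max_le_max le_rfl (min_le_min le_rfl ?_)
  push_cast
  nlinarith

theorem Fq_zero {α β K : ℝ} (hα : 0 ≤ α) : Fq α β K 0 = α := by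
  unfold Fq
  rw [Nat.cast_zero, mul_zero]
  exact max_eq_left ((min_le_right _ _).trans hα)

theorem Fq_top {α β K : ℝ} (hαβ : α ≤ β) {Q : ℕ} (hQ : β ≤ K * Q) : Fq α β K Q = β := by
  unfold Fq
  rw [min_eq_left hQ, max_eq_right hαβ]

theorem Fq_succ {α β K : ℝ} (hK : 0 < K) (hα : α < K) (hαβ : α ≤ β) (q : ℕ) :
    Fq α β K (q + 1) = min β (K * ((q + 1 : ℕ) : ℝ)) := by
  unfold Fq
  apply max_eq_right
  apply le_min hαβ
  push_cast
  have : 0 ≤ K * q := by positivity
  nlinarith

theorem Fq_le {α β K : ℝ} (hK : 0 < K) (hα : α < K) (hαβ : α ≤ β) (q : ℕ) :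
    Fq α β K (q + 1) ≤ K * (q + 1) := by
  rw [Fq_succ hK hα hαβ]
  exact (min_le_right _ _).trans (by push_cast; exact le_rfl)

theorem len_aux {A l : ℝ} (hl : 0 ≤ l) : max (l - max A 0) 0 = l - (max A 0 - max (A - l) 0) := by
  rcases le_total A 0 with h | h
  · rw [max_eq_right h, max_eq_right (by linarith : A - l ≤ 0), sub_zero, sub_zero, sub_zero,
      max_eq_left hl]
  · rw [max_eq_left h]
    rcases le_total (A - l) 0 with h' | h'
    · rw [max_eq_right h', max_eq_left (by linarith)]
      ring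
    · rw [max_eq_left h', max_eq_right (by linarith)]
      ring

/-- the integers in one window for which the condition fails -/
theorem card_inv_le {α β K σ Y C : ℝ} (hα0 : 0 ≤ α) (hα : α < K) (hαβ : α ≤ β) (hσ : 0 < σ)
    (hY : 0 ≤ Y) {Q : ℕ} (hQ : β ≤ K * Q) {S : Finset ℤ}
    (hS : ∀ x ∈ S, α ≤ (x : ℝ) - C ∧ (x : ℝ) - C < β ∧
      Y < (x - C) - (K - σ) * ⌊(x - C) / K⌋) :
    (S.card : ℝ) ≤ ∑ q ∈ range Q, ((Fq α β K (q + 1) - Fq α β K q) -
      (max (Y + (K - σ) * q - Fq α β K q) 0 -
        max (Y + (K - σ) * q - Fq α β K q - (Fq α β K (q + 1) - Fq α β K q)) 0)) +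
      ((range Q).filter fun q : ℕ => σ * q ≤ Y ∧ Y < σ * q + K).card +
      (if K * (⌊Y / σ⌋₊ + 1 : ℕ) < β then 1 else 0) := by
  classical
  have hK : 0 < K := lt_of_le_of_lt hα0 hα
  set r := ⌊Y / σ⌋₊ with hr
  have hr1 : σ * r ≤ Y := by
    have := Nat.floor_le (div_nonneg hY hσ.le)
    rw [le_div_iff₀ hσ] at this
    linarith
  have hr2 : Y < σ * (r + 1) := by
    have := Nat.lt_floor_add_one (Y / σ)
    rw [div_lt_iff₀ hσ] at this
    linarith
  set a := min (r + 1) Q with ha
  have haQ : a ≤ Q := min_le_right _ _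
  set SS : ℕ → Finset ℤ := fun q => S.filter fun x => ⌊((x : ℝ) - C) / K⌋ = (q : ℤ) with hSS
  set ST : Finset ℤ := S.filter fun x => ((r : ℤ) + 1) ≤ ⌊((x : ℝ) - C) / K⌋ with hST
  have hfl : ∀ x ∈ S, 0 ≤ ⌊((x : ℝ) - C) / K⌋ ∧ ⌊((x : ℝ) - C) / K⌋ < Q := by
    intro x hx
    obtain ⟨h1, h2, h3⟩ := hS x hx
    refine ⟨Int.floor_nonneg.2 (div_nonneg (by linarith) hK.le), Int.floor_lt.2 ?_⟩
    rw [div_lt_iff₀ hK]
    push_cast
    linarith
  have hcov : S ⊆ (range a).biUnion SS ∪ ST := by
    intro x hx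
    rw [mem_union]
    by_cases h : ((r : ℤ) + 1) ≤ ⌊((x : ℝ) - C) / K⌋
    · exact Or.inr (mem_filter.2 ⟨hx, h⟩)
    · left
      obtain ⟨h1, h2⟩ := hfl x hx
      rw [mem_biUnion]
      refine ⟨⌊((x : ℝ) - C) / K⌋.toNat, ?_, ?_⟩
      · rw [mem_range, ha, lt_min_iff]
        omega
      · rw [hSS, mem_filter]
        exact ⟨hx, (Int.toNat_of_nonneg h1).symm⟩
  have hcard : (S.card : ℝ) ≤ ∑ q ∈ range a, ((SS q).card : ℝ) + ST.card := by
    have h1 := (card_le_card hcov).trans (card_union_le _ _)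
    have h2 : ((range a).biUnion SS).card ≤ ∑ q ∈ range a, (SS q).card := card_biUnion_le
    have h3 : S.card ≤ ∑ q ∈ range a, (SS q).card + ST.card := by omega
    exact_mod_cast h3
  -- the pieces
  have hpc : ∀ q ∈ range a, ((SS q).card : ℝ) ≤ ((Fq α β K (q + 1) - Fq α β K q) -
      (max (Y + (K - σ) * q - Fq α β K q) 0 -
        max (Y + (K - σ) * q - Fq α β K q - (Fq α β K (q + 1) - Fq α β K q)) 0)) +
      (if σ * q ≤ Y ∧ Y < σ * q + K then 1 else 0) := by
    intro q hq
    have hqr : q ≤ r := by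
      rw [mem_range, ha, lt_min_iff] at hq
      omega
    have h1 : ∀ x ∈ SS q, C + max (Fq α β K q) (Y + (K - σ) * q) ≤ x ∧
        (x : ℝ) < C + Fq α β K (q + 1) := by
      intro x hx
      rw [hSS, mem_filter] at hx
      obtain ⟨hx, hxq⟩ := hx
      obtain ⟨g1, g2, g3⟩ := hS x hx
      have g4 := Int.floor_le (((x : ℝ) - C) / K)
      have g5 := Int.lt_floor_add_one (((x : ℝ) - C) / K)
      rw [hxq] at g3 g4 g5
      rw [le_div_iff₀ hK] at g4
      rw [div_lt_iff₀ hK] at g5
      push_cast at g3 g4 g5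
      constructor
      · have : max (Fq α β K q) (Y + (K - σ) * q) ≤ x - C := by
          apply max_le
          · unfold Fq
            apply max_le g1
            exact (min_le_right _ _).trans (by linarith)
          · linarith
        linarith
      · have : (x : ℝ) - C < Fq α β K (q + 1) := by
          rw [Fq_succ hK hα hαβ]
          apply lt_min g2
          push_cast
          linarith
        linarith
    have h2 := card_le_of_mem h1
    refine h2.trans (add_le_add ?_ ?_)
    · have e : C + Fq α β K (q + 1) - (C + max (Fq α β K q) (Y + (K - σ) * q)) =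
          (Fq α β K (q + 1) - Fq α β K q) - max (Y + (K - σ) * q - Fq α β K q) 0 := by
        rcases le_total (Fq α β K q) (Y + (K - σ) * q) with h | h
        · rw [max_eq_right h, max_eq_left (by linarith)]
          ring
        · rw [max_eq_left h, max_eq_right (by linarith)]
          ring
      rw [e, len_aux (sub_nonneg.2 (Fq_mono hK q))]
    · by_cases h3 : C + max (Fq α β K q) (Y + (K - σ) * q) < C + Fq α β K (q + 1)
      · rw [if_pos h3, if_pos]
        constructor
        · have : (q : ℝ) ≤ r := by exact_mod_cast hqr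
          nlinarith
        · have h4 := le_max_right (Fq α β K q) (Y + (K - σ) * q)
          have h5 := Fq_le hK hα hαβ q
          nlinarith
      · rw [if_neg h3]
        split_ifs <;> norm_num
  -- the tail
  have htl : (ST.card : ℝ) ≤ ∑ q ∈ Ico a Q, ((Fq α β K (q + 1) - Fq α β K q) -
      (max (Y + (K - σ) * q - Fq α β K q) 0 -
        max (Y + (K - σ) * q - Fq α β K q - (Fq α β K (q + 1) - Fq α β K q)) 0)) +
      (if K * (r + 1 : ℕ) < β then 1 else 0) := by
    have h1 : ∀ x ∈ ST, C + K * (r + 1 : ℕ) ≤ x ∧ (x : ℝ) < C + β := by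
      intro x hx
      rw [hST, mem_filter] at hx
      obtain ⟨hx, hxq⟩ := hx
      obtain ⟨g1, g2, g3⟩ := hS x hx
      rw [Int.le_floor, le_div_iff₀ hK] at hxq
      push_cast at hxq ⊢
      constructor <;> linarith
    have h2 := card_le_of_mem h1
    refine h2.trans (add_le_add ?_ ?_)
    · have h3 : ∑ q ∈ Ico a Q, (Fq α β K (q + 1) - Fq α β K q) ≤
          ∑ q ∈ Ico a Q, ((Fq α β K (q + 1) - Fq α β K q) -
      (max (Y + (K - σ) * q - Fq α β K q) 0 -
        max (Y + (K - σ) * q - Fq α β K q - (Fq α β K (q + 1) - Fq α β K q)) 0)) := by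
        apply sum_le_sum
        intro q hq
        rw [mem_Ico] at hq
        have hq1 : r + 1 ≤ q := by
          rcases le_total (r + 1) Q with h | h
          · rw [ha, min_eq_left h] at hq
            exact hq.1
          · rw [ha, min_eq_right h] at hq
            omega
        have hl := sub_nonneg.2 (Fq_mono (α := α) (β := β) hK q)
        obtain ⟨p, rfl⟩ : ∃ p, q = p + 1 := ⟨q - 1, by omega⟩
        have h4 := Fq_succ hK hα hαβ p
        have hq1r : (r : ℝ) + 1 ≤ ((p + 1 : ℕ) : ℝ) := by exact_mod_cast hq1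
        rcases le_total (K * ((p + 1 : ℕ) : ℝ)) β with h | h
        · rw [min_eq_right h] at h4
          have h5 : Y + (K - σ) * ((p + 1 : ℕ) : ℝ) - Fq α β K (p + 1) ≤ 0 := by
            rw [h4]
            nlinarith
          rw [max_eq_right h5]
          have := le_max_right (Y + (K - σ) * ((p + 1 : ℕ) : ℝ) - Fq α β K (p + 1) -
            (Fq α β K (p + 1 + 1) - Fq α β K (p + 1))) 0
          linarith
        · rw [min_eq_left h] at h4
          have h5 : Fq α β K (p + 1 + 1) = β := by
            apply Fq_top hαβ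
            push_cast at h ⊢
            linarith
          rw [h5, h4]
          simp only [sub_self, sub_zero, le_refl]
      refine le_trans ?_ h3
      rw [sum_Ico_eq_sub _ haQ, sum_range_sub, sum_range_sub, Fq_top hαβ hQ]
      have e : C + β - (C + K * ((r + 1 : ℕ) : ℝ)) = β - K * ((r + 1 : ℕ) : ℝ) := by ring
      rw [e]
      apply max_le
      · rcases le_total (r + 1) Q with h | h
        · rw [ha, min_eq_left h, Fq_succ hK hα hαβ]
          have := min_le_right β (K * ((r + 1 : ℕ) : ℝ))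
          linarith
        · rw [ha, min_eq_right h, Fq_top hαβ hQ]
          have : (Q : ℝ) ≤ ((r + 1 : ℕ) : ℝ) := by exact_mod_cast h
          nlinarith
      · have h6 : Fq α β K a ≤ β := by
          unfold Fq
          exact max_le hαβ (min_le_left _ _)
        linarith
    · have e : (C + K * ((r + 1 : ℕ) : ℝ) < C + β) ↔ (K * ((r + 1 : ℕ) : ℝ) < β) := by
        constructor <;> intro h <;> linarith
      simp only [e]
      exact le_rfl
  refine hcard.trans ((add_le_add (sum_le_sum hpc) htl).trans ?_)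
  rw [sum_add_distrib, ← sum_range_add_sum_Ico _ haQ]
  have h7 : (∑ q ∈ range a, (if σ * (q : ℝ) ≤ Y ∧ Y < σ * q + K then (1 : ℝ) else 0)) ≤
      ((range Q).filter fun q : ℕ => σ * q ≤ Y ∧ Y < σ * q + K).card := by
    rw [card_filter]
    push_cast
    exact sum_le_sum_of_subset_of_nonneg (range_mono haQ) fun q _ _ => by split_ifs <;> norm_num
  linarith

end Pool.Agent.H35.SP
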