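import Mathlib
import Pool.Agent.H35.SP.Cnt1

set_option autoImplicit false

/-! # Counting the integers of a doubly flattened row, lower bound -/

namespace Pool.Agent.H35.SP

open Finset

/-- the condition of the doubly flattened row -/
def Val (c K₂ α K σ₀ σ₁ Y : ℝ) (x : ℤ) (b : ℕ) : Prop :=
  α ≤ (x : ℝ) - (c + K₂ * b) ∧ (x : ℝ) - (c + K₂ * b) < α + K₂ ∧
    ((x : ℝ) - (c + K₂ * b)) - (K - σ₀) * ⌊((x : ℝ) - (c + K₂ * b)) / K⌋ ≤ Y - σ₁ * b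

theorem P_lip {K s α η : ℝ} {n : ℤ} (hK : 0 ≤ K) (hs0 : 0 ≤ s) (hs : s ≤ K) (hα0 : 0 ≤ α)
    (hα : α ≤ K) (h : s - α = n * K + η) : |s * (K - s) - α * (K - α)| ≤ K * |η| := by
  rcases lt_trichotomy n 0 with hn | hn | hn
  · have hn1 : (n : ℝ) ≤ -1 := by exact_mod_cast (by omega : n ≤ -1)
    have h1 : s + (K - α) ≤ |η| := by
      refine le_trans ?_ (le_abs_self η)
      nlinarith
    rw [abs_le]
    constructor <;> nlinarith [mul_nonneg hs0 hs0, mul_nonneg hα0 (sub_nonneg.2 hα),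
      mul_nonneg hs0 (sub_nonneg.2 hs), mul_nonneg hK (sub_nonneg.2 h1),
      mul_nonneg (sub_nonneg.2 hα) (sub_nonneg.2 hα)]
  · subst hn
    have h1 : s * (K - s) - α * (K - α) = η * (K - s - α) := by
      have : η = s - α := by rw [h]; push_cast; ring
      rw [this]
      ring
    rw [h1, abs_mul, mul_comm K]
    apply mul_le_mul_of_nonneg_left _ (abs_nonneg η)
    rw [abs_le]
    constructor <;> linarith
  · have hn1 : (1 : ℝ) ≤ n := by exact_mod_cast (by omega : 1 ≤ n)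
    have h1 : (K - s) + α ≤ |η| := by
      refine le_trans ?_ (neg_le_abs η)
      nlinarith
    rw [abs_le]
    constructor <;> nlinarith [mul_nonneg hs0 hs0, mul_nonneg hα0 (sub_nonneg.2 hα),
      mul_nonneg hs0 (sub_nonneg.2 hs), mul_nonneg hK (sub_nonneg.2 h1),
      mul_nonneg (sub_nonneg.2 hs) (sub_nonneg.2 hs), mul_nonneg hα0 hα0]

theorem abel (F : ℕ → ℝ) (n : ℕ) : ∑ q ∈ range n, (q : ℝ) * (F (q + 1) - F q) =
    n * F n - ∑ q ∈ range n, F (q + 1) := by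
  induction n with
  | zero => simp
  | succ n ih =>
    rw [sum_range_succ, ih, sum_range_succ]
    push_cast
    ring

/-- the first moment of the pieces -/
theorem sum_q_len {α K₂ K η : ℝ} (hα0 : 0 ≤ α) (hα : α < K) (hK₂ : 0 < K₂) {p : ℕ} {N : ℤ}
    (hp1 : K * p < α + K₂) (hp2 : α + K₂ ≤ K * ((p + 1 : ℕ) : ℝ)) (hη : K₂ = N * K + η) :
    |∑ q ∈ range (p + 1), (q : ℝ) * (Fq α (α + K₂) K (q + 1) - Fq α (α + K₂) K q) -
      (K₂ * (2 * α + K₂) / (2 * K) - K₂ / 2)| ≤ |η| / 2 := by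
  have hK : 0 < K := lt_of_le_of_lt hα0 hα
  have hαβ : α ≤ α + K₂ := by linarith
  have h1 : ∑ q ∈ range (p + 1), Fq α (α + K₂) K (q + 1) = K * (p * (p + 1) / 2) + (α + K₂) := by
    rw [sum_range_succ, Fq_top hαβ hp2]
    congr 1
    have h2 : ∀ q ∈ range p, Fq α (α + K₂) K (q + 1) = K * ((q : ℝ) + 1) := by
      intro q hq
      rw [Fq_succ hK hα hαβ, min_eq_right]
      · push_cast; ring
      · rw [mem_range] at hq
        have : ((q + 1 : ℕ) : ℝ) ≤ p := by exact_mod_cast hq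
        nlinarith
    rw [sum_congr rfl h2, ← mul_sum]
    congr 1
    clear h2 hp1 hp2
    induction p with
    | zero => simp
    | succ p ih =>
      rw [sum_range_succ, ih]
      push_cast
      ring
  rw [abel, h1, Fq_top hαβ hp2]
  set s := α + K₂ - K * p with hs
  have hs0 : 0 ≤ s := by linarith
  have hsK : s ≤ K := by
    push_cast at hp2
    linarith
  have h2 := P_lip (n := N - p) hK.le hs0 hsK hα0 hα.le
    (by rw [hs, hη]; push_cast; ring : s - α = ((N - p : ℤ) : ℝ) * K + η)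
  have e : ((p + 1 : ℕ) : ℝ) * (α + K₂) - (K * (p * (p + 1) / 2) + (α + K₂)) -
      (K₂ * (2 * α + K₂) / (2 * K) - K₂ / 2) = (s * (K - s) - α * (K - α)) / (2 * K) := by
    rw [hs]
    push_cast
    field_simp
    ring
  rw [e, abs_div, abs_of_pos (by positivity : 0 < 2 * K), div_le_iff₀ (by positivity)]
  linarith

theorem sum_len_lower {α K₂ K σ₀ σ₁ Y η : ℝ} (hα0 : 0 ≤ α) (hα : α < K) (hK₂ : 0 < K₂)
    (hσ₀ : 0 < σ₀) (hσK : σ₀ ≤ K) (hσ₁ : 0 < σ₁) (hKK : K ^ 2 = σ₀ * K₂) {p : ℕ} {N : ℤ}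
    (hp1 : K * p < α + K₂) (hp2 : α + K₂ ≤ K * ((p + 1 : ℕ) : ℝ)) (hη : K₂ = N * K + η)
    {B : ℕ} (hB : Y < σ₁ * B) :
    K₂ / σ₁ * (Y - σ₀ * α / K + (σ₀ + σ₁) / 2 - K) - (K - σ₀) * |η| / (2 * σ₁) -
      (p + 1) * σ₁ / 8 ≤
    ∑ q ∈ range (p + 1), ∑ b ∈ range B,
      (max (Y - σ₁ * b + (K - σ₀) * q - Fq α (α + K₂) K q) 0 -
        max (Y - σ₁ * b + (K - σ₀) * q - Fq α (α + K₂) K q -
          (Fq α (α + K₂) K (q + 1) - Fq α (α + K₂) K q)) 0) := by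
  have hK : 0 < K := lt_of_le_of_lt hα0 hα
  have hαβ : α ≤ α + K₂ := by linarith
  have h1 : ∀ q ∈ range (p + 1), (Fq α (α + K₂) K (q + 1) - Fq α (α + K₂) K q) *
      ((Y + (K - σ₀) * q - Fq α (α + K₂) K q) -
        (Fq α (α + K₂) K (q + 1) - Fq α (α + K₂) K q) / 2 + σ₁ / 2) / σ₁ - σ₁ / 8 ≤
      ∑ b ∈ range B,
      (max (Y - σ₁ * b + (K - σ₀) * q - Fq α (α + K₂) K q) 0 -
        max (Y - σ₁ * b + (K - σ₀) * q - Fq α (α + K₂) K q -
          (Fq α (α + K₂) K (q + 1) - Fq α (α + K₂) K q)) 0) := by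
    intro q hq
    have h2 : Y + (K - σ₀) * q - Fq α (α + K₂) K q < σ₁ * B := by
      have h3 : K * q ≤ Fq α (α + K₂) K q := by
        unfold Fq
        refine le_trans (le_min ?_ le_rfl) (le_max_right _ _)
        rw [mem_range] at hq
        have : (q : ℝ) ≤ p := by exact_mod_cast (by omega : q ≤ p)
        nlinarith
      have h4 : 0 ≤ σ₀ * q := by positivity
      nlinarith
    have h5 := le_sum_len hσ₁ (sub_nonneg.2 (Fq_mono (α := α) (β := α + K₂) hK q)) h2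
    refine h5.trans (le_of_eq ?_)
    apply sum_congr rfl
    intro b _
    congr 2 <;> ring
  refine le_trans ?_ (sum_le_sum h1)
  have e1 : ∀ q : ℕ, (Fq α (α + K₂) K (q + 1) - Fq α (α + K₂) K q) *
      ((Y + (K - σ₀) * q - Fq α (α + K₂) K q) -
        (Fq α (α + K₂) K (q + 1) - Fq α (α + K₂) K q) / 2 + σ₁ / 2) / σ₁ - σ₁ / 8 =
      ((Y + σ₁ / 2) / σ₁) * (Fq α (α + K₂) K (q + 1) - Fq α (α + K₂) K q) +
      ((K - σ₀) / σ₁) * ((q : ℝ) * (Fq α (α + K₂) K (q + 1) - Fq α (α + K₂) K q)) -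
      (1 / (2 * σ₁)) * (Fq α (α + K₂) K (q + 1) ^ 2 - Fq α (α + K₂) K q ^ 2) - σ₁ / 8 := by
    intro q
    field_simp
    ring
  simp only [e1]
  rw [sum_sub_distrib, sum_sub_distrib, sum_add_distrib, ← mul_sum, ← mul_sum, ← mul_sum,
    sum_range_sub, sum_range_sub (fun q => Fq α (α + K₂) K q ^ 2), sum_const, card_range,
    nsmul_eq_mul, Fq_top hαβ hp2, Fq_zero hα0]
  have h3 := abs_le.1 (sum_q_len hα0 hα hK₂ hp1 hp2 hη)
  set S := ∑ q ∈ range (p + 1), (q : ℝ) * (Fq α (α + K₂) K (q + 1) - Fq α (α + K₂) K q) with hS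
  have h4 : (K - σ₀) / σ₁ * (K₂ * (2 * α + K₂) / (2 * K) - K₂ / 2 - |η| / 2) ≤
      (K - σ₀) / σ₁ * S := by
    apply mul_le_mul_of_nonneg_left _ (div_nonneg (sub_nonneg.2 hσK) hσ₁.le)
    linarith [h3.1]
  have e2 : K₂ / σ₁ * (Y - σ₀ * α / K + (σ₀ + σ₁) / 2 - K) - (K - σ₀) * |η| / (2 * σ₁) -
      (p + 1) * σ₁ / 8 = (Y + σ₁ / 2) / σ₁ * (α + K₂ - α) +
      (K - σ₀) / σ₁ * (K₂ * (2 * α + K₂) / (2 * K) - K₂ / 2 - |η| / 2) -
      1 / (2 * σ₁) * ((α + K₂) ^ 2 - α ^ 2) - ((p + 1 : ℕ) : ℝ) * (σ₁ / 8) := by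
    have h5 : K₂ = K ^ 2 / σ₀ := by
      rw [hKK]
      field_simp
    rw [h5]
    push_cast
    field_simp
    ring
  rw [e2]
  linarith

/-- many integers in a doubly flattened row -/
theorem valid_lower {α K₂ K σ₀ σ₁ Y η c : ℝ} (hα0 : 0 ≤ α) (hα : α < K) (hK₂ : 0 < K₂)
    (hσ₀ : 0 < σ₀) (hσK : σ₀ ≤ K) (hσ₁ : 0 < σ₁) (hKK : K ^ 2 = σ₀ * K₂) {N : ℤ}
    (hη : K₂ = N * K + η) :
    ∃ B : Finset ℤ, (∀ x ∈ B, ∃ b : ℕ, Val c K₂ α K σ₀ σ₁ Y x b) ∧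
      K₂ / σ₁ * (Y - σ₀ * α / K + (σ₀ + σ₁) / 2 - K) - (K - σ₀) * |η| / (2 * σ₁) -
        ((K₂ / K + 2) * (K / σ₁ + 1 + σ₁ / 8) + (K + σ₀) / σ₁ + 2) ≤ B.card := by
  classical
  have hK : 0 < K := lt_of_le_of_lt hα0 hα
  have hαβ : α ≤ α + K₂ := by linarith
  -- the number of pieces
  obtain ⟨p, hp1, hp2⟩ : ∃ p : ℕ, K * p < α + K₂ ∧ α + K₂ ≤ K * ((p + 1 : ℕ) : ℝ) := by
    have h1 : 0 < ⌈(α + K₂) / K⌉₊ := Nat.ceil_pos.2 (div_pos (by linarith) hK)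
    refine ⟨⌈(α + K₂) / K⌉₊ - 1, ?_, ?_⟩
    · have h2 : ((⌈(α + K₂) / K⌉₊ - 1 : ℕ) : ℝ) < (α + K₂) / K := by
        have := Nat.ceil_lt_add_one (div_nonneg (by linarith : 0 ≤ α + K₂) hK.le)
        rw [Nat.cast_sub (by omega)]
        push_cast
        linarith
      rw [lt_div_iff₀ hK] at h2
      linarith
    · rw [Nat.sub_add_cancel h1]
      have := Nat.le_ceil ((α + K₂) / K)
      rw [div_le_iff₀ hK] at this
      linarith
  set B₁ := (⌊Y / σ₁⌋ + 1).toNat with hB₁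
  have hYB : Y < σ₁ * B₁ := by
    have h1 := Int.lt_floor_add_one (Y / σ₁)
    rw [div_lt_iff₀ hσ₁] at h1
    have h2 : (⌊Y / σ₁⌋ + 1 : ℤ) ≤ (B₁ : ℤ) := Int.self_le_toNat _
    have h3 : ((⌊Y / σ₁⌋ : ℝ) + 1) ≤ (B₁ : ℝ) := by exact_mod_cast h2
    nlinarith
  have hbY : ∀ b ∈ range B₁, 0 ≤ Y - σ₁ * b := by
    intro b hb
    rw [mem_range, hB₁] at hb
    have h1 : (b : ℤ) ≤ ⌊Y / σ₁⌋ := by omega
    rw [Int.le_floor, le_div_iff₀ hσ₁] at h1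
    push_cast at h1
    linarith
  set Tot : Finset ℤ := Ico ⌈c + α⌉ ⌈c + α + K₂ * B₁⌉ with hTot
  set bb : ℤ → ℕ := fun x => ⌊((x : ℝ) - c - α) / K₂⌋.toNat with hbb
  have hbbx : ∀ x ∈ Tot, bb x ∈ range B₁ ∧ α ≤ (x : ℝ) - (c + K₂ * bb x) ∧
      (x : ℝ) - (c + K₂ * bb x) < α + K₂ := by
    intro x hx
    rw [hTot, mem_Ico, Int.ceil_le, Int.lt_ceil] at hx
    have h0 : 0 ≤ ⌊((x : ℝ) - c - α) / K₂⌋ :=
      Int.floor_nonneg.2 (div_nonneg (by linarith) hK₂.le)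
    have h1 : ((bb x : ℕ) : ℤ) = ⌊((x : ℝ) - c - α) / K₂⌋ := Int.toNat_of_nonneg h0
    have h2 := Int.floor_le (((x : ℝ) - c - α) / K₂)
    have h3 := Int.lt_floor_add_one (((x : ℝ) - c - α) / K₂)
    rw [← h1] at h2 h3
    rw [le_div_iff₀ hK₂] at h2
    rw [div_lt_iff₀ hK₂] at h3
    push_cast at h2 h3
    refine ⟨?_, by linarith, by linarith⟩
    rw [mem_range]
    have h4 : (bb x : ℝ) * K₂ < B₁ * K₂ := by linarith
    have h5 : (bb x : ℝ) < B₁ := lt_of_mul_lt_mul_right h4 hK₂.le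
    exact_mod_cast h5
  set Inv : Finset ℤ := Tot.filter fun x => ¬ Val c K₂ α K σ₀ σ₁ Y x (bb x) with hInv
  refine ⟨Tot.filter fun x => Val c K₂ α K σ₀ σ₁ Y x (bb x), fun x hx =>
    ⟨bb x, (mem_filter.1 hx).2⟩, ?_⟩
  have htot : (((Tot.filter fun x => Val c K₂ α K σ₀ σ₁ Y x (bb x)).card : ℕ) : ℝ) + Inv.card =
      Tot.card := by
    have := card_filter_add_card_filter_not (s := Tot)
      (fun x => Val c K₂ α K σ₀ σ₁ Y x (bb x))
    exact_mod_cast this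
  have htc : K₂ * B₁ - 1 ≤ (Tot.card : ℝ) := by
    rw [hTot, Int.card_Ico]
    have h1 : (⌈c + α + K₂ * B₁⌉ - ⌈c + α⌉ : ℤ) ≤ ((⌈c + α + K₂ * B₁⌉ - ⌈c + α⌉).toNat : ℤ) :=
      Int.self_le_toNat _
    have h2 : ((⌈c + α + K₂ * B₁⌉ : ℝ) - ⌈c + α⌉) ≤
        ((⌈c + α + K₂ * B₁⌉ - ⌈c + α⌉).toNat : ℝ) := by exact_mod_cast h1
    have h3 := Int.le_ceil (c + α + K₂ * B₁)
    have h4 := Int.ceil_lt_add_one (c + α)
    linarith
  set L : ℕ → ℕ → ℝ := fun b q =>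
      (max (Y - σ₁ * b + (K - σ₀) * q - Fq α (α + K₂) K q) 0 -
        max (Y - σ₁ * b + (K - σ₀) * q - Fq α (α + K₂) K q -
          (Fq α (α + K₂) K (q + 1) - Fq α (α + K₂) K q)) 0) with hL
  have hinv : (Inv.card : ℝ) ≤ ∑ b ∈ range B₁, (∑ q ∈ range (p + 1),
      ((Fq α (α + K₂) K (q + 1) - Fq α (α + K₂) K q) - L b q) +
      ((range (p + 1)).filter fun q : ℕ => σ₀ * q ≤ Y - σ₁ * b ∧ Y - σ₁ * b < σ₀ * q + K).card +
      (if K * (⌊(Y - σ₁ * b) / σ₀⌋₊ + 1 : ℕ) < α + K₂ then 1 else 0)) := by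
    have h1 : Inv ⊆ (range B₁).biUnion fun b => Inv.filter fun x => bb x = b := by
      intro x hx
      rw [mem_biUnion]
      exact ⟨bb x, (hbbx x (mem_filter.1 hx).1).1, mem_filter.2 ⟨hx, rfl⟩⟩
    have h2 : Inv.card ≤ ∑ b ∈ range B₁, (Inv.filter fun x => bb x = b).card :=
      (card_le_card h1).trans card_biUnion_le
    have h3 : (Inv.card : ℝ) ≤ ∑ b ∈ range B₁, ((Inv.filter fun x => bb x = b).card : ℝ) := by
      exact_mod_cast h2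
    refine h3.trans (sum_le_sum fun b hb => ?_)
    refine card_inv_le (C := c + K₂ * b) hα0 hα hαβ hσ₀ (hbY b hb) hp2 ?_
    intro x hx
    rw [mem_filter, hInv, mem_filter] at hx
    obtain ⟨⟨hx1, hx2⟩, rfl⟩ := hx
    obtain ⟨h4, h5, h6⟩ := hbbx x hx1
    refine ⟨h5, h6, ?_⟩
    by_contra h7
    exact hx2 ⟨h5, h6, not_lt.1 h7⟩
  rw [sum_add_distrib, sum_add_distrib] at hinv
  have hA : ∑ b ∈ range B₁, ∑ q ∈ range (p + 1),
      ((Fq α (α + K₂) K (q + 1) - Fq α (α + K₂) K q) - L b q) =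
      K₂ * B₁ - ∑ q ∈ range (p + 1), ∑ b ∈ range B₁, L b q := by
    rw [sum_comm (s := range (p + 1)) (t := range B₁)]
    simp only [sum_sub_distrib]
    congr 1
    have h1 : ∀ b ∈ range B₁, ∑ q ∈ range (p + 1), Fq α (α + K₂) K (q + 1) -
        ∑ q ∈ range (p + 1), Fq α (α + K₂) K q = K₂ := by
      intro b _
      rw [← sum_sub_distrib, sum_range_sub, Fq_top hαβ hp2, Fq_zero hα0]
      ring
    rw [← sum_sub_distrib, sum_congr rfl h1, sum_const, card_range, nsmul_eq_mul, mul_comm]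
  have hBq : (∑ b ∈ range B₁, (((range (p + 1)).filter fun q : ℕ => σ₀ * q ≤ Y - σ₁ * b ∧
      Y - σ₁ * b < σ₀ * q + K).card : ℝ)) ≤ (p + 1) * (K / σ₁ + 1) := by
    have h1 : (∑ b ∈ range B₁, (((range (p + 1)).filter fun q : ℕ => σ₀ * q ≤ Y - σ₁ * b ∧
      Y - σ₁ * b < σ₀ * q + K).card : ℝ)) = ∑ q ∈ range (p + 1),
        (((range B₁).filter fun b : ℕ => σ₀ * q ≤ Y - σ₁ * b ∧
      Y - σ₁ * b < σ₀ * q + K).card : ℝ) := by
      simp only [card_filter]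
      push_cast
      rw [sum_comm]
    rw [h1]
    have h2 : ∀ q ∈ range (p + 1), (((range B₁).filter fun b : ℕ => σ₀ * q ≤ Y - σ₁ * b ∧
      Y - σ₁ * b < σ₀ * q + K).card : ℝ) ≤ K / σ₁ + 1 := by
      intro q _
      have h3 : (Y - σ₀ * q - K) / σ₁ ≤ (Y - σ₀ * q) / σ₁ :=
        div_le_div_of_nonneg_right (by linarith) hσ₁.le
      have h4 := card_nat_le (S := (range B₁).filter fun b : ℕ => σ₀ * q ≤ Y - σ₁ * b ∧
        Y - σ₁ * b < σ₀ * q + K) h3 (by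
          intro b hb
          obtain ⟨h5, h6, h7⟩ := mem_filter.1 hb
          rw [div_le_iff₀ hσ₁, le_div_iff₀ hσ₁]
          constructor <;> linarith)
      refine h4.trans (le_of_eq ?_)
      rw [← sub_div]
      congr 2
      ring
    refine (sum_le_sum h2).trans (le_of_eq ?_)
    rw [sum_const, card_range, nsmul_eq_mul]
    push_cast
    ring
  have hC : (∑ b ∈ range B₁, (if K * (⌊(Y - σ₁ * b) / σ₀⌋₊ + 1 : ℕ) < α + K₂ then (1 : ℝ)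
      else 0)) ≤ σ₀ * p / σ₁ + 1 := by
    have h1 : (∑ b ∈ range B₁, (if K * (⌊(Y - σ₁ * b) / σ₀⌋₊ + 1 : ℕ) < α + K₂ then (1 : ℝ)
      else 0)) = (((range B₁).filter fun b : ℕ =>
        K * (⌊(Y - σ₁ * b) / σ₀⌋₊ + 1 : ℕ) < α + K₂).card : ℝ) := by
      rw [card_filter]
      push_cast
      rfl
    rw [h1]
    have h3 : (Y - σ₀ * p) / σ₁ ≤ Y / σ₁ :=
      div_le_div_of_nonneg_right (by have : 0 ≤ σ₀ * p := by positivity
                                     linarith) hσ₁.le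
    have h4 := card_nat_le (S := (range B₁).filter fun b : ℕ =>
      K * (⌊(Y - σ₁ * b) / σ₀⌋₊ + 1 : ℕ) < α + K₂) h3 (by
        intro b hb
        obtain ⟨h5, h6⟩ := mem_filter.1 hb
        rw [div_le_iff₀ hσ₁, le_div_iff₀ hσ₁]
        have h7 := hbY b h5
        refine ⟨?_, by linarith⟩
        have h8 : K * (⌊(Y - σ₁ * b) / σ₀⌋₊ + 1 : ℕ) < K * ((p + 1 : ℕ) : ℝ) := lt_of_lt_of_le h6 hp2
        have h9 : ((⌊(Y - σ₁ * b) / σ₀⌋₊ + 1 : ℕ) : ℝ) < ((p + 1 : ℕ) : ℝ) :=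
          lt_of_mul_lt_mul_left h8 hK.le
        have h10 : ⌊(Y - σ₁ * b) / σ₀⌋₊ + 1 ≤ p := by
          have : ⌊(Y - σ₁ * b) / σ₀⌋₊ + 1 < p + 1 := by exact_mod_cast h9
          omega
        have h11 : ((⌊(Y - σ₁ * b) / σ₀⌋₊ : ℝ) + 1) ≤ p := by exact_mod_cast h10
        have h12 := Nat.lt_floor_add_one ((Y - σ₁ * b) / σ₀)
        rw [div_lt_iff₀ hσ₀] at h12
        nlinarith)
    refine h4.trans (le_of_eq ?_)
    rw [← sub_div]
    congr 2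
    ring
  have hD := sum_len_lower hα0 hα hK₂ hσ₀ hσK hσ₁ hKK hp1 hp2 hη hYB
  have hp3 : (p : ℝ) ≤ K₂ / K + 1 := by
    have : (p : ℝ) < (α + K₂) / K := by
      rw [lt_div_iff₀ hK]
      linarith
    have h2 : (α + K₂) / K ≤ K₂ / K + 1 := by
      rw [add_div]
      have : α / K ≤ 1 := (div_le_one hK).2 hα.le
      linarith
    linarith
  have hp4 : σ₀ * p / σ₁ ≤ (K + σ₀) / σ₁ := by
    apply div_le_div_of_nonneg_right _ hσ₁.le
    have h1 : σ₀ * p ≤ σ₀ * (K₂ / K + 1) := mul_le_mul_of_nonneg_left hp3 hσ₀.le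
    have h2 : σ₀ * (K₂ / K + 1) = K + σ₀ := by
      rw [mul_add, mul_one, ← mul_div_assoc, ← hKK]
      field_simp
    linarith
  have hp5 : ((p : ℝ) + 1) * (K / σ₁ + 1 + σ₁ / 8) ≤ (K₂ / K + 2) * (K / σ₁ + 1 + σ₁ / 8) := by
    apply mul_le_mul_of_nonneg_right (by linarith) (by positivity)
  rw [hA] at hinv
  have hfin : ((p : ℝ) + 1) * (K / σ₁ + 1 + σ₁ / 8) = (p + 1) * (K / σ₁ + 1) + (p + 1) * σ₁ / 8 := by
    ring
  linarith

end Pool.Agent.H35.SP
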