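import Mathlib
import Pool.Agent.H35.SP.Cnt2

set_option autoImplicit false

/-! # Counting the integers of a doubly flattened row, upper bound -/

namespace Pool.Agent.H35.SP

open Finset

/-- number of integers in a closed real interval, upper bound -/
theorem card_le_of_mem' {S : Finset ℤ} {s t : ℝ} (h : ∀ x ∈ S, s ≤ x ∧ (x : ℝ) ≤ t) :
    (S.card : ℝ) ≤ max (t - s) 0 + 1 := by
  have h1 : S ⊆ Icc ⌈s⌉ ⌊t⌋ := by
    intro x hx
    rw [mem_Icc]
    exact ⟨Int.ceil_le.2 (h x hx).1, Int.le_floor.2 (h x hx).2⟩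
  have h2 := card_le_card h1
  rw [Int.card_Icc] at h2
  by_cases h3 : ⌈s⌉ ≤ ⌊t⌋ + 1
  · have h4 : ((S.card : ℕ) : ℤ) ≤ ⌊t⌋ + 1 - ⌈s⌉ := by omega
    have h5 : (S.card : ℝ) ≤ ⌊t⌋ + 1 - ⌈s⌉ := by exact_mod_cast h4
    have h6 := Int.floor_le t
    have h7 := Int.le_ceil s
    have h8 := le_max_left (t - s) 0
    linarith
  · have h4 : S.card = 0 := by omega
    rw [h4]
    have h8 := le_max_right (t - s) 0
    push_cast
    linarith

theorem sum_len_le' {σ A l B₀ : ℝ} (hσ : 0 < σ) {B : ℕ} (hB₀ : 0 ≤ B₀) (hA : -B₀ ≤ A - l)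
    (hB : A - l < σ * B) :
    ∑ b ∈ range B, (max (A - σ * b) 0 - max (A - l - σ * b) 0) ≤
      l * (A - l / 2 + σ / 2) / σ + σ / 8 + B₀ ^ 2 / (2 * σ) := by
  have h0 : 0 ≤ B₀ ^ 2 / (2 * σ) := by positivity
  rcases le_or_gt 0 (A - l) with h | h
  · have := sum_len_le hσ h hB
    linarith
  · have e : l * (A - l / 2 + σ / 2) / σ + σ / 8 = (A ^ 2 / (2 * σ) + A / 2 + σ / 8) -
        ((A - l) ^ 2 / (2 * σ) + (A - l) / 2) := by
      field_simp
      ring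
    rw [e, sum_sub_distrib]
    have h1 := sum_pos_le (A := A) hσ B
    have h2 : 0 ≤ ∑ b ∈ range B, max (A - l - σ * b) 0 := sum_nonneg fun b _ => le_max_right _ _
    have h3 : (A - l) ^ 2 / (2 * σ) + (A - l) / 2 ≤ B₀ ^ 2 / (2 * σ) := by
      have h4 : (A - l) ^ 2 / (2 * σ) ≤ B₀ ^ 2 / (2 * σ) := by
        apply div_le_div_of_nonneg_right _ (by positivity)
        nlinarith
      linarith
    linarith

theorem len_aux' {A l : ℝ} (hl : 0 ≤ l) : max (min l A) 0 = max A 0 - max (A - l) 0 := by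
  rcases le_total A 0 with h | h
  · rw [max_eq_right h, max_eq_right (by linarith : A - l ≤ 0), min_eq_right (by linarith),
      max_eq_right h, sub_zero]
  · rw [max_eq_left h]
    rcases le_total (A - l) 0 with h' | h'
    · rw [max_eq_right h', min_eq_right (by linarith), max_eq_left h, sub_zero]
    · rw [max_eq_left h', min_eq_left (by linarith), max_eq_left hl]
      ring

/-- the integers in one window for which the condition holds -/
theorem card_val_le {α β K σ Y C : ℝ} (hα0 : 0 ≤ α) (hα : α < K) (hαβ : α ≤ β) (hσ : 0 < σ)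
    (hσK : σ ≤ K) {Q : ℕ} (hQ : β ≤ K * Q) {S : Finset ℤ}
    (hS : ∀ x ∈ S, α ≤ (x : ℝ) - C ∧ (x : ℝ) - C < β ∧
      (x - C) - (K - σ) * ⌊(x - C) / K⌋ ≤ Y) :
    (S.card : ℝ) ≤ ∑ q ∈ range Q, (max (Y + (K - σ) * q - Fq α β K q) 0 -
        max (Y + (K - σ) * q - Fq α β K q - (Fq α β K (q + 1) - Fq α β K q)) 0) +
      ((range Q).filter fun q : ℕ => σ * q ≤ Y ∧ Y < σ * q + K).card + 1 := by
  classical
  have hK : 0 < K := lt_of_le_of_lt hα0 hα
  have _ := hσK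
  set L : ℕ → ℝ := fun q => max (Y + (K - σ) * q - Fq α β K q) 0 -
        max (Y + (K - σ) * q - Fq α β K q - (Fq α β K (q + 1) - Fq α β K q)) 0 with hL
  -- the number of full pieces
  obtain ⟨a, haQ, ha1, ha2⟩ : ∃ a : ℕ, a ≤ Q ∧ (∀ q < a, σ * q + K ≤ Y) ∧
      ∀ q, a ≤ q → q < Q → Y < σ * q + K := by
    refine ⟨min Q (if K ≤ Y then ⌊(Y - K) / σ⌋₊ + 1 else 0), min_le_left _ _, ?_, ?_⟩
    · intro q hq
      split_ifs at hq with h
      · have h1 : q ≤ ⌊(Y - K) / σ⌋₊ := by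
          rw [lt_min_iff] at hq
          omega
        have h2 := (Nat.le_floor_iff (div_nonneg (sub_nonneg.2 h) hσ.le)).1 h1
        rw [le_div_iff₀ hσ] at h2
        linarith
      · simp at hq
    · intro q hq hqQ
      split_ifs at hq with h
      · have h1 : ⌊(Y - K) / σ⌋₊ + 1 ≤ q := by
          rw [min_le_iff] at hq
          omega
        have h2 : (Y - K) / σ < q := by
          have := Nat.lt_floor_add_one ((Y - K) / σ)
          have h3 : ((⌊(Y - K) / σ⌋₊ : ℝ) + 1) ≤ q := by exact_mod_cast h1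
          linarith
        rw [div_lt_iff₀ hσ] at h2
        linarith
      · have : 0 ≤ σ * q := by positivity
        push Not at h
        linarith
  set SS : ℕ → Finset ℤ := fun q => S.filter fun x => ⌊((x : ℝ) - C) / K⌋ = (q : ℤ) with hSS
  set ST : Finset ℤ := S.filter fun x => ⌊((x : ℝ) - C) / K⌋ < (a : ℤ) with hST
  have hfl : ∀ x ∈ S, 0 ≤ ⌊((x : ℝ) - C) / K⌋ ∧ ⌊((x : ℝ) - C) / K⌋ < Q := by
    intro x hx
    obtain ⟨h1, h2, h3⟩ := hS x hx
    refine ⟨Int.floor_nonneg.2 (div_nonneg (by linarith) hK.le), Int.floor_lt.2 ?_⟩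
    rw [div_lt_iff₀ hK]
    push_cast
    linarith
  have hcov : S ⊆ (Ico a Q).biUnion SS ∪ ST := by
    intro x hx
    rw [mem_union]
    by_cases h : ⌊((x : ℝ) - C) / K⌋ < (a : ℤ)
    · exact Or.inr (mem_filter.2 ⟨hx, h⟩)
    · left
      obtain ⟨h1, h2⟩ := hfl x hx
      rw [mem_biUnion]
      refine ⟨⌊((x : ℝ) - C) / K⌋.toNat, ?_, ?_⟩
      · rw [mem_Ico]
        omega
      · rw [hSS, mem_filter]
        exact ⟨hx, (Int.toNat_of_nonneg h1).symm⟩
  have hcard : (S.card : ℝ) ≤ ∑ q ∈ Ico a Q, ((SS q).card : ℝ) + ST.card := by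
    have h1 := (card_le_card hcov).trans (card_union_le _ _)
    have h2 : ((Ico a Q).biUnion SS).card ≤ ∑ q ∈ Ico a Q, (SS q).card := card_biUnion_le
    have h3 : S.card ≤ ∑ q ∈ Ico a Q, (SS q).card + ST.card := by omega
    exact_mod_cast h3
  -- the partial pieces
  have hpc : ∀ q ∈ Ico a Q, ((SS q).card : ℝ) ≤ L q +
      (if σ * q ≤ Y ∧ Y < σ * q + K then 1 else 0) := by
    intro q hq
    rw [mem_Ico] at hq
    have h1 : ∀ x ∈ SS q, C + Fq α β K q ≤ x ∧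
        (x : ℝ) ≤ C + min (Fq α β K (q + 1)) (Y + (K - σ) * q) ∧ σ * q ≤ Y := by
      intro x hx
      rw [hSS, mem_filter] at hx
      obtain ⟨hx, hxq⟩ := hx
      obtain ⟨g1, g2, g3⟩ := hS x hx
      have g4 := Int.floor_le (((x : ℝ) - C) / K)
      have g5 := Int.lt_floor_add_one (((x : ℝ) - C) / K)
      rw [hxq] at g3 g4 g5
      rw [le_div_iff₀ hK] at g4
      rw [div_lt_iff₀ hK] at g5
      push_cast at g3 g4 g5
      refine ⟨?_, ?_, by linarith⟩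
      · have : Fq α β K q ≤ x - C := by
          unfold Fq
          apply max_le g1
          exact (min_le_right _ _).trans (by linarith)
        linarith
      · have : (x : ℝ) - C ≤ min (Fq α β K (q + 1)) (Y + (K - σ) * q) := by
          apply le_min
          · rw [Fq_succ hK hα hαβ]
            apply le_min g2.le
            push_cast
            linarith
          · linarith
        linarith
    by_cases hq0 : σ * q ≤ Y
    · rw [if_pos ⟨hq0, ha2 q hq.1 hq.2⟩]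
      refine (card_le_of_mem' fun x hx => ⟨(h1 x hx).1, (h1 x hx).2.1⟩).trans (le_of_eq ?_)
      congr 1
      rw [hL]
      simp only
      rw [← len_aux' (sub_nonneg.2 (Fq_mono hK q))]
      congr 1
      rcases le_total (Fq α β K (q + 1)) (Y + (K - σ) * q) with h | h
      · rw [min_eq_left h, min_eq_left (by linarith)]
        ring
      · rw [min_eq_right h, min_eq_right (by linarith)]
        ring
    · have : SS q = ∅ := by
        rw [eq_empty_iff_forall_notMem]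
        intro x hx
        exact hq0 (h1 x hx).2.2
      rw [this, card_empty]
      have h2 : 0 ≤ L q := by
        rw [hL]
        simp only
        rw [← len_aux' (sub_nonneg.2 (Fq_mono hK q))]
        exact le_max_right _ _
      push_cast
      split_ifs <;> linarith
  -- the full pieces
  have htl : (ST.card : ℝ) ≤ ∑ q ∈ range a, L q + 1 := by
    have h1 : ∀ x ∈ ST, C + α ≤ x ∧ (x : ℝ) ≤ C + Fq α β K a := by
      intro x hx
      rw [hST, mem_filter] at hx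
      obtain ⟨hx, hxq⟩ := hx
      obtain ⟨g1, g2, g3⟩ := hS x hx
      refine ⟨by linarith, ?_⟩
      have : (x : ℝ) - C ≤ Fq α β K a := by
        unfold Fq
        refine le_trans (le_min g2.le ?_) (le_max_right _ _)
        have g5 := Int.lt_floor_add_one (((x : ℝ) - C) / K)
        rw [div_lt_iff₀ hK] at g5
        have g6 : ((⌊((x : ℝ) - C) / K⌋ : ℝ) + 1) ≤ a := by exact_mod_cast hxq
        nlinarith
      linarith
    refine (card_le_of_mem' h1).trans ?_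
    have h2 : ∑ q ∈ range a, L q = Fq α β K a - α := by
      have h3 : ∀ q ∈ range a, L q = Fq α β K (q + 1) - Fq α β K q := by
        intro q hq
        rw [mem_range] at hq
        have h4 := ha1 q hq
        have h5 := Fq_le hK hα hαβ q
        have h6 := Fq_mono (α := α) (β := β) hK q
        rw [hL]
        simp only
        rw [max_eq_left (by nlinarith), max_eq_left (by nlinarith)]
        ring
      rw [sum_congr rfl h3, sum_range_sub, Fq_zero hα0]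
    rw [h2]
    have h7 : α ≤ Fq α β K a := by
      unfold Fq
      exact le_max_left _ _
    rw [max_eq_left (by linarith)]
    linarith
  refine hcard.trans ((add_le_add (sum_le_sum hpc) htl).trans ?_)
  rw [sum_add_distrib, ← sum_range_add_sum_Ico _ haQ]
  have h7 : (∑ q ∈ Ico a Q, (if σ * (q : ℝ) ≤ Y ∧ Y < σ * q + K then (1 : ℝ) else 0)) ≤
      ((range Q).filter fun q : ℕ => σ * q ≤ Y ∧ Y < σ * q + K).card := by
    rw [card_filter]
    push_cast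
    refine sum_le_sum_of_subset_of_nonneg ?_ fun q _ _ => by split_ifs <;> norm_num
    intro q hq
    rw [mem_Ico] at hq
    exact mem_range.2 hq.2
  linarith

theorem sum_len_upper {α K₂ K σ₀ σ₁ Y η B₀ : ℝ} (hα0 : 0 ≤ α) (hα : α < K) (hK₂ : 0 < K₂)
    (hσ₀ : 0 < σ₀) (hσK : σ₀ ≤ K) (hσ₁ : 0 < σ₁) (hKK : K ^ 2 = σ₀ * K₂) {p : ℕ} {N : ℤ}
    (hp1 : K * p < α + K₂) (hp2 : α + K₂ ≤ K * ((p + 1 : ℕ) : ℝ)) (hη : K₂ = N * K + η)
    {B : ℕ} (hB : Y < σ₁ * B) (hB₀ : 0 ≤ B₀) (hY : -B₀ ≤ Y - σ₀ * p - K) :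
    ∑ q ∈ range (p + 1), ∑ b ∈ range B,
      (max (Y - σ₁ * b + (K - σ₀) * q - Fq α (α + K₂) K q) 0 -
        max (Y - σ₁ * b + (K - σ₀) * q - Fq α (α + K₂) K q -
          (Fq α (α + K₂) K (q + 1) - Fq α (α + K₂) K q)) 0) ≤
    K₂ / σ₁ * (Y - σ₀ * α / K + (σ₀ + σ₁) / 2 - K) + (K - σ₀) * |η| / (2 * σ₁) +
      (p + 1) * (σ₁ / 8 + B₀ ^ 2 / (2 * σ₁)) := by
  have hK : 0 < K := lt_of_le_of_lt hα0 hα
  have hαβ : α ≤ α + K₂ := by linarith
  have h1 : ∀ q ∈ range (p + 1), ∑ b ∈ range B,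
      (max (Y - σ₁ * b + (K - σ₀) * q - Fq α (α + K₂) K q) 0 -
        max (Y - σ₁ * b + (K - σ₀) * q - Fq α (α + K₂) K q -
          (Fq α (α + K₂) K (q + 1) - Fq α (α + K₂) K q)) 0) ≤
      (Fq α (α + K₂) K (q + 1) - Fq α (α + K₂) K q) *
      ((Y + (K - σ₀) * q - Fq α (α + K₂) K q) -
        (Fq α (α + K₂) K (q + 1) - Fq α (α + K₂) K q) / 2 + σ₁ / 2) / σ₁ + σ₁ / 8 +
        B₀ ^ 2 / (2 * σ₁) := by
    intro q hq
    have hqp : (q : ℝ) ≤ p := by
      rw [mem_range] at hq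
      exact_mod_cast (by omega : q ≤ p)
    have hFq := Fq_mono (α := α) (β := α + K₂) hK q
    have h2 : Y + (K - σ₀) * q - Fq α (α + K₂) K q < σ₁ * B := by
      have h3 : K * q ≤ Fq α (α + K₂) K q := by
        unfold Fq
        refine le_trans (le_min ?_ le_rfl) (le_max_right _ _)
        nlinarith
      have h4 : 0 ≤ σ₀ * q := by positivity
      nlinarith
    have h3 : -B₀ ≤ Y + (K - σ₀) * q - Fq α (α + K₂) K q -
        (Fq α (α + K₂) K (q + 1) - Fq α (α + K₂) K q) := by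
      have h4 := Fq_le hK hα hαβ q
      have h5 : σ₀ * q ≤ σ₀ * p := mul_le_mul_of_nonneg_left hqp hσ₀.le
      nlinarith
    have h5 := sum_len_le' hσ₁ hB₀ h3 (lt_of_le_of_lt (by linarith) h2)
    refine le_trans (le_of_eq ?_) h5
    apply sum_congr rfl
    intro b _
    congr 2 <;> ring
  refine (sum_le_sum h1).trans ?_
  have e1 : ∀ q : ℕ, (Fq α (α + K₂) K (q + 1) - Fq α (α + K₂) K q) *
      ((Y + (K - σ₀) * q - Fq α (α + K₂) K q) -
        (Fq α (α + K₂) K (q + 1) - Fq α (α + K₂) K q) / 2 + σ₁ / 2) / σ₁ + σ₁ / 8 +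
        B₀ ^ 2 / (2 * σ₁) =
      ((Y + σ₁ / 2) / σ₁) * (Fq α (α + K₂) K (q + 1) - Fq α (α + K₂) K q) +
      ((K - σ₀) / σ₁) * ((q : ℝ) * (Fq α (α + K₂) K (q + 1) - Fq α (α + K₂) K q)) -
      (1 / (2 * σ₁)) * (Fq α (α + K₂) K (q + 1) ^ 2 - Fq α (α + K₂) K q ^ 2) +
      (σ₁ / 8 + B₀ ^ 2 / (2 * σ₁)) := by
    intro q
    field_simp
    ring
  simp only [e1]
  rw [sum_add_distrib, sum_sub_distrib, sum_add_distrib, ← mul_sum, ← mul_sum, ← mul_sum,
    sum_range_sub, sum_range_sub (fun q => Fq α (α + K₂) K q ^ 2), sum_const, card_range,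
    nsmul_eq_mul, Fq_top hαβ hp2, Fq_zero hα0]
  have h3 := abs_le.1 (sum_q_len hα0 hα hK₂ hp1 hp2 hη)
  set S := ∑ q ∈ range (p + 1), (q : ℝ) * (Fq α (α + K₂) K (q + 1) - Fq α (α + K₂) K q) with hS
  have h4 : (K - σ₀) / σ₁ * S ≤
      (K - σ₀) / σ₁ * (K₂ * (2 * α + K₂) / (2 * K) - K₂ / 2 + |η| / 2) := by
    apply mul_le_mul_of_nonneg_left _ (div_nonneg (sub_nonneg.2 hσK) hσ₁.le)
    linarith [h3.2]
  have e2 : K₂ / σ₁ * (Y - σ₀ * α / K + (σ₀ + σ₁) / 2 - K) + (K - σ₀) * |η| / (2 * σ₁) +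
      (p + 1) * (σ₁ / 8 + B₀ ^ 2 / (2 * σ₁)) = (Y + σ₁ / 2) / σ₁ * (α + K₂ - α) +
      (K - σ₀) / σ₁ * (K₂ * (2 * α + K₂) / (2 * K) - K₂ / 2 + |η| / 2) -
      1 / (2 * σ₁) * ((α + K₂) ^ 2 - α ^ 2) +
      ((p + 1 : ℕ) : ℝ) * (σ₁ / 8 + B₀ ^ 2 / (2 * σ₁)) := by
    have h5 : K₂ = K ^ 2 / σ₀ := by
      rw [hKK]
      field_simp
    rw [h5]
    push_cast
    field_simp
    ring
  rw [e2]
  linarith

/-- not too many integers in a doubly flattened row -/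
theorem valid_upper {α K₂ K σ₀ σ₁ Y η c B₀ : ℝ} (hα0 : 0 ≤ α) (hα : α < K) (hK₂ : 0 < K₂)
    (hσ₀ : 0 < σ₀) (hσK : σ₀ ≤ K) (hσ₁ : 0 < σ₁) (hKK : K ^ 2 = σ₀ * K₂) {N : ℤ}
    (hη : K₂ = N * K + η) (hB₀ : 0 ≤ B₀) (hY0 : 0 ≤ Y) (hY : 2 * K + σ₀ - B₀ ≤ Y) (S : Finset ℤ)
    (hS : ∀ x ∈ S, ∃ b : ℕ, Val c K₂ α K σ₀ σ₁ Y x b) :
    (S.card : ℝ) ≤
      K₂ / σ₁ * (Y - σ₀ * α / K + (σ₀ + σ₁) / 2 - K) + (K - σ₀) * |η| / (2 * σ₁) +
        ((K₂ / K + 2) * (K / σ₁ + 1 + σ₁ / 8 + B₀ ^ 2 / (2 * σ₁)) + (2 * K + σ₀) / σ₁ + 2) := by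
  classical
  have hK : 0 < K := lt_of_le_of_lt hα0 hα
  have hαβ : α ≤ α + K₂ := by linarith
  -- the number of pieces
  obtain ⟨p, hp1, hp2⟩ : ∃ p : ℕ, K * p < α + K₂ ∧ α + K₂ ≤ K * ((p + 1 : ℕ) : ℝ) := by
    have h1 : 0 < ⌈(α + K₂) / K⌉₊ := Nat.ceil_pos.2 (div_pos (by linarith) hK)
    refine ⟨⌈(α + K₂) / K⌉₊ - 1, ?_, ?_⟩
    · have h2 : ((⌈(α + K₂) / K⌉₊ - 1 : ℕ) : ℝ) < (α + K₂) / K := by
        have := Nat.ceil_lt_add_one (div_nonneg (by linarith : 0 ≤ α + K₂) hK.le)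
        rw [Nat.cast_sub (by omega)]
        push_cast
        linarith
      rw [lt_div_iff₀ hK] at h2
      linarith
    · rw [Nat.sub_add_cancel h1]
      have := Nat.le_ceil ((α + K₂) / K)
      rw [div_le_iff₀ hK] at this
      linarith
  have hp3 : (p : ℝ) ≤ K₂ / K + 1 := by
    have : (p : ℝ) < (α + K₂) / K := by
      rw [lt_div_iff₀ hK]
      linarith
    have h2 : (α + K₂) / K ≤ K₂ / K + 1 := by
      rw [add_div]
      have : α / K ≤ 1 := (div_le_one hK).2 hα.le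
      linarith
    linarith
  have hp4' : σ₀ * p ≤ K + σ₀ := by
    have h1 : σ₀ * p ≤ σ₀ * (K₂ / K + 1) := mul_le_mul_of_nonneg_left hp3 hσ₀.le
    have h2 : σ₀ * (K₂ / K + 1) = K + σ₀ := by
      rw [mul_add, mul_one, ← mul_div_assoc, ← hKK]
      field_simp
    linarith
  set B₁ := (⌊Y / σ₁⌋ + 1).toNat with hB₁
  set b₀ := (⌊(Y - σ₀ * p - K) / σ₁⌋ + 1).toNat with hb₀
  have hpK : 0 ≤ σ₀ * p + K := by positivity
  have hb₀B : b₀ ≤ B₁ := by
    apply Int.toNat_le_toNat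
    have : ⌊(Y - σ₀ * p - K) / σ₁⌋ ≤ ⌊Y / σ₁⌋ := by
      apply Int.floor_le_floor
      apply div_le_div_of_nonneg_right _ hσ₁.le
      linarith
    omega
  have hYB : Y < σ₁ * B₁ := by
    have h1 := Int.lt_floor_add_one (Y / σ₁)
    rw [div_lt_iff₀ hσ₁] at h1
    have h2 : (⌊Y / σ₁⌋ + 1 : ℤ) ≤ (B₁ : ℤ) := Int.self_le_toNat _
    have h3 : ((⌊Y / σ₁⌋ : ℝ) + 1) ≤ (B₁ : ℝ) := by exact_mod_cast h2
    nlinarith
  have hbY : ∀ b : ℕ, b < b₀ → σ₀ * p + K ≤ Y - σ₁ * b := by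
    intro b hb
    have h1 : (b : ℤ) ≤ ⌊(Y - σ₀ * p - K) / σ₁⌋ := by omega
    rw [Int.le_floor, le_div_iff₀ hσ₁] at h1
    push_cast at h1
    linarith
  have hdif : ((B₁ : ℝ) - b₀) ≤ (σ₀ * p + K) / σ₁ + 1 := by
    have h1 : (B₁ : ℤ) = ⌊Y / σ₁⌋ + 1 := by
      have := Int.floor_nonneg.2 (div_nonneg hY0 hσ₁.le)
      exact Int.toNat_of_nonneg (by omega)
    have h2 : (⌊(Y - σ₀ * p - K) / σ₁⌋ + 1 : ℤ) ≤ (b₀ : ℤ) := Int.self_le_toNat _
    have h1r : (B₁ : ℝ) = ⌊Y / σ₁⌋ + 1 := by exact_mod_cast h1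
    have h2r : ((⌊(Y - σ₀ * p - K) / σ₁⌋ : ℝ) + 1) ≤ b₀ := by exact_mod_cast h2
    have h3 := Int.floor_le (Y / σ₁)
    have h4 := Int.lt_floor_add_one ((Y - σ₀ * p - K) / σ₁)
    have h5 : (Y - σ₀ * p - K) / σ₁ = Y / σ₁ - (σ₀ * p + K) / σ₁ := by
      rw [← sub_div]
      congr 1
      ring
    linarith
  -- the number of the block
  set bb : ℤ → ℕ := fun x => ⌊((x : ℝ) - c - α) / K₂⌋.toNat with hbb
  have hbbx : ∀ x ∈ S, Val c K₂ α K σ₀ σ₁ Y x (bb x) := by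
    intro x hx
    obtain ⟨b, hb⟩ := hS x hx
    have h1 : bb x = b := by
      have h2 : ⌊((x : ℝ) - c - α) / K₂⌋ = (b : ℤ) := by
        rw [Int.floor_eq_iff]
        obtain ⟨g1, g2, _⟩ := hb
        rw [le_div_iff₀ hK₂, div_lt_iff₀ hK₂]
        push_cast
        constructor <;> linarith
      rw [hbb]
      simp only
      rw [h2, Int.toNat_natCast]
    rw [h1]
    exact hb
  have hbb2 : ∀ x ∈ S, bb x < B₁ := by
    intro x hx
    obtain ⟨g1, g2, g3⟩ := hbbx x hx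
    have g4 : 0 ≤ (x : ℝ) - (c + K₂ * bb x) := by linarith
    have g5 := Int.floor_le (((x : ℝ) - (c + K₂ * bb x)) / K)
    rw [le_div_iff₀ hK] at g5
    have g6 : (0 : ℝ) ≤ ⌊((x : ℝ) - (c + K₂ * bb x)) / K⌋ := by
      exact_mod_cast Int.floor_nonneg.2 (div_nonneg g4 hK.le)
    have g7 : 0 ≤ σ₀ * ⌊((x : ℝ) - (c + K₂ * bb x)) / K⌋ := mul_nonneg hσ₀.le g6
    have g8 : σ₁ * bb x < σ₁ * B₁ := by nlinarith
    have g9 : (bb x : ℝ) < B₁ := lt_of_mul_lt_mul_left g8 hσ₁.le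
    exact_mod_cast g9
  set L : ℕ → ℕ → ℝ := fun b q =>
      (max (Y - σ₁ * b + (K - σ₀) * q - Fq α (α + K₂) K q) 0 -
        max (Y - σ₁ * b + (K - σ₀) * q - Fq α (α + K₂) K q -
          (Fq α (α + K₂) K (q + 1) - Fq α (α + K₂) K q)) 0) with hL
  set S0 : Finset ℤ := S.filter fun x => bb x < b₀ with hS0
  have hcov : S ⊆ (Ico b₀ B₁).biUnion (fun b => S.filter fun x => bb x = b) ∪ S0 := by
    intro x hx
    rw [mem_union]
    by_cases h : bb x < b₀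
    · exact Or.inr (mem_filter.2 ⟨hx, h⟩)
    · left
      rw [mem_biUnion]
      exact ⟨bb x, mem_Ico.2 ⟨not_lt.1 h, hbb2 x hx⟩, mem_filter.2 ⟨hx, rfl⟩⟩
  have hcard : (S.card : ℝ) ≤ ∑ b ∈ Ico b₀ B₁, ((S.filter fun x => bb x = b).card : ℝ) +
      S0.card := by
    have h1 := (card_le_card hcov).trans (card_union_le _ _)
    have h2 : ((Ico b₀ B₁).biUnion (fun b => S.filter fun x => bb x = b)).card ≤
        ∑ b ∈ Ico b₀ B₁, (S.filter fun x => bb x = b).card := card_biUnion_le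
    have h3 : S.card ≤ ∑ b ∈ Ico b₀ B₁, (S.filter fun x => bb x = b).card + S0.card := by omega
    exact_mod_cast h3
  have hpart : ∀ b ∈ Ico b₀ B₁, ((S.filter fun x => bb x = b).card : ℝ) ≤
      ∑ q ∈ range (p + 1), L b q +
      ((range (p + 1)).filter fun q : ℕ => σ₀ * q ≤ Y - σ₁ * b ∧ Y - σ₁ * b < σ₀ * q + K).card +
      1 := by
    intro b _
    refine card_val_le (C := c + K₂ * b) hα0 hα hαβ hσ₀ hσK hp2 ?_
    intro x hx
    rw [mem_filter] at hx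
    obtain ⟨hx1, rfl⟩ := hx
    exact hbbx x hx1
  have hfull : (S0.card : ℝ) ≤ ∑ b ∈ range b₀, ∑ q ∈ range (p + 1), L b q + 1 := by
    have h1 : ∀ x ∈ S0, c + α ≤ x ∧ (x : ℝ) ≤ c + α + K₂ * b₀ := by
      intro x hx
      rw [hS0, mem_filter] at hx
      obtain ⟨g1, g2, _⟩ := hbbx x hx.1
      have g3 : (0 : ℝ) ≤ K₂ * bb x := by positivity
      have g4 : ((bb x : ℝ) + 1) ≤ b₀ := by exact_mod_cast hx.2
      constructor
      · linarith
      · nlinarith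
    refine (card_le_of_mem' h1).trans ?_
    have h2 : ∀ b ∈ range b₀, ∑ q ∈ range (p + 1), L b q = K₂ := by
      intro b hb
      rw [mem_range] at hb
      have h3 : ∀ q ∈ range (p + 1), L b q = Fq α (α + K₂) K (q + 1) - Fq α (α + K₂) K q := by
        intro q hq
        have hqp : (q : ℝ) ≤ p := by
          rw [mem_range] at hq
          exact_mod_cast (by omega : q ≤ p)
        have h4 := hbY b hb
        have h5 := Fq_le hK hα hαβ q
        have h6 := Fq_mono (α := α) (β := α + K₂) hK q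
        have h7 : σ₀ * q ≤ σ₀ * p := mul_le_mul_of_nonneg_left hqp hσ₀.le
        rw [hL]
        simp only
        rw [max_eq_left (by nlinarith), max_eq_left (by nlinarith)]
        ring
      rw [sum_congr rfl h3, sum_range_sub, Fq_zero hα0, Fq_top hαβ hp2]
      ring
    rw [sum_congr rfl h2, sum_const, card_range, nsmul_eq_mul]
    have h3 : 0 ≤ K₂ * b₀ := by positivity
    rw [max_eq_left (by linarith)]
    linarith
  have hBq : (∑ b ∈ Ico b₀ B₁, (((range (p + 1)).filter fun q : ℕ => σ₀ * q ≤ Y - σ₁ * b ∧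
      Y - σ₁ * b < σ₀ * q + K).card : ℝ)) ≤ (p + 1) * (K / σ₁ + 1) := by
    have h1 : (∑ b ∈ Ico b₀ B₁, (((range (p + 1)).filter fun q : ℕ => σ₀ * q ≤ Y - σ₁ * b ∧
      Y - σ₁ * b < σ₀ * q + K).card : ℝ)) = ∑ q ∈ range (p + 1),
        (((Ico b₀ B₁).filter fun b : ℕ => σ₀ * q ≤ Y - σ₁ * b ∧
      Y - σ₁ * b < σ₀ * q + K).card : ℝ) := by
      simp only [card_filter]
      push_cast
      rw [sum_comm]
    rw [h1]
    have h2 : ∀ q ∈ range (p + 1), (((Ico b₀ B₁).filter fun b : ℕ => σ₀ * q ≤ Y - σ₁ * b ∧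
      Y - σ₁ * b < σ₀ * q + K).card : ℝ) ≤ K / σ₁ + 1 := by
      intro q _
      have h3 : (Y - σ₀ * q - K) / σ₁ ≤ (Y - σ₀ * q) / σ₁ :=
        div_le_div_of_nonneg_right (by linarith) hσ₁.le
      have h4 := card_nat_le (S := (Ico b₀ B₁).filter fun b : ℕ => σ₀ * q ≤ Y - σ₁ * b ∧
        Y - σ₁ * b < σ₀ * q + K) h3 (by
          intro b hb
          obtain ⟨h5, h6, h7⟩ := mem_filter.1 hb
          rw [div_le_iff₀ hσ₁, le_div_iff₀ hσ₁]
          constructor <;> linarith)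
      refine h4.trans (le_of_eq ?_)
      rw [← sub_div]
      congr 2
      ring
    refine (sum_le_sum h2).trans (le_of_eq ?_)
    rw [sum_const, card_range, nsmul_eq_mul]
    push_cast
    ring
  have hone : (∑ b ∈ Ico b₀ B₁, (1 : ℝ)) ≤ (σ₀ * p + K) / σ₁ + 1 := by
    rw [sum_const, Nat.card_Ico, nsmul_eq_mul, mul_one, Nat.cast_sub hb₀B]
    exact hdif
  have hD := sum_len_upper hα0 hα hK₂ hσ₀ hσK hσ₁ hKK hp1 hp2 hη hYB hB₀ (by linarith)
  have hcomm : ∑ b ∈ range b₀, ∑ q ∈ range (p + 1), L b q +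
      ∑ b ∈ Ico b₀ B₁, ∑ q ∈ range (p + 1), L b q =
      ∑ q ∈ range (p + 1), ∑ b ∈ range B₁, L b q := by
    rw [sum_range_add_sum_Ico _ hb₀B, sum_comm]
  have hp4 : (σ₀ * p + K) / σ₁ ≤ (2 * K + σ₀) / σ₁ := by
    apply div_le_div_of_nonneg_right _ hσ₁.le
    linarith
  have hp5 : ((p : ℝ) + 1) * (K / σ₁ + 1 + σ₁ / 8 + B₀ ^ 2 / (2 * σ₁)) ≤
      (K₂ / K + 2) * (K / σ₁ + 1 + σ₁ / 8 + B₀ ^ 2 / (2 * σ₁)) := by
    apply mul_le_mul_of_nonneg_right (by linarith) (by positivity)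
  have hsum := sum_le_sum hpart
  rw [sum_add_distrib, sum_add_distrib] at hsum
  have hfin : ((p : ℝ) + 1) * (K / σ₁ + 1 + σ₁ / 8 + B₀ ^ 2 / (2 * σ₁)) =
      (p + 1) * (K / σ₁ + 1) + (p + 1) * (σ₁ / 8 + B₀ ^ 2 / (2 * σ₁)) := by
    ring
  linarith

end Pool.Agent.H35.SP
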