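import Mathlib
import Pool.Graph.R_seed8.TH3.IR.SAsm

set_option autoImplicit false

/-! # Flattening of arbitrary bounded sets of exponents, rank version -/

namespace Pool.Agent.H35.SP

open Finset MvPolynomial Pool.Agent.TH3.IR Pool.Agent.TH603.EL Pool.Agent.TH176.Nag

theorem sum_ite_mul {σ : Type} [Fintype σ] [DecidableEq σ] (j : σ) (v : ℤ) (h : σ → ℤ) :
    ∑ i, (if i = j then v else 0) * h i = v * h j := by
  simp only [ite_mul, zero_mul, sum_ite_eq', mem_univ, if_true]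

theorem bounds_D1 {σ : Type} {D : Set (ℤ × (σ → ℤ))} (j : σ) (v : ℤ) {B : ℕ}
    (hB : ∀ m ∈ D, |m.1| ≤ B ∧ 0 ≤ m.2 j ∧ m.2 j ≤ B) (m : ℤ × (σ → ℤ))
    (hm : (m.1 - v * m.2 j - ((B : ℤ) + |v| * B), m.2) ∈ D) :
    0 ≤ m.1 ∧ 0 ≤ m.2 j ∧ m.1 + m.2 j ≤ ((2 * (B + v.natAbs * B) + B : ℕ) : ℤ) := by
  obtain ⟨h1, h2, h3⟩ := hB _ hm
  simp only at h1 h2 h3
  have h4 := abs_le.1 h1
  have h5 : |v * m.2 j| ≤ |v| * B := by
    rw [abs_mul, abs_of_nonneg h2]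
    exact mul_le_mul_of_nonneg_left h3 (abs_nonneg v)
  have h6 := abs_le.1 h5
  have e : ((v.natAbs : ℕ) : ℤ) = |v| := Int.natCast_natAbs v
  refine ⟨by linarith, h2, ?_⟩
  push_cast
  rw [← Int.abs_eq_natAbs] at *
  linarith

theorem SurS_flatG {ι σ : Type} [Fintype ι] [Fintype σ] [DecidableEq σ] {w : ι → ℕ}
    {D D' : Set (ℤ × (σ → ℤ))} (j : σ) (v : ℤ) {B : ℕ}
    (hB : ∀ m ∈ D, |m.1| ≤ B ∧ 0 ≤ m.2 j ∧ m.2 j ≤ B)
    (hD' : ∀ m ∈ D', 0 ≤ m.2 j ∧ ∃ b : ℤ, ∀ t : ℤ, b ≤ t → t ≤ b + m.2 j →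
      (m.1 - v * t, Function.update m.2 j t) ∈ D)
    (h : SurS w D') : SurS w D := by
  set u : ℤ := (B : ℤ) + |v| * B with hu
  set d : ℕ := 2 * (B + v.natAbs * B) + B with hd
  set D1 : Set (ℤ × (σ → ℤ)) := {m | (m.1 - v * m.2 j - u, m.2) ∈ D} with hD1
  set D2 : Set (ℤ × (σ → ℤ)) := {m | (m.1 - u, m.2) ∈ D'} with hD2
  have hb : ∀ m ∈ D1, 0 ≤ m.1 ∧ 0 ≤ m.2 j ∧ m.1 + m.2 j ≤ d := fun m hm =>
    bounds_D1 j v hB m hm
  have hS : SurS w D1 → SurS w D := by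
    intro hE
    refine hE.comap 1 (Or.inl rfl) (fun i => if i = j then v else 0) u ?_
    intro m hm
    rw [sum_ite_mul, one_mul]
    exact hm
  have hS' : SurS w D2 := by
    refine h.comap 1 (Or.inl rfl) (fun _ => 0) (-u) ?_
    intro m hm
    have e : 1 * (m.1 - ∑ i, (fun _ : σ => (0 : ℤ)) i * m.2 i - -u) = m.1 + u := by
      simp only [zero_mul, sum_const_zero]
      ring
    rw [e]
    change (m.1 + u - u, m.2) ∈ D'
    rw [add_sub_cancel_right]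
    exact hm
  apply hS
  refine SurS_step j hb ?_ hS'
  intro F _ _
  refine ⟨aff (tz F 0 1 0) (1 + tz F 1 0 1), fun x y hx hy l => evp_flat' hx hy l, ?_⟩
  intro c x k hk
  obtain ⟨h0, b, hbt⟩ := hD' _ hk
  simp only [Function.update_self, Function.update_idem] at h0 hbt
  obtain ⟨k, rfl⟩ := Int.eq_ofNat_of_zero_le h0
  have hcol : ∀ t : ℤ, b ≤ t → t ≤ b + k → (x, Function.update c j t) ∈ D1 := by
    intro t ht1 ht2
    have h1 := hbt t ht1 ht2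
    change (x - v * (Function.update c j t) j - u, Function.update c j t) ∈ D
    rw [Function.update_self]
    have e : x - v * t - u = x - u - v * t := by ring
    rw [e]
    exact h1
  have hx0 := hb _ (hcol b le_rfl (by omega))
  have hx1 := hb _ (hcol (b + k) (by omega) le_rfl)
  simp only [Function.update_self] at hx0 hx1
  obtain ⟨f, hf1, hf2⟩ := flat_lift (F := F) (d := d) (i := x) (b := b) (k := k) hx1.1 hx0.2.1
    (by omega)
  refine ⟨f, ?_, hf2⟩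
  intro m hm
  obtain ⟨g1, g2, g3⟩ := hf1 m hm
  rw [g1]
  exact hcol m.2 g2 g3

end Pool.Agent.H35.SP
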