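import Mathlib
import Pool.Agent.H35.SP.FlatG

set_option autoImplicit false

/-! # Flattening of a simplex with a small loss, rank version -/

namespace Pool.Agent.H35.SP

open Finset Pool.Agent.TH3.IR

/-- simplices are bounded -/
theorem RegS_bounded {σ : Type} [Fintype σ] {L R : ℝ} {μ ν : σ → ℝ}
    (hμ : ∀ i, 0 ≤ μ i) (hν : ∀ i, 0 ≤ ν i) (hpos : ∀ i, 0 < μ i + ν i) :
    ∃ B : ℕ, ∀ m ∈ RegS L R μ ν, |m.1| ≤ B ∧ ∀ j, 0 ≤ m.2 j ∧ m.2 j ≤ B := by
  classical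
  obtain ⟨B, hB⟩ := exists_nat_ge (|L| + |R| + ∑ j, |(R - L) / (μ j + ν j)|)
  refine ⟨B, fun m hm => ?_⟩
  obtain ⟨h0, h1, h2⟩ := hm
  have h0R : ∀ i, (0 : ℝ) ≤ (m.2 i : ℝ) := fun i => by exact_mod_cast h0 i
  have hM : 0 ≤ ∑ i, μ i * (m.2 i : ℝ) := sum_nonneg fun i _ => mul_nonneg (hμ i) (h0R i)
  have hN : 0 ≤ ∑ i, ν i * (m.2 i : ℝ) := sum_nonneg fun i _ => mul_nonneg (hν i) (h0R i)
  have hS : 0 ≤ ∑ j, |(R - L) / (μ j + ν j)| := sum_nonneg fun j _ => abs_nonneg _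
  constructor
  · have h3 : |(m.1 : ℝ)| ≤ B := by
      rw [abs_le]
      have h4 := neg_abs_le L
      have h5 := le_abs_self R
      have h6 := abs_nonneg L
      have h7 := abs_nonneg R
      constructor <;> linarith
    have h4 : ((|m.1| : ℤ) : ℝ) ≤ ((B : ℤ) : ℝ) := by
      push_cast
      exact h3
    exact_mod_cast h4
  · intro j
    refine ⟨h0 j, ?_⟩
    have h3 : (m.2 j : ℝ) ≤ (R - L) / (μ j + ν j) := by
      rw [le_div_iff₀ (hpos j)]
      have h4 : (μ j + ν j) * (m.2 j : ℝ) ≤ ∑ i, (μ i + ν i) * (m.2 i : ℝ) :=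
        single_le_sum (f := fun i => (μ i + ν i) * (m.2 i : ℝ))
          (fun i _ => mul_nonneg (hpos i).le (h0R i)) (mem_univ j)
      simp only [add_mul, sum_add_distrib] at h4
      linarith
    have h5 : |(R - L) / (μ j + ν j)| ≤ ∑ j, |(R - L) / (μ j + ν j)| :=
      single_le_sum (f := fun j => |(R - L) / (μ j + ν j)|) (fun j _ => abs_nonneg _) (mem_univ j)
    have h6 := le_abs_self ((R - L) / (μ j + ν j))
    have h7 := abs_nonneg L
    have h8 := abs_nonneg R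
    have h9 : (m.2 j : ℝ) ≤ ((B : ℤ) : ℝ) := by
      push_cast
      linarith
    exact_mod_cast h9

/-- the column contains `k + 1` consecutive integers -/
theorem exists_b2 {σ K R L M N y : ℝ} {k : ℤ} (hσ : 0 < σ) (hK : 0 < K) (he : 0 ≤ K - σ)
    (h1 : L + (K * k + M) ≤ y)
    (h2 : y ≤ (R * K - L * (K - σ) - K * (K - σ)) / σ -
      (K * (K - σ) / σ * k + (N * K + M * (K - σ)) / σ)) :
    ∃ b : ℤ, 0 ≤ b ∧ K * (b + k) ≤ y - L - M ∧ y - R + N ≤ (K - σ) * b := by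
  have h2' : y * σ ≤ R * K - L * (K - σ) - K * (K - σ) -
      (K * (K - σ) * k + (N * K + M * (K - σ))) := by
    rw [div_mul_eq_mul_div, ← add_div, ← sub_div, le_div_iff₀ hσ] at h2
    exact h2
  have h3 : (k : ℝ) ≤ (y - L - M) / K := by
    rw [le_div_iff₀ hK]
    linarith
  have h4 : k ≤ ⌊(y - L - M) / K⌋ := Int.le_floor.2 h3
  have h5 := Int.floor_le ((y - L - M) / K)
  have h6 := Int.lt_floor_add_one ((y - L - M) / K)
  rw [le_div_iff₀ hK] at h5
  rw [div_lt_iff₀ hK] at h6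
  refine ⟨⌊(y - L - M) / K⌋ - k, by omega, ?_, ?_⟩
  · push_cast
    linarith
  · push_cast
    have h7 : (K - σ) * (y - L - M) ≤ (K - σ) * ((⌊(y - L - M) / K⌋ + 1) * K) :=
      mul_le_mul_of_nonneg_left h6.le he
    have h8 : K * (y - R + N) ≤ K * ((K - σ) * (⌊(y - L - M) / K⌋ - k)) := by
      nlinarith
    exact le_of_mul_le_mul_left h8 hK

theorem sum_upd1 {σ : Type} [Fintype σ] [DecidableEq σ] (μ : σ → ℝ) (c : σ → ℤ) (j : σ) (b : ℤ) :
    ∑ i, μ i * ((Function.update c j b i : ℤ) : ℝ) =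
      μ j * b + ∑ i ∈ univ.erase j, μ i * (c i : ℝ) := by
  rw [← add_sum_erase univ _ (mem_univ j)]
  congr 1
  · rw [Function.update_self]
  · apply sum_congr rfl
    intro i hi
    rw [Function.update_of_ne (ne_of_mem_erase hi)]

theorem sum_upd2 {σ : Type} [Fintype σ] [DecidableEq σ] (μ : σ → ℝ) (a : ℝ) (c : σ → ℤ) (j : σ) :
    ∑ i, Function.update μ j a i * (c i : ℝ) =
      a * c j + ∑ i ∈ univ.erase j, μ i * (c i : ℝ) := by
  rw [← add_sum_erase univ _ (mem_univ j)]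
  congr 1
  · rw [Function.update_self]
  · apply sum_congr rfl
    intro i hi
    rw [Function.update_of_ne (ne_of_mem_erase hi)]

theorem SurS_flat2 {ι σ : Type} [Fintype ι] [Fintype σ] [DecidableEq σ] {w : ι → ℕ} {L R : ℝ}
    {μ ν : σ → ℝ} (hμ : ∀ i, 0 ≤ μ i) (hν : ∀ i, 0 ≤ ν i) (hpos : ∀ i, 0 < μ i + ν i) (j : σ)
    (v : ℤ) (hv : ν j ≤ v) (hv0 : 0 < μ j + v)
    (h : SurS w (RegS L
      ((R * (μ j + v) - L * (v - ν j) - (μ j + v) * (v - ν j)) / (μ j + ν j))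
      (Function.update μ j (μ j + v))
      (Function.update (fun i => (ν i * (μ j + v) + μ i * (v - ν j)) / (μ j + ν j)) j
        ((μ j + v) * (v - ν j) / (μ j + ν j))))) :
    SurS w (RegS L R μ ν) := by
  obtain ⟨B, hB⟩ := RegS_bounded (L := L) (R := R) hμ hν hpos
  refine SurS_flatG j v (B := B) (fun m hm => ⟨(hB m hm).1, (hB m hm).2 j⟩) ?_ h
  rintro ⟨x, c⟩ ⟨h0, h1, h2⟩
  simp only at h0 h1 h2 ⊢
  refine ⟨h0 j, ?_⟩
  rw [sum_upd2] at h1 h2
  have h6 : ∑ i ∈ univ.erase j, (ν i * (μ j + v) + μ i * (v - ν j)) / (μ j + ν j) * (c i : ℝ) =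
      ((∑ i ∈ univ.erase j, ν i * (c i : ℝ)) * (μ j + v) +
        (∑ i ∈ univ.erase j, μ i * (c i : ℝ)) * (v - ν j)) / (μ j + ν j) := by
    rw [sum_mul, sum_mul, ← sum_add_distrib, sum_div]
    apply sum_congr rfl
    intro i _
    ring
  rw [h6] at h2
  have e : (μ j + v) - (μ j + ν j) = v - ν j := by ring
  obtain ⟨b, hb0, hb1, hb2⟩ := exists_b2 (σ := μ j + ν j) (K := μ j + v) (R := R) (L := L)
    (M := ∑ i ∈ univ.erase j, μ i * (c i : ℝ)) (N := ∑ i ∈ univ.erase j, ν i * (c i : ℝ))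
    (y := x) (k := c j) (hpos j) hv0 (by rw [e]; exact sub_nonneg.2 hv) h1
    (by rw [e]; exact h2)
  rw [e] at hb2
  refine ⟨b, fun t ht1 ht2 => ?_⟩
  have ht1r : (b : ℝ) ≤ t := by exact_mod_cast ht1
  have ht2r : (t : ℝ) ≤ b + c j := by exact_mod_cast ht2
  refine ⟨?_, ?_, ?_⟩
  · intro i
    by_cases hi : i = j
    · subst hi
      simp only [Function.update_self]
      omega
    · simp only
      rw [Function.update_of_ne hi]
      exact h0 i
  · simp only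
    rw [sum_upd1]
    push_cast
    have h5 : (μ j + v) * (t : ℝ) ≤ (μ j + v) * (b + c j) :=
      mul_le_mul_of_nonneg_left ht2r hv0.le
    nlinarith
  · simp only
    rw [sum_upd1]
    push_cast
    have h5 : (v - ν j) * (b : ℝ) ≤ (v - ν j) * t :=
      mul_le_mul_of_nonneg_left ht1r (sub_nonneg.2 hv)
    nlinarith

end Pool.Agent.H35.SP
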