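import Mathlib
import Pool.Graph.R_seed8.TH176.FB.J12
import Pool.Graph.R_seed8.TH3.IR.SAsm

set_option autoImplicit false

/-! # Rows criterion for arbitrary sets of exponents -/

namespace Pool.Agent.H35.SP

open Finset Pool.Agent.TH3.IR

/-- a Laurent polynomial in one variable with at most as many terms as there are conditions -/
theorem one_var_card {ι : Type} [Fintype ι] (x : ι → ℚ) (hx : Function.Injective x)
    (hx0 : ∀ i, 0 < x i) (w : ι → ℕ) (h : ℤ →₀ ℚ) (hB : h.support.card ≤ ∑ i, w i)
    (hz : ∀ i, ∀ c < w i, (h.sum fun a v => v * ((a : ℚ) ^ c * x i ^ a)) = 0) : h = 0 := by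
  classical
  by_contra hne
  have hsn : h.support.Nonempty := Finsupp.support_nonempty_iff.2 hne
  set a0 := h.support.min' hsn with ha0
  have ha0m : a0 ∈ h.support := Finset.min'_mem _ _
  have hle : ∀ a ∈ h.support, a0 ≤ a := fun a ha => Finset.min'_le _ _ ha
  -- all polynomial weights
  have hP : ∀ i, ∀ P : Polynomial ℚ, P.natDegree < w i →
      (h.sum fun a v => v * (P.eval (a : ℚ) * x i ^ a)) = 0 := by
    intro i P hP
    have h1 : (h.sum fun a v => v * (P.eval (a : ℚ) * x i ^ a)) =
        ∑ c ∈ range (P.natDegree + 1), P.coeff c * (h.sum fun a v => v * ((a : ℚ) ^ c * x i ^ a)) := by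
      unfold Finsupp.sum
      simp_rw [Finset.mul_sum]
      rw [Finset.sum_comm]
      refine Finset.sum_congr rfl fun a _ => ?_
      rw [Polynomial.eval_eq_sum_range, Finset.sum_mul, Finset.mul_sum]
      refine Finset.sum_congr rfl fun c _ => ?_
      ring
    rw [h1]
    refine Finset.sum_eq_zero fun c hc => ?_
    rw [hz i c (by have := Finset.mem_range.1 hc; omega), mul_zero]
  -- the polynomial
  set p : Polynomial ℚ := ∑ a ∈ h.support, Polynomial.monomial (a - a0).toNat (h a) with hp
  have hcoeff : ∀ a ∈ h.support, p.coeff (a - a0).toNat = h a := by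
    intro a ha
    rw [hp, Polynomial.finsetSum_coeff, Finset.sum_eq_single a]
    · simp
    · intro b hb hba
      rw [Polynomial.coeff_monomial, if_neg]
      intro h2
      apply hba
      have := hle a ha
      have := hle b hb
      omega
    · intro h2
      exact absurd ha h2
  have hp0 : p ≠ 0 := by
    intro h2
    have h3 := hcoeff a0 ha0m
    rw [h2, Polynomial.coeff_zero] at h3
    exact (Finsupp.mem_support_iff.1 ha0m) h3.symm
  have hterms : p.support.card ≤ h.support.card := by
    have h1 : p.support ⊆ h.support.image fun a => (a - a0).toNat := by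
      intro n hn
      rw [Polynomial.mem_support_iff, hp, Polynomial.finsetSum_coeff] at hn
      obtain ⟨a, ha, h2⟩ := Finset.exists_ne_zero_of_sum_ne_zero hn
      rw [Polynomial.coeff_monomial] at h2
      have h3 : (a - a0).toNat = n := by
        by_contra h4
        rw [if_neg h4] at h2
        exact h2 rfl
      exact Finset.mem_image.2 ⟨a, ha, h3⟩
    exact (Finset.card_le_card h1).trans Finset.card_image_le
  -- multiplicities
  have hroot : ∀ i, ∀ c < w i, ((Polynomial.derivative^[c]) p).eval (x i) = 0 := by
    intro i c hc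
    have hxi : x i ≠ 0 := (hx0 i).ne'
    have hdp : ((descPochhammer ℚ c).comp (Polynomial.X - Polynomial.C (a0 : ℚ))).natDegree < w i := by
      refine lt_of_le_of_lt (Polynomial.natDegree_comp_le) ?_
      rw [descPochhammer_natDegree, Polynomial.natDegree_X_sub_C, mul_one]
      exact hc
    have h1 := hP i _ hdp
    have h2 : ((Polynomial.derivative^[c]) p).eval (x i) =
        (x i ^ (a0 + c))⁻¹ * (h.sum fun a v => v *
          (((descPochhammer ℚ c).comp (Polynomial.X - Polynomial.C (a0 : ℚ))).eval (a : ℚ) *
            x i ^ a)) := by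
      rw [hp, Polynomial.iterate_derivative_sum, Polynomial.eval_finsetSum, Finsupp.sum,
        Finset.mul_sum]
      refine Finset.sum_congr rfl fun a ha => ?_
      have h3 := hle a ha
      rw [← Polynomial.C_mul_X_pow_eq_monomial, Polynomial.iterate_derivative_C_mul,
        Polynomial.iterate_derivative_X_pow_eq_natCast_mul, Polynomial.eval_mul,
        Polynomial.eval_mul, Polynomial.eval_C, Polynomial.eval_pow, Polynomial.eval_X,
        Polynomial.eval_natCast, Polynomial.eval_comp, Polynomial.eval_sub, Polynomial.eval_X,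
        Polynomial.eval_C]
      have h4 : ((a : ℚ) - (a0 : ℚ)) = (((a - a0).toNat : ℕ) : ℚ) := by
        have : (((a - a0).toNat : ℤ)) = a - a0 := Int.toNat_of_nonneg (by omega)
        have h6 : ((((a - a0).toNat : ℤ)) : ℚ) = ((a - a0 : ℤ) : ℚ) := by rw [this]
        push_cast at h6
        exact_mod_cast h6.symm
      rw [h4, descPochhammer_eval_eq_descFactorial]
      rcases lt_or_ge (a - a0).toNat c with h5 | h5
      · rw [Nat.descFactorial_of_lt h5]
        simp
      · have h6 : x i ^ ((a - a0).toNat - c) = (x i ^ (a0 + c))⁻¹ * x i ^ a := by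
          rw [← zpow_neg, ← zpow_add₀ hxi, ← zpow_natCast]
          congr 1
          omega
        rw [h6]
        ring
    rw [h2, h1, mul_zero]
  have hmult : ∀ i, w i ≤ p.rootMultiplicity (x i) := by
    intro i
    rcases Nat.eq_zero_or_pos (w i) with h0 | h0
    · omega
    · have h1 : w i - 1 < p.rootMultiplicity (x i) := by
        rw [Polynomial.lt_rootMultiplicity_iff_isRoot_iterate_derivative hp0]
        intro m hm
        exact hroot i m (by omega)
      omega
  -- Descartes
  have hinj : Function.Injective (algebraMap ℚ ℝ) := (algebraMap ℚ ℝ).injective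
  set P : Polynomial ℝ := p.map (algebraMap ℚ ℝ) with hPdef
  have hP0 : P ≠ 0 := (Polynomial.map_ne_zero_iff hinj).2 hp0
  have hPs : P.support.card ≤ p.support.card :=
    Finset.card_le_card (Polynomial.support_map_subset _ _)
  have hPm : ∀ i, w i ≤ P.rootMultiplicity ((x i : ℚ) : ℝ) := by
    intro i
    refine (hmult i).trans ?_
    rw [Polynomial.le_rootMultiplicity_iff hP0]
    have h1 : (Polynomial.X - Polynomial.C (x i)) ^ p.rootMultiplicity (x i) ∣ p :=
      Polynomial.pow_rootMultiplicity_dvd p (x i)
    have h2 := Polynomial.map_dvd (algebraMap ℚ ℝ) h1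
    rw [Polynomial.map_pow, Polynomial.map_sub, Polynomial.map_X, Polynomial.map_C] at h2
    exact h2
  have hcnt : ∑ i, w i ≤ P.roots.countP (0 < ·) := by
    rw [Multiset.countP_eq_card_filter, ← Multiset.toFinset_sum_count_eq]
    set F := P.roots.filter (0 < ·) with hF
    have hxinj : Function.Injective fun i => ((x i : ℚ) : ℝ) := fun i j hij => by
      have hij' : ((x i : ℚ) : ℝ) = ((x j : ℚ) : ℝ) := hij
      exact hx (by exact_mod_cast hij')
    calc ∑ i, w i ≤ ∑ i, F.count ((x i : ℚ) : ℝ) := by
          refine Finset.sum_le_sum fun i _ => ?_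
          rw [hF, Multiset.count_filter_of_pos (by exact_mod_cast hx0 i), Polynomial.count_roots]
          exact hPm i
      _ = ∑ z ∈ univ.image (fun i => ((x i : ℚ) : ℝ)), F.count z := by
          rw [Finset.sum_image fun i _ j _ hij => hxinj hij]
      _ = ∑ z ∈ (univ.image (fun i => ((x i : ℚ) : ℝ))).filter (fun z => F.count z ≠ 0),
            F.count z := (Finset.sum_filter_ne_zero _).symm
      _ ≤ ∑ z ∈ F.toFinset, F.count z := by
          refine Finset.sum_le_sum_of_subset fun z hz => ?_
          rw [Finset.mem_filter] at hz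
          rw [Multiset.mem_toFinset]
          exact Multiset.count_ne_zero.1 hz.2
  have h1 := Polynomial.roots_countP_pos_le_signVariations P
  have h2 := Pool.Agent.TH176.FB.J12.signVariations_lt _ P rfl hP0
  omega

end Pool.Agent.H35.SP
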