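import Mathlib
import Pool.Agent.H35.SP.OneVar

set_option autoImplicit false

/-! # Rows criterion for arbitrary sets of exponents -/

namespace Pool.Agent.H35.SP

open Finset Pool.Agent.TH3.IR

/-- no Laurent polynomial, if every row has at most as many elements as there are conditions left -/
theorem EmpS_rows {ι σ : Type} [Fintype ι] [Fintype σ] {w : ι → ℕ} {S : Set (ℤ × (σ → ℤ))}
    (hpos : ∀ m ∈ S, ∀ i, 0 ≤ m.2 i)
    (hcard : ∀ (κ : σ → ℕ) (B : Finset ℤ), (∀ c ∈ B, ((c, fun i => (κ i : ℤ)) : ℤ × (σ → ℤ)) ∈ S) →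
      B.card ≤ ∑ i, (w i - ∑ j, κ j)) : EmpS w S := by
  classical
  set e := Fintype.equivFin ι
  have hinj : Function.Injective fun i : ι => (((e i : ℕ) + 1 : ℕ) : ℚ) := by
    intro i j hij
    simp only [Nat.cast_inj] at hij
    exact e.injective (Fin.ext (by omega))
  have hp : ∀ i : ι, (0 : ℚ) < (((e i : ℕ) + 1 : ℕ) : ℚ) := fun i => Nat.cast_pos.2 (Nat.succ_pos _)
  have h0 : ∀ i : ι, (((e i : ℕ) + 1 : ℕ) : ℚ) ≠ 0 := fun i => (hp i).ne'
  refine ⟨ℚ, inferInstance, inferInstance, fun i => (((e i : ℕ) + 1 : ℕ) : ℚ), fun _ _ => 1,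
    h0, fun _ _ => one_ne_zero, fun f hS hL => ?_⟩
  by_contra hne
  obtain ⟨m0, hm0, hmax⟩ := Finset.exists_max_image f.support (fun m => ∑ i, m.2 i)
    (Finsupp.support_nonempty_iff.2 hne)
  obtain ⟨κ, hκd⟩ : ∃ κ : σ → ℕ, κ = fun i => (m0.2 i).toNat := ⟨_, rfl⟩
  have hκ : ∀ i, (κ i : ℤ) = m0.2 i := fun i => by
    rw [hκd]
    exact Int.toNat_of_nonneg (hpos _ (hS hm0) i)
  -- the polynomial `qf κ` detects the slice
  have hq0 : ∀ m ∈ f.support, m.2 ≠ m0.2 →
      MvPolynomial.eval (fun i => (m.2 i : ℚ)) (qf κ) = 0 := by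
    intro m hm hmne
    by_contra hev
    rw [qf_eval] at hev
    have hev := Finset.prod_ne_zero_iff.1 hev
    have h1 : ∀ i, m0.2 i ≤ m.2 i := by
      intro i
      by_contra hlt
      push Not at hlt
      have h2 := hev i (Finset.mem_univ i)
      rw [Finset.prod_ne_zero_iff] at h2
      have h3 : 0 ≤ m.2 i := hpos _ (hS hm) i
      have h4 : (m.2 i).toNat ∈ range (κ i) := by
        rw [Finset.mem_range]
        have := hκ i
        omega
      apply h2 _ h4
      have h5 : (((m.2 i).toNat : ℕ) : ℤ) = m.2 i := Int.toNat_of_nonneg h3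
      have h6 : (((m.2 i).toNat : ℕ) : ℚ) = ((m.2 i : ℤ) : ℚ) := by
        rw [← Int.cast_natCast, h5]
      rw [h6, sub_self]
    have h2 : ∑ i, m0.2 i = ∑ i, m.2 i :=
      le_antisymm (Finset.sum_le_sum fun i _ => h1 i) (hmax m hm)
    have h3 := (Finset.sum_eq_sum_iff_of_le fun i _ => h1 i).1 h2
    exact hmne (funext fun i => (h3 i (Finset.mem_univ i)).symm)
  have hE : MvPolynomial.eval (fun i => (m0.2 i : ℚ)) (qf κ) ≠ 0 := by
    rw [qf_eval, Finset.prod_ne_zero_iff]
    intro i _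
    rw [Finset.prod_ne_zero_iff]
    intro s hs
    have h1 : s < κ i := Finset.mem_range.1 hs
    have h2 : ((m0.2 i : ℤ) : ℚ) = (κ i : ℚ) := by
      rw [← hκ i, Int.cast_natCast]
    rw [h2]
    have h3 : (s : ℚ) < κ i := by exact_mod_cast h1
    exact (sub_pos.2 h3).ne'
  -- the slice
  have hinj2 : Function.Injective fun a : ℤ => (a, m0.2) := fun a b hab => (Prod.ext_iff.1 hab).1
  obtain ⟨g, hg⟩ : ∃ g : ℤ →₀ ℚ, ∀ a, g a = f (a, m0.2) :=
    ⟨f.comapDomain (fun a => (a, m0.2)) hinj2.injOn, fun a => rfl⟩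
  have hgs : g.support.map ⟨fun a : ℤ => (a, m0.2), hinj2⟩ ⊆ f.support := by
    intro m hm
    obtain ⟨a, ha, rfl⟩ := Finset.mem_map.1 hm
    rw [Finsupp.mem_support_iff] at ha ⊢
    rw [hg a] at ha
    exact ha
  have hmom : ∀ i, ∀ c < w i - ∑ j, κ j,
      (g.sum fun a v => v * ((a : ℚ) ^ c * ((((e i : ℕ) + 1 : ℕ) : ℚ)) ^ a)) = 0 := by
    intro i c hc
    have h1 := mo_poly f ((((e i : ℕ) + 1 : ℕ) : ℚ)) c (w i) (hL i) (qf κ)
      (by have := qf_deg κ; omega)
    rw [← Finset.sum_subset hgs] at h1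
    · rw [Finset.sum_map] at h1
      have h2 : ∑ a ∈ g.support, f (a, m0.2) * ((a : ℚ) ^ c *
          MvPolynomial.eval (fun i => (m0.2 i : ℚ)) (qf κ)) * ((((e i : ℕ) + 1 : ℕ) : ℚ)) ^ a =
          MvPolynomial.eval (fun i => (m0.2 i : ℚ)) (qf κ) *
          (g.sum fun a v => v * ((a : ℚ) ^ c * ((((e i : ℕ) + 1 : ℕ) : ℚ)) ^ a)) := by
        unfold Finsupp.sum
        rw [Finset.mul_sum]
        refine Finset.sum_congr rfl fun a _ => ?_
        rw [hg a]
        ring
      have h3 := h2.symm.trans h1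
      exact (mul_eq_zero.1 h3).resolve_left hE
    · intro m hm hm2
      have h2 : m.2 ≠ m0.2 := by
        intro h3
        apply hm2
        rw [Finset.mem_map]
        refine ⟨m.1, ?_, ?_⟩
        · rw [Finsupp.mem_support_iff, hg, ← h3]
          exact Finsupp.mem_support_iff.1 hm
        · exact Prod.ext rfl h3.symm
      rw [hq0 m hm h2, mul_zero, mul_zero, zero_mul]
  have hgz : g = 0 := by
    refine one_var_card _ hinj hp (fun i => w i - ∑ j, κ j) g ?_ hmom
    refine hcard κ g.support fun c hc => ?_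
    have h1 : ((c, m0.2) : ℤ × (σ → ℤ)) ∈ f.support := by
      rw [Finsupp.mem_support_iff, ← hg]
      exact Finsupp.mem_support_iff.1 hc
    have h2 : (fun i => (κ i : ℤ)) = m0.2 := funext hκ
    rw [h2]
    exact hS h1
  have h1 : g m0.1 = f m0 := hg m0.1
  rw [hgz] at h1
  exact (Finsupp.mem_support_iff.1 hm0) h1.symm

open SFinal in
/-- independence, if every row has at least as many elements as there are conditions left -/
theorem SurS_rows {ι σ : Type} [Fintype ι] [Fintype σ] {m : ℕ} {S : Set (ℤ × (σ → ℤ))}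
    (hcard : ∀ κ : σ → ℕ, ∑ j, κ j < m → ∃ B : Finset ℤ,
      (∀ c ∈ B, ((c, fun i => (κ i : ℤ)) : ℤ × (σ → ℤ)) ∈ S) ∧
      Fintype.card ι * (m - ∑ j, κ j) ≤ B.card) : SurS (fun _ : ι => m) S := by
  classical
  have hB : ∀ κ : σ → ℕ, ∃ B : Finset ℤ, (∑ j, κ j < m →
      (∀ c ∈ B, ((c, fun i => (κ i : ℤ)) : ℤ × (σ → ℤ)) ∈ S) ∧
      B.card = Fintype.card ι * (m - ∑ j, κ j)) := by
    intro κ
    by_cases hκ : ∑ j, κ j < m
    · obtain ⟨B, h1, h2⟩ := hcard κ hκ
      obtain ⟨B', h3, h4⟩ := Finset.exists_subset_card_eq h2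
      exact ⟨B', fun _ => ⟨fun c hc => h1 c (h3 hc), h4⟩⟩
    · exact ⟨∅, fun h => absurd h hκ⟩
  choose B hB using hB
  set T : Finset (ℤ × (σ → ℤ)) := ((HH σ m).sigma fun h => B h).image
    fun p => (p.2, fun i => (p.1 i : ℤ)) with hT
  have hinj : Function.Injective fun p : (Σ _ : σ → ℕ, ℤ) =>
      ((p.2, fun i => (p.1 i : ℤ)) : ℤ × (σ → ℤ)) := by
    rintro ⟨h, a⟩ ⟨h', a'⟩ hh
    have h1 : a = a' := congrArg Prod.fst hh
    have h2 : h = h' := by
      funext i
      have h3 : (fun i => (h i : ℤ)) = fun i => (h' i : ℤ) := congrArg Prod.snd hh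
      exact_mod_cast congrFun h3 i
    subst h1 h2
    rfl
  refine ⟨T, ?_, ?_, ?_⟩
  · intro t ht
    rw [Finset.mem_coe, hT, Finset.mem_image] at ht
    obtain ⟨⟨h, a⟩, h1, rfl⟩ := ht
    rw [Finset.mem_sigma, mem_HH] at h1
    exact (hB h h1.1).1 a h1.2
  · rw [hT, Finset.card_image_of_injective _ hinj, Finset.card_sigma]
    unfold nc
    rw [Finset.sum_const, Finset.card_univ, smul_eq_mul, ← sum_HH, Finset.mul_sum]
    refine Finset.sum_congr rfl fun h hh => ?_
    rw [(hB h (mem_HH.1 hh)).2]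
  · refine EmpS_rows ?_ ?_
    · intro t ht i
      rw [Finset.mem_coe, hT, Finset.mem_image] at ht
      obtain ⟨⟨h, a⟩, h1, rfl⟩ := ht
      exact Int.natCast_nonneg _
    · intro κ B' hB'
      by_cases hκ : ∑ j, κ j < m
      · have h1 : B' ⊆ B κ := by
          intro c hc
          have h2 := hB' c hc
          rw [Finset.mem_coe, hT, Finset.mem_image] at h2
          obtain ⟨⟨h, a⟩, h3, h4⟩ := h2
          rw [Finset.mem_sigma] at h3
          have h5 : a = c := congrArg Prod.fst h4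
          have h6 : h = κ := by
            funext i
            have h7 : (fun i => (h i : ℤ)) = fun i => (κ i : ℤ) := congrArg Prod.snd h4
            exact_mod_cast congrFun h7 i
          rw [← h5, ← h6]
          exact h3.2
        refine (Finset.card_le_card h1).trans ?_
        rw [(hB κ hκ).2, Finset.sum_const, Finset.card_univ, smul_eq_mul]
      · have h1 : B' = ∅ := by
          rw [Finset.eq_empty_iff_forall_notMem]
          intro c hc
          have h2 := hB' c hc
          rw [Finset.mem_coe, hT, Finset.mem_image] at h2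
          obtain ⟨⟨h, a⟩, h3, h4⟩ := h2
          rw [Finset.mem_sigma, mem_HH] at h3
          have h6 : h = κ := by
            funext i
            have h7 : (fun i => (h i : ℤ)) = fun i => (κ i : ℤ) := congrArg Prod.snd h4
            exact_mod_cast congrFun h7 i
          rw [h6] at h3
          exact hκ h3.1
        rw [h1]
        simp

end Pool.Agent.H35.SP
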