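import Mathlib
import Pool.Agent.H35.SP.Rows
import Pool.Agent.H35.SP.Flat2
import Pool.Agent.H35.SP.Cnt2

set_option autoImplicit false

/-! # Double flattening in two variables -/

namespace Pool.Agent.H35.SP

open Finset Pool.Agent.TH3.IR

/-- the sawtooth function -/
theorem g_step {K K₂ σ₀ σ₁ : ℝ} (hK : 0 < K) (hσ₀ : 0 < σ₀) (hσK : σ₀ ≤ K) (hσσ : σ₁ ≤ σ₀)
    (hKK : K ^ 2 = σ₀ * K₂) (z : ℝ) :
    z - (K - σ₀) * ⌊z / K⌋ + σ₁ ≤ (z + K₂) - (K - σ₀) * ⌊(z + K₂) / K⌋ := by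
  have h1 := Int.floor_le ((z + K₂) / K)
  have h2 := Int.lt_floor_add_one (z / K)
  have h3 : (⌊(z + K₂) / K⌋ : ℝ) - ⌊z / K⌋ ≤ K₂ / K + 1 := by
    rw [add_div] at h1
    rw [add_div]
    linarith
  have h4 : (K - σ₀) * ((⌊(z + K₂) / K⌋ : ℝ) - ⌊z / K⌋) ≤ (K - σ₀) * (K₂ / K + 1) :=
    mul_le_mul_of_nonneg_left h3 (sub_nonneg.2 hσK)
  have h5 : (K - σ₀) * (K₂ / K + 1) = K₂ - σ₀ := by
    have : σ₀ * (K₂ / K) = K := by
      rw [← mul_div_assoc, ← hKK]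
      field_simp
    have h6 : K * (K₂ / K) = K₂ := by field_simp
    nlinarith
  nlinarith

theorem g_steps {K K₂ σ₀ σ₁ : ℝ} (hK : 0 < K) (hσ₀ : 0 < σ₀) (hσK : σ₀ ≤ K) (hσσ : σ₁ ≤ σ₀)
    (hKK : K ^ 2 = σ₀ * K₂) (z : ℝ) (n : ℕ) :
    z - (K - σ₀) * ⌊z / K⌋ + σ₁ * n ≤ (z + K₂ * n) - (K - σ₀) * ⌊(z + K₂ * n) / K⌋ := by
  induction n with
  | zero => simp
  | succ n ih =>
    have h1 := g_step hK hσ₀ hσK hσσ hKK (z + K₂ * n)
    have e : z + K₂ * ((n + 1 : ℕ) : ℝ) = z + K₂ * n + K₂ := by push_cast; ring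
    rw [e]
    push_cast
    linarith

theorem floor_shift {K z : ℝ} (hK : 0 < K) (q : ℤ) : ⌊(z + K * q) / K⌋ = ⌊z / K⌋ + q := by
  rw [add_div, mul_div_assoc, mul_div_cancel₀ _ hK.ne']
  exact Int.floor_add_intCast _ _

theorem SurS_double {ι : Type} [Fintype ι] {m : ℕ} {L R : ℝ} {μ ν : Fin 2 → ℝ}
    (hμ : ∀ i, 0 ≤ μ i) (hν : ∀ i, 0 ≤ ν i) {v₁ v₂ : ℤ} (hv₁ : ν 0 ≤ v₁) (hv₂ : ν 1 ≤ v₂)
    {K₁ K₂ σ₀ σ₁ η : ℝ} {N : ℤ} (hK₁ : μ 0 + v₁ = K₁) (hK₂ : μ 1 + v₂ = K₂)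
    (hs₀ : μ 0 + ν 0 = σ₀) (hs₁ : μ 1 + ν 1 = σ₁) (hσ₁ : 0 < σ₁) (hσσ : σ₁ ≤ σ₀)
    (hKK : K₁ ^ 2 = σ₀ * K₂) (hη : K₂ = N * K₁ + η) (hk : K₁ * K₂ / σ₁ = Fintype.card ι)
    (hm : (Fintype.card ι : ℝ) * (m + 1) ≤ K₂ / σ₁ * (R - L + (σ₀ + σ₁) / 2) -
      (K₁ - σ₀) * |η| / (2 * σ₁) -
        ((K₂ / K₁ + 2) * (K₁ / σ₁ + 1 + σ₁ / 8) + (K₁ + σ₀) / σ₁ + 2)) :
    SurS (fun _ : ι => m) (RegS L R μ ν) := by
  classical
  have hσ₀ : 0 < σ₀ := lt_of_lt_of_le hσ₁ hσσ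
  have hσK : σ₀ ≤ K₁ := by linarith
  have hσK₂ : σ₁ ≤ K₂ := by linarith
  have hK₁0 : 0 < K₁ := lt_of_lt_of_le hσ₀ hσK
  have hK₂0 : 0 < K₂ := lt_of_lt_of_le hσ₁ hσK₂
  have hpos : ∀ i, 0 < μ i + ν i := by
    intro i
    fin_cases i
    · simp only [Fin.zero_eta]
      rw [hs₀]; exact hσ₀
    · simp only [Fin.mk_one]
      rw [hs₁]; exact hσ₁
  obtain ⟨B, hB⟩ := RegS_bounded (L := L) (R := R) hμ hν hpos
  set D : Set (ℤ × (Fin 2 → ℤ)) := RegS L R μ ν with hD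
  set D1 : Set (ℤ × (Fin 2 → ℤ)) := {m | 0 ≤ m.2 0 ∧ ∃ b : ℤ, ∀ t : ℤ, b ≤ t → t ≤ b + m.2 0 →
      (m.1 - v₁ * t, Function.update m.2 0 t) ∈ D} with hD1
  set D2 : Set (ℤ × (Fin 2 → ℤ)) := {m | 0 ≤ m.2 1 ∧ ∃ b : ℤ, ∀ t : ℤ, b ≤ t → t ≤ b + m.2 1 →
      (m.1 - v₂ * t, Function.update m.2 1 t) ∈ D1} with hD2
  refine SurS_flatG (D' := D1) 0 v₁ (B := B) (fun m hm => ⟨(hB m hm).1, (hB m hm).2 0⟩)
    (fun m hm => hm) ?_
  refine SurS_flatG (D' := D2) 1 v₂ (B := B + v₁.natAbs * B) ?_ (fun m hm => hm) ?_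
  · rintro m ⟨h0, b, hb⟩
    have h1 := hB _ (hb b le_rfl (by omega))
    simp only at h1
    obtain ⟨h2, h3⟩ := h1
    have h4 := h3 0
    have h5 := h3 1
    rw [Function.update_self] at h4
    rw [Function.update_of_ne (by decide)] at h5
    have h6 : |v₁ * b| ≤ |v₁| * B := by
      rw [abs_mul, abs_of_nonneg h4.1]
      exact mul_le_mul_of_nonneg_left h4.2 (abs_nonneg _)
    have e : ((v₁.natAbs : ℕ) : ℤ) = |v₁| := Int.natCast_natAbs v₁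
    have h7 : 0 ≤ |v₁| * (B : ℤ) := mul_nonneg (abs_nonneg _) (by positivity)
    refine ⟨?_, h5.1, ?_⟩
    · have h8 : |m.1| ≤ |m.1 - v₁ * b| + |v₁ * b| := by
        have := abs_add_le (m.1 - v₁ * b) (v₁ * b)
        rwa [sub_add_cancel] at this
      push_cast
      rw [← Int.abs_eq_natAbs] at *
      linarith
    · push_cast
      rw [← Int.abs_eq_natAbs] at *
      linarith [h5.2]
  -- rows
  apply SurS_rows
  intro κ hκ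
  rw [Fin.sum_univ_two] at hκ ⊢
  set k₁ := κ 0 with hk₁
  set k₂ := κ 1 with hk₂
  set q₀ : ℤ := ⌊K₂ * k₂ / K₁⌋ with hq₀
  have hq1 := Int.floor_le (K₂ * k₂ / K₁)
  have hq2 := Int.lt_floor_add_one (K₂ * k₂ / K₁)
  rw [← hq₀, le_div_iff₀ hK₁0] at hq1
  rw [← hq₀, div_lt_iff₀ hK₁0] at hq2
  obtain ⟨T, hT1, hT2⟩ := valid_lower (c := L + K₁ * k₁ + K₁ * q₀) (Y := R - L - K₁ * k₁ - σ₀ * q₀)
    (α := K₂ * k₂ - K₁ * q₀) (K := K₁) (by linarith) (by linarith) hK₂0 hσ₀ hσK hσ₁ hKK hη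
  refine ⟨T, ?_, ?_⟩
  · intro x hx
    obtain ⟨b, h1, h2, h3⟩ := hT1 x hx
    refine ⟨Int.natCast_nonneg _, (b : ℤ), fun t₂ ht1 ht2 => ?_⟩
    simp only at ht2 ⊢
    obtain ⟨i, rfl⟩ : ∃ i : ℕ, t₂ = b + i := ⟨(t₂ - b).toNat, by omega⟩
    have hi : i ≤ k₂ := by
      have h4 : (i : ℤ) ≤ (κ 1 : ℤ) := by omega
      have h5 : i ≤ κ 1 := by exact_mod_cast h4
      rw [hk₂]; exact h5
    have hir : (i : ℝ) ≤ k₂ := by exact_mod_cast hi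
    set z := (x : ℝ) - (L + K₁ * k₁ + K₁ * q₀ + K₂ * b) with hz
    set zi := z + K₁ * q₀ - K₂ * i with hzi
    have hzi0 : 0 ≤ zi := by
      have : K₂ * i ≤ K₂ * k₂ := mul_le_mul_of_nonneg_left hir hK₂0.le
      linarith
    have h6 := Int.floor_le (zi / K₁)
    rw [le_div_iff₀ hK₁0] at h6
    have h6' : 0 ≤ ⌊zi / K₁⌋ := Int.floor_nonneg.2 (div_nonneg hzi0 hK₁0.le)
    have h7 := g_steps hK₁0 hσ₀ hσK hσσ hKK zi i
    have e1 : zi + K₂ * i = z + K₁ * q₀ := by rw [hzi]; ring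
    rw [e1, floor_shift hK₁0] at h7
    push_cast at h7
    have h8 : zi - (K₁ - σ₀) * ⌊zi / K₁⌋ + σ₁ * i + σ₁ * b ≤ R - L - K₁ * k₁ := by linarith
    refine ⟨?_, ⌊zi / K₁⌋, fun t₁ hs1 hs2 => ?_⟩
    · simp only
      rw [Function.update_of_ne (by decide)]
      exact Int.natCast_nonneg _
    simp only at hs2 ⊢
    rw [Function.update_of_ne (by decide)] at hs2
    have hs2' : t₁ ≤ ⌊zi / K₁⌋ + (k₁ : ℤ) := hs2
    have hs1r : (⌊zi / K₁⌋ : ℝ) ≤ t₁ := by exact_mod_cast hs1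
    have hs2r : (t₁ : ℝ) ≤ ⌊zi / K₁⌋ + k₁ := by exact_mod_cast hs2'
    rw [hD]
    refine ⟨?_, ?_, ?_⟩
    · intro l
      fin_cases l
      · simp only [Fin.zero_eta, Function.update_self]
        omega
      · simp only [Fin.mk_one]
        rw [Function.update_of_ne (by decide), Function.update_self]
        omega
    · simp only [Fin.sum_univ_two]
      rw [Function.update_self, Function.update_of_ne (by decide : (1 : Fin 2) ≠ 0),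
        Function.update_self]
      push_cast
      have h9 : K₁ * t₁ ≤ K₁ * (⌊zi / K₁⌋ + k₁) := mul_le_mul_of_nonneg_left hs2r hK₁0.le
      have h10 : μ 0 * t₁ + μ 1 * (b + i) + v₂ * (b + i) + v₁ * t₁ = K₁ * t₁ + K₂ * (b + i) := by
        rw [← hK₁, ← hK₂]
        ring
      linarith
    · simp only [Fin.sum_univ_two]
      rw [Function.update_self, Function.update_of_ne (by decide : (1 : Fin 2) ≠ 0),
        Function.update_self]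
      push_cast
      have h9 : (K₁ - σ₀) * ⌊zi / K₁⌋ ≤ (K₁ - σ₀) * t₁ :=
        mul_le_mul_of_nonneg_left hs1r (sub_nonneg.2 hσK)
      have h10 : v₂ * (b + i) + v₁ * t₁ - (ν 0 * t₁ + ν 1 * (b + i)) =
          (K₁ - σ₀) * t₁ + (K₂ - σ₁) * (b + i) := by
        rw [← hK₁, ← hK₂, ← hs₀, ← hs₁]
        ring
      linarith
  · have h1 : (Fintype.card ι : ℝ) * (m - (k₁ + k₂)) ≤ T.card := by
      refine le_trans ?_ hT2
      have e1 : R - L - K₁ * k₁ - σ₀ * q₀ - σ₀ * (K₂ * k₂ - K₁ * q₀) / K₁ =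
          R - L - K₁ * (k₁ + k₂) := by
        have : σ₀ * (K₂ * k₂ - K₁ * q₀) / K₁ = K₁ * k₂ - σ₀ * q₀ := by
          rw [mul_sub, ← mul_assoc, ← hKK]
          field_simp
        rw [this]
        ring
      rw [e1]
      have e2 : K₂ / σ₁ * (R - L - K₁ * (k₁ + k₂) + (σ₀ + σ₁) / 2 - K₁) =
          K₂ / σ₁ * (R - L + (σ₀ + σ₁) / 2) - K₁ * K₂ / σ₁ * (k₁ + k₂ + 1) := by
        field_simp
        ring
      rw [e2, hk]
      linarith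
    have h2 : ((Fintype.card ι * (m - (k₁ + k₂)) : ℕ) : ℝ) ≤ (T.card : ℝ) := by
      rw [Nat.cast_mul, Nat.cast_sub hκ.le]
      push_cast
      exact h1
    exact_mod_cast h2

end Pool.Agent.H35.SP
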