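import Mathlib
import Pool.Graph.R_seed8.TH3.IR.SAsm
import Pool.Graph.R_seed8.TH3.IR.Asm
import Pool.Agent.H35.SP.FlatG

set_option autoImplicit false

/-! # Flattening of arbitrary bounded sets of exponents, counting version -/

namespace Pool.Agent.H35.SP

open Finset MvPolynomial Pool.Agent.TH3.IR Pool.Agent.TH603.EL

section
variable {F : Type} [Field F]

theorem taylor_coeff_coeff (p : Polynomial (HK F)) (l : ℕ) (b : ℝ) :
    ((Polynomial.taylor 1 p).coeff l).coeff b =
      ∑ e ∈ p.support, ((e.choose l : ℕ) : F) * (p.coeff e).coeff b := by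
  rw [Polynomial.taylor_coeff, Polynomial.hasseDeriv_apply, Polynomial.eval_sum, Polynomial.sum,
    HahnSeries.coeff_sum]
  apply sum_congr rfl
  intro e _
  rw [Polynomial.eval_monomial, one_pow, mul_one, ← nsmul_eq_mul, HahnSeries.coeff_nsmul,
    Pi.smul_apply, nsmul_eq_mul]

theorem E_leadC [CharZero F] {p : Polynomial (HK F)} (hp : p ≠ 0) :
    ∃ a : ℝ, Low (FlatL.E F p) a ∧ (FlatL.E F p).coeff a ≠ 0 ∧
      ∀ i k : ℤ, cf (FlatL.E F p) a i k ≠ 0 → 0 ≤ k ∧ k < (p.support.card : ℤ) := by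
  obtain ⟨a, h1, h2, h3⟩ := FlatL.E_lead hp
  refine ⟨a, h1, h2, fun i k hik => ⟨(h3 i k hik).1, ?_⟩⟩
  by_contra hk
  push Not at hk
  have hk0 := (h3 i k hik).1
  rw [FlatL.cf_E] at hik
  split_ifs at hik with h4
  · apply hik
    rw [taylor_coeff_coeff]
    have h5 : ∀ l < p.support.card, ∑ e ∈ p.support, ((e.choose l : ℕ) : F) *
        (p.coeff e).coeff (a - k) = 0 := by
      intro l hl
      rw [← taylor_coeff_coeff]
      have h6 : cf (FlatL.E F p) (a - k + l) 0 (l : ℤ) = 0 := by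
        have hlt : a - k + l < a := by
          have : (l : ℝ) < k := by
            have : (l : ℤ) < k := lt_of_lt_of_le (by exact_mod_cast hl) hk
            exact_mod_cast this
          linarith
        have := h1 _ hlt
        unfold cf
        rw [this]
        rfl
      rw [FlatL.cf_E, if_pos ⟨rfl, Int.natCast_nonneg l⟩, Int.toNat_natCast] at h6
      have e : a - k + l - ((l : ℤ) : ℝ) = a - k := by push_cast; ring
      rw [e] at h6
      exact h6
    have h7 := Pool.Agent.TH176.Nag.vand h5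
    apply sum_eq_zero
    intro e he
    rw [h7 e he, mul_zero]
  · exact hik rfl

/-- the leading coefficient after a flattening -/
theorem flat_leadC [CharZero F] {d : ℕ} {f : (ℤ × ℤ) →₀ HK F} (hne : f ≠ 0)
    (hf : ∀ m ∈ f.support, 0 ≤ m.1 ∧ 0 ≤ m.2 ∧ m.1 + m.2 ≤ d) :
    SliceLead (aff (tz F 0 1 0) (1 + tz F 1 0 1)) d
      {m | 0 ≤ m.2 ∧ ∃ T : Finset ℤ, m.2 < (T.card : ℤ) ∧ ∀ b ∈ T, (m.1, b) ∈ f.support} f := by
  obtain ⟨a, h1, h2, h3⟩ := flat_lead hne hf
  refine ⟨a, h1, h2, fun i k hik => ?_⟩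
  rw [FlatL.ev_hom hf] at h1 h2 hik
  set G : HR F := ∑ i ∈ Finset.Icc (0 : ℤ) d, tz F 0 i 0 * FlatL.E F (FlatL.col d f i) with hG
  have hcf : ∀ (a : ℝ) (i k : ℤ), cf G a i k =
      if 0 ≤ i ∧ i ≤ d then cf (FlatL.E F (FlatL.col d f i)) a 0 k else 0 := by
    intro a i k
    rw [hG, Lead.cf_sum]
    have h1 : ∀ i' ∈ Finset.Icc (0 : ℤ) d, cf (tz F 0 i' 0 * FlatL.E F (FlatL.col d f i')) a i k =
        if i' = i then cf (FlatL.E F (FlatL.col d f i)) a 0 k else 0 := by
      intro i' _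
      rw [FlatL.cf_tz_mul, sub_zero, sub_zero]
      split_ifs with h2
      · rw [h2, sub_self]
      · rw [FlatL.cf_E, if_neg]
        omega
    rw [Finset.sum_congr rfl h1, Finset.sum_ite_eq']
    simp only [Finset.mem_Icc]
  have hik' := hik
  rw [hcf] at hik
  split_ifs at hik with hi
  · have hc : FlatL.col d f i ≠ 0 := by
      intro h
      rw [h, map_zero, FlatL.cf_zero] at hik
      exact hik rfl
    obtain ⟨a', g1, g2, g3⟩ := E_leadC hc
    have h4 : a' = a := by
      apply le_antisymm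
      · by_contra hlt
        push Not at hlt
        exact FlatL.coeff_ne hik (g1 _ hlt)
      · by_contra hlt
        push Not at hlt
        obtain ⟨i', k', h5⟩ := FlatL.exists_cf g2
        have h6 : cf G a' i k' ≠ 0 := by
          rw [hcf, if_pos hi]
          rw [FlatL.cf_E] at h5 ⊢
          split_ifs at h5 with h7
          · rw [if_pos ⟨rfl, h7.2⟩]
            exact h5
          · exact absurd rfl h5
        exact FlatL.coeff_ne h6 (h1 _ hlt)
    rw [← h4] at hik
    obtain ⟨h5, h6⟩ := g3 0 k hik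
    refine ⟨h5, (FlatL.col d f i).support.image (fun n : ℕ => (n : ℤ)), ?_, ?_⟩
    · rw [card_image_of_injective _ Nat.cast_injective]
      exact h6
    · intro b hb
      rw [mem_image] at hb
      obtain ⟨n, hn, rfl⟩ := hb
      exact FlatL.col_coeff (Polynomial.mem_support_iff.1 hn)
  · exact absurd rfl hik

theorem EmpS_flatC {ι σ : Type} [Fintype σ] [DecidableEq σ] {w : ι → ℕ}
    {D D' : Set (ℤ × (σ → ℤ))} (j : σ) (v : ℤ) {B : ℕ}
    (hB : ∀ m ∈ D, |m.1| ≤ B ∧ 0 ≤ m.2 j ∧ m.2 j ≤ B)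
    (hD' : ∀ (x : ℤ) (c : σ → ℤ) (k : ℤ), 0 ≤ k → ∀ T : Finset ℤ, k < (T.card : ℤ) →
      (∀ t ∈ T, (x - v * t, Function.update c j t) ∈ D) → (x, Function.update c j k) ∈ D')
    (h : EmpS w D') : EmpS w D := by
  set u : ℤ := (B : ℤ) + |v| * B with hu
  set d : ℕ := 2 * (B + v.natAbs * B) + B with hd
  set D1 : Set (ℤ × (σ → ℤ)) := {m | (m.1 - v * m.2 j - u, m.2) ∈ D} with hD1
  set D2 : Set (ℤ × (σ → ℤ)) := {m | (m.1 - u, m.2) ∈ D'} with hD2
  have hb : ∀ m ∈ D1, 0 ≤ m.1 ∧ 0 ≤ m.2 j ∧ m.1 + m.2 j ≤ d := fun m hm =>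
    bounds_D1 j v hB m hm
  have hS : EmpS w D1 → EmpS w D := by
    intro hE
    refine hE.comap 1 (Or.inl rfl) (fun i => if i = j then v else 0) u ?_
    intro m hm
    rw [sum_ite_mul]
    change (1 * m.1 + v * m.2 j + u - v * m.2 j - u, m.2) ∈ D
    have e : 1 * m.1 + v * m.2 j + u - v * m.2 j - u = m.1 := by ring
    rw [e]
    exact hm
  have hS' : EmpS w D2 := by
    refine h.comap 1 (Or.inl rfl) (fun _ => 0) (-u) ?_
    intro m hm
    have e : 1 * m.1 + ∑ i, (fun _ : σ => (0 : ℤ)) i * m.2 i + -u = m.1 - u := by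
      simp only [zero_mul, sum_const_zero]
      ring
    rw [e]
    exact hm
  apply hS
  refine EmpS_step j hb ?_ hS'
  intro F _ _
  refine ⟨aff (tz F 0 1 0) (1 + tz F 1 0 1), fun x y hx hy l => evp_flat hx hy l, ?_⟩
  intro c f hf0 hf
  have hf' : ∀ m ∈ f.support, 0 ≤ m.1 ∧ 0 ≤ m.2 ∧ m.1 + m.2 ≤ d := by
    intro m hm
    have := hb _ (hf m hm)
    simpa only [Function.update_self] using this
  refine Flat4.sl_mono (flat_leadC hf0 hf') ?_
  rintro ⟨x, k⟩ ⟨hk0, T, hT, hTs⟩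
  simp only at hk0 hT hTs
  change (x - u, Function.update c j k) ∈ D'
  refine hD' (x - u) c k hk0 T hT fun t ht => ?_
  have h1 := hf _ (hTs t ht)
  change (x - v * (Function.update c j t) j - u, Function.update c j t) ∈ D at h1
  rw [Function.update_self] at h1
  have e : x - u - v * t = x - v * t - u := by ring
  rw [e]
  exact h1

end

end Pool.Agent.H35.SP
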