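import Mathlib
import Pool.Agent.H35.SP.FlatC

set_option autoImplicit false

/-! # Exchange of coordinates and sorting -/

namespace Pool.Agent.H35.SP

open Finset Pool.Agent.TH3.IR

section
variable {σ : Type} [DecidableEq σ]

/-- exchange of the first coordinate with a height coordinate -/
def sw (j : σ) (m : ℤ × (σ → ℤ)) : ℤ × (σ → ℤ) := (m.2 j, Function.update m.2 j m.1)

theorem sw_sw (j : σ) (m : ℤ × (σ → ℤ)) : sw j (sw j m) = m := by
  unfold sw
  simp

theorem sw_inj (j : σ) : Function.Injective (sw j) := fun a b h => by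
  rw [← sw_sw j a, h, sw_sw]

theorem mo_sw [Fintype σ] {K : Type} [Field K] (f : (ℤ × (σ → ℤ)) →₀ K) (j : σ) (x : K) (y : σ → K)
    (α : ℕ) (γ : σ → ℕ) : mo (f.mapDomain (sw j)) x y α γ =
      mo f (y j) (Function.update y j x) (γ j) (Function.update γ j α) := by
  unfold mo
  rw [Finsupp.sum_mapDomain_index_inj (sw_inj j)]
  apply Finsupp.sum_congr
  intro m _
  unfold ch sw
  simp only
  have e1 : ∀ (u : σ → K), ∏ i, u i = u j * ∏ i ∈ univ.erase j, u i := fun u =>
    (mul_prod_erase univ u (mem_univ j)).symm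
  rw [e1 (fun i => ((Function.update m.2 j m.1 i : ℤ) : K) ^ γ i),
    e1 (fun i => y i ^ (Function.update m.2 j m.1 i)),
    e1 (fun i => (m.2 i : K) ^ (Function.update γ j α i)),
    e1 (fun i => Function.update y j x i ^ m.2 i)]
  simp only [Function.update_self]
  have e2 : ∏ i ∈ univ.erase j, ((Function.update m.2 j m.1 i : ℤ) : K) ^ γ i =
      ∏ i ∈ univ.erase j, (m.2 i : K) ^ (Function.update γ j α i) := by
    apply prod_congr rfl
    intro i hi
    rw [Function.update_of_ne (ne_of_mem_erase hi), Function.update_of_ne (ne_of_mem_erase hi)]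
  have e3 : ∏ i ∈ univ.erase j, y i ^ (Function.update m.2 j m.1 i) =
      ∏ i ∈ univ.erase j, Function.update y j x i ^ m.2 i := by
    apply prod_congr rfl
    intro i hi
    rw [Function.update_of_ne (ne_of_mem_erase hi), Function.update_of_ne (ne_of_mem_erase hi)]
  rw [e2, e3]
  ring

theorem EmpS_swap {ι : Type} [Fintype σ] {w : ι → ℕ} {S S' : Set (ℤ × (σ → ℤ))} (j : σ)
    (hS : ∀ m ∈ S, sw j m ∈ S') (h : EmpS w S') : EmpS w S := by
  obtain ⟨K, _, _, x, y, hx, hy, hf⟩ := h
  refine ⟨K, inferInstance, inferInstance, fun i => y i j, fun i => Function.update (y i) j (x i),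
    fun i => hy i j, fun i l => ?_, fun f hfS hfL => ?_⟩
  · simp only
    by_cases hl : l = j
    · subst hl
      rw [Function.update_self]
      exact hx i
    · rw [Function.update_of_ne hl]
      exact hy i l
  · have h1 : f.mapDomain (sw j) = 0 := by
      apply hf
      · intro m hm
        have := Finsupp.mapDomain_support hm
        rw [mem_image] at this
        obtain ⟨m', hm', rfl⟩ := this
        exact hS _ (hfS hm')
      · intro i α γ hαγ
        rw [mo_sw]
        apply hfL i
        rw [← add_sum_erase univ _ (mem_univ j)] at hαγ ⊢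
        rw [Function.update_self]
        have e : ∑ l ∈ univ.erase j, Function.update γ j α l = ∑ l ∈ univ.erase j, γ l := by
          apply sum_congr rfl
          intro l hl
          rw [Function.update_of_ne (ne_of_mem_erase hl)]
        rw [e]
        omega
    exact Finsupp.mapDomain_injective (sw_inj j) (h1.trans Finsupp.mapDomain_zero.symm)

/-- the sorted set -/
def Srt (N : (σ → ℕ) → ℕ) : Set (ℤ × (σ → ℤ)) :=
  {m | (∀ i, 0 ≤ m.2 i) ∧ 0 ≤ m.1 ∧ m.1 < (N fun i => (m.2 i).toNat : ℕ)}

theorem EmpS_sort {ι : Type} [Fintype σ] [Nonempty σ] {w : ι → ℕ} {D : Set (ℤ × (σ → ℤ))} {B : ℕ}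
    (hB : ∀ m ∈ D, |m.1| ≤ B ∧ ∀ j, 0 ≤ m.2 j ∧ m.2 j ≤ B) {N : (σ → ℕ) → ℕ}
    (hN : ∀ (κ : σ → ℕ) (T : Finset ℤ), (∀ t ∈ T, ((t, fun i => (κ i : ℤ)) : ℤ × (σ → ℤ)) ∈ D) →
      T.card ≤ N κ) (h : EmpS w (Srt N)) : EmpS w D := by
  obtain ⟨j⟩ := ‹Nonempty σ›
  -- the set with nonnegative first coordinate
  set D1 : Set (ℤ × (σ → ℤ)) := {m | (m.1 - B, m.2) ∈ D} with hD1
  have h1 : EmpS w D1 → EmpS w D := by
    intro hE
    refine hE.comap 1 (Or.inl rfl) (fun _ => 0) B ?_
    intro m hm
    have e : 1 * m.1 + ∑ i : σ, (fun _ => (0 : ℤ)) i * m.2 i + B - B = m.1 := by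
      simp only [zero_mul, sum_const_zero]
      ring
    change (1 * m.1 + ∑ i : σ, (fun _ => (0 : ℤ)) i * m.2 i + B - B, m.2) ∈ D
    rw [e]
    exact hm
  apply h1
  set D2 : Set (ℤ × (σ → ℤ)) := {m | sw j m ∈ D1} with hD2
  have h2 : EmpS w D2 → EmpS w D1 := by
    intro hE
    refine EmpS_swap j ?_ hE
    intro m hm
    change sw j (sw j m) ∈ D1
    rw [sw_sw]
    exact hm
  apply h2
  set D3 : Set (ℤ × (σ → ℤ)) := {m | sw j m ∈ Srt N} with hD3
  have h3 : EmpS w D3 := by
    refine EmpS_swap j ?_ h
    intro m hm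
    exact hm
  refine EmpS_flatC (D' := D3) j 0 (B := 2 * B) ?_ ?_ h3
  · intro m hm
    have hm' : (m.2 j - B, Function.update m.2 j m.1) ∈ D := hm
    obtain ⟨g1, g2⟩ := hB _ hm'
    simp only at g1 g2
    have g3 := g2 j
    rw [Function.update_self] at g3
    rw [abs_le] at g1
    refine ⟨?_, ?_, ?_⟩
    · rw [abs_of_nonneg g3.1]
      push_cast
      omega
    · omega
    · push_cast
      omega
  · intro x c k hk T hT hTD
    change sw j (x, Function.update c j k) ∈ Srt N
    unfold sw
    simp only [Function.update_self, Function.update_idem]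
    have hne : T.Nonempty := by
      rw [← card_pos]
      omega
    obtain ⟨t0, ht0⟩ := hne
    have h4 : ∀ t ∈ T, (t - B, Function.update c j x) ∈ D := by
      intro t ht
      have h5 := hTD t ht
      change sw j (x - 0 * t, Function.update c j t) ∈ D1 at h5
      unfold sw at h5
      simp only [Function.update_self, Function.update_idem, zero_mul, sub_zero] at h5
      exact h5
    have h5 := (hB _ (h4 t0 ht0)).2
    simp only at h5
    have h6 : ∀ i, (((Function.update c j x i).toNat : ℕ) : ℤ) = Function.update c j x i :=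
      fun i => Int.toNat_of_nonneg (h5 i).1
    refine ⟨fun i => (h5 i).1, hk, ?_⟩
    refine lt_of_lt_of_le hT ?_
    have h7 := hN (fun i => (Function.update c j x i).toNat) (T.image fun t => t - B) (by
      intro t ht
      rw [mem_image] at ht
      obtain ⟨t', ht', rfl⟩ := ht
      simp only [h6]
      exact h4 t' ht')
    rw [card_image_of_injective _ (fun a b hab => by simpa using hab)] at h7
    exact_mod_cast h7

/-- flattening a sorted set and sorting again -/
theorem EmpS_spread {ι : Type} [Fintype σ] {w : ι → ℕ} {N N' : (σ → ℕ) → ℕ} {B : ℕ}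
    (hNB : ∀ κ, N κ ≤ B) (hNB' : ∀ κ i, B < κ i → N κ = 0) (j : σ) (v : ℕ)
    (hN : ∀ (κ : σ → ℕ) (A : Finset ℤ), (∀ a ∈ A, ∃ T : Finset ℕ, κ j < T.card ∧
      ∀ t ∈ T, (v * t : ℤ) ≤ a ∧ a < v * t + N (Function.update κ j t)) → A.card ≤ N' κ)
    (h : EmpS w (Srt N')) : EmpS w (Srt N) := by
  have : Nonempty σ := ⟨j⟩
  -- the flattened set
  set D' : Set (ℤ × (σ → ℤ)) := {m | (∀ i, 0 ≤ m.2 i) ∧ ∃ T : Finset ℕ, m.2 j < (T.card : ℤ) ∧
    ∀ t ∈ T, (m.1 - v * t, Function.update m.2 j (t : ℤ)) ∈ Srt N} with hD'
  have hbd : ∀ m ∈ Srt N, |m.1| ≤ B ∧ ∀ j, 0 ≤ m.2 j ∧ m.2 j ≤ B := by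
    rintro m ⟨h0, h1, h2⟩
    refine ⟨?_, fun i => ⟨h0 i, ?_⟩⟩
    · rw [abs_of_nonneg h1]
      have := hNB fun i => (m.2 i).toNat
      omega
    · by_contra hlt
      push Not at hlt
      have h3 := hNB' (fun i => (m.2 i).toNat) i (by
        show B < (m.2 i).toNat
        omega)
      rw [h3] at h2
      simp only [Nat.cast_zero] at h2
      omega
  refine EmpS_flatC (D' := D') j v (B := B) (fun m hm => ⟨(hbd m hm).1, (hbd m hm).2 j⟩) ?_ ?_
  · intro x c k hk T hT hTD
    have hpos : ∀ t ∈ T, 0 ≤ t := by
      intro t ht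
      have := (hTD t ht).1 j
      simpa using this
    have hne : T.Nonempty := by
      rw [← card_pos]
      omega
    obtain ⟨t0, ht0⟩ := hne
    refine ⟨?_, T.image Int.toNat, ?_, ?_⟩
    · intro i
      by_cases hi : i = j
      · subst hi
        simpa using hk
      · have := (hTD t0 ht0).1 i
        simp only at this ⊢
        rw [Function.update_of_ne hi] at this ⊢
        exact this
    · rw [card_image_of_injOn]
      · simp only [Function.update_self]
        exact hT
      · intro a ha b hb hab
        have h1 := hpos a ha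
        have h2 := hpos b hb
        omega
    · intro t ht
      rw [mem_image] at ht
      obtain ⟨t', ht', rfl⟩ := ht
      rw [Int.toNat_of_nonneg (hpos t' ht')]
      simp only [Function.update_idem]
      exact hTD t' ht'
  · refine EmpS_sort (B := B + v * B) ?_ ?_ h
    · rintro m ⟨h0, T, hT, hTD⟩
      have hne : T.Nonempty := by
        rw [← card_pos]
        have := h0 j
        omega
      obtain ⟨t0, ht0⟩ := hne
      have h1 := hbd _ (hTD t0 ht0)
      simp only at h1
      have h2 := (h1.2 j).2
      rw [Function.update_self] at h2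
      have h3 := abs_le.1 h1.1
      have h4 : (v : ℤ) * t0 ≤ v * B := mul_le_mul_of_nonneg_left h2 (by positivity)
      have h5 : (0 : ℤ) ≤ v * t0 := by positivity
      have hvB : (0 : ℤ) ≤ v * B := by positivity
      refine ⟨?_, fun i => ⟨h0 i, ?_⟩⟩
      · rw [abs_le]
        push_cast
        constructor <;> omega
      · by_cases hi : i = j
        · subst hi
          have h6 : T ⊆ Finset.range (B + 1) := by
            intro t ht
            rw [Finset.mem_range]
            have h7 := ((hbd _ (hTD t ht)).2 i).2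
            simp only [Function.update_self] at h7
            omega
          have h7 := card_le_card h6
          rw [card_range] at h7
          push_cast
          omega
        · have h6 := (h1.2 i).2
          rw [Function.update_of_ne hi] at h6
          push_cast
          omega
    · intro κ T hT
      refine hN κ T fun a ha => ?_
      obtain ⟨h0, T', hT', hTD⟩ := hT a ha
      simp only at hT' hTD
      refine ⟨T', by exact_mod_cast hT', fun t ht => ?_⟩
      obtain ⟨g0, g1, g2⟩ := hTD t ht
      simp only at g1 g2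
      have e : (fun i => (Function.update (fun i => (κ i : ℤ)) j (t : ℤ) i).toNat) =
          Function.update κ j t := by
        funext i
        by_cases hi : i = j
        · subst hi
          simp
        · rw [Function.update_of_ne hi, Function.update_of_ne hi, Int.toNat_natCast]
      rw [e] at g2
      constructor
      · linarith
      · linarith

end

end Pool.Agent.H35.SP
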