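import Mathlib
import Pool.Agent.H35.SP.Rows
import Pool.Agent.H35.SP.Swap

set_option autoImplicit false

/-! # Two spreadings of the rows -/

namespace Pool.Agent.H35.SP

open Finset Pool.Agent.TH3.IR

theorem card_le_Ico {A : Finset ℤ} {l u : ℤ} {n : ℕ} (h : ∀ a ∈ A, l ≤ a ∧ a < u)
    (hn : u - l ≤ n) : A.card ≤ n := by
  have h1 : A ⊆ Ico l u := fun a ha => mem_Ico.2 (h a ha)
  have h2 := card_le_card h1
  rw [Int.card_Ico] at h2
  omega

theorem exists_ge_of_card {T : Finset ℕ} {i : ℕ} (h : i < T.card) : ∃ t ∈ T, i ≤ t := by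
  by_contra hc
  push Not at hc
  have h1 : T ⊆ range i := fun t ht => mem_range.2 (hc t ht)
  have := card_le_card h1
  rw [card_range] at this
  omega

theorem card_le_of_lt {T : Finset ℕ} {i : ℕ} (h : ∀ t ∈ T, t < i) : T.card ≤ i := by
  have h1 : T ⊆ range i := fun t ht => mem_range.2 (h t ht)
  have := card_le_card h1
  rwa [card_range] at this

/-- the first spreading -/
theorem spread_one {k m s T : ℕ} (hs : s ≤ k) {N : (Fin 2 → ℕ) → ℕ}
    (hN1 : ∀ κ, κ 0 + κ 1 < m → N κ + s ≤ k * (m - (κ 0 + κ 1)))
    (hN2 : ∀ κ, κ 0 + κ 1 = m → N κ ≤ T) (hN3 : ∀ κ, m < κ 0 + κ 1 → N κ = 0)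
    (κ : Fin 2 → ℕ) (A : Finset ℤ) (hA : ∀ a ∈ A, ∃ S : Finset ℕ, κ 0 < S.card ∧
      ∀ t ∈ S, (((k - s : ℕ) : ℤ) * t : ℤ) ≤ a ∧
        a < ((k - s : ℕ) : ℤ) * t + N (Function.update κ 0 t)) :
    A.card ≤ if κ 0 = 0 then (if κ 1 ≤ m then max (k * (m - κ 1) - s) ((k - s) * (m - κ 1) + T)
      else 0) else k * (m - (κ 0 + κ 1)) := by
  obtain ⟨v, rfl⟩ : ∃ v, k = v + s := ⟨k - s, by omega⟩
  have e0 : v + s - s = v := by omega
  rw [e0] at hA ⊢
  have hup : ∀ t : ℕ, (Function.update κ 0 t) 0 = t ∧ (Function.update κ 0 t) 1 = κ 1 := fun t =>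
    ⟨Function.update_self .., Function.update_of_ne (by decide) ..⟩
  rcases lt_or_ge m (κ 1) with hm | hm
  · -- nothing
    have : A = ∅ := by
      rw [eq_empty_iff_forall_notMem]
      intro a ha
      obtain ⟨S, hS, hSt⟩ := hA a ha
      obtain ⟨t, ht, _⟩ := exists_ge_of_card hS
      obtain ⟨h1, h2⟩ := hSt t ht
      rw [hN3 _ (by rw [(hup t).1, (hup t).2]; omega)] at h2
      push_cast at h2
      omega
    rw [this, card_empty]
    exact Nat.zero_le _
  · obtain ⟨n, hn⟩ : ∃ n, m = κ 1 + n := ⟨m - κ 1, by omega⟩
    -- the three kinds of `t`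
    have hlt : ∀ a : ℤ, ∀ t : ℕ, ((v : ℤ) * t ≤ a ∧ a < (v : ℤ) * t + N (Function.update κ 0 t)) →
        (t < n ∧ a < (v + s) * n - s * (t + 1)) ∨ (t = n ∧ a < v * n + T) := by
      rintro a t ⟨h1, h2⟩
      rcases lt_trichotomy t n with h | h | h
      · left
        refine ⟨h, ?_⟩
        have h3 := hN1 (Function.update κ 0 t) (by rw [(hup t).1, (hup t).2]; omega)
        rw [(hup t).1, (hup t).2] at h3
        obtain ⟨r, rfl⟩ : ∃ r, n = t + r := ⟨n - t, by omega⟩
        have e1 : m - (t + κ 1) = r := by omega
        rw [e1] at h3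
        have h4 : ((N (Function.update κ 0 t) : ℕ) : ℤ) + s ≤ (v + s) * r := by exact_mod_cast h3
        push_cast
        nlinarith
      · right
        refine ⟨h, ?_⟩
        have h3 := hN2 (Function.update κ 0 t) (by rw [(hup t).1, (hup t).2]; omega)
        have h4 : ((N (Function.update κ 0 t) : ℕ) : ℤ) ≤ T := by exact_mod_cast h3
        subst h
        linarith
      · exfalso
        rw [hN3 _ (by rw [(hup t).1, (hup t).2]; omega)] at h2
        push_cast at h2
        omega
    have e1 : m - κ 1 = n := by omega
    have e2 : m - (κ 0 + κ 1) = n - κ 0 := by omega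
    rw [if_pos hm, e1, e2]
    rcases Nat.eq_zero_or_pos (κ 0) with h0 | h0
    · rw [if_pos h0]
      apply card_le_Ico (l := 0)
        (u := ((max ((v + s) * n - s) (v * n + T) : ℕ) : ℤ))
      · intro a ha
        obtain ⟨S, hS, hSt⟩ := hA a ha
        obtain ⟨t, ht, _⟩ := exists_ge_of_card hS
        have h1 := (hSt t ht).1
        have h2 : (0 : ℤ) ≤ v * t := by positivity
        refine ⟨by linarith, ?_⟩
        rcases hlt a t (hSt t ht) with ⟨h3, h4⟩ | ⟨h3, h4⟩
        · have h5 : (s : ℤ) * (t + 1) ≥ s := by nlinarith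
          have h6' : (v + s) * n ≤ ((v + s) * n - s) + s := by omega
          have h6 : ((v : ℤ) + s) * n ≤ (((v + s) * n - s : ℕ) : ℤ) + s := by exact_mod_cast h6'
          have h7 : (((v + s) * n - s : ℕ) : ℤ) ≤
              ((max ((v + s) * n - s) (v * n + T) : ℕ) : ℤ) := by
            exact_mod_cast le_max_left _ _
          linarith
        · have h7 : ((v * n + T : ℕ) : ℤ) ≤
              ((max ((v + s) * n - s) (v * n + T) : ℕ) : ℤ) := by
            exact_mod_cast le_max_right _ _
          have h8 : ((v * n + T : ℕ) : ℤ) = v * n + T := by push_cast; ring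
          linarith
      · rw [sub_zero]
    · rw [if_neg (by omega)]
      rcases le_or_gt (κ 0) n with hi | hi
      · apply card_le_Ico (l := v * κ 0) (u := (v + s) * n - s * κ 0)
        · intro a ha
          obtain ⟨S, hS, hSt⟩ := hA a ha
          constructor
          · obtain ⟨t, ht, hti⟩ := exists_ge_of_card hS
            have h1 := (hSt t ht).1
            have h2 : (v : ℤ) * κ 0 ≤ v * t :=
              mul_le_mul_of_nonneg_left (by exact_mod_cast hti) (by positivity)
            linarith
          · by_contra hge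
            push Not at hge
            have h1 : ∀ t ∈ S.erase n, t < κ 0 - 1 := by
              intro t ht
              rw [mem_erase] at ht
              rcases hlt a t (hSt t ht.2) with ⟨h3, h4⟩ | ⟨h3, h4⟩
              · have h5 : (s : ℤ) * (t + 1) < s * κ 0 := by linarith
                have h6 : ((t : ℤ) + 1) < κ 0 := lt_of_mul_lt_mul_left h5 (by positivity)
                omega
              · exact absurd h3 ht.1
            have h2 := card_le_of_lt h1
            have h3 := pred_card_le_card_erase (s := S) (a := n)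
            omega
        · obtain ⟨r, rfl⟩ : ∃ r, n = κ 0 + r := ⟨n - κ 0, by omega⟩
          rw [Nat.add_sub_cancel_left]
          push_cast
          apply le_of_eq
          ring
      · have : A = ∅ := by
          rw [eq_empty_iff_forall_notMem]
          intro a ha
          obtain ⟨S, hS, hSt⟩ := hA a ha
          have h1 : ∀ t ∈ S, t < n + 1 := by
            intro t ht
            rcases hlt a t (hSt t ht) with ⟨h3, h4⟩ | ⟨h3, h4⟩ <;> omega
          have := card_le_of_lt h1
          omega
        rw [this, card_empty]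
        exact Nat.zero_le _

/-- the second spreading -/
theorem spread_two {k m s T q n : ℕ} (hs : s ≤ k) (hq : q ≤ k) (h1 : T + s ≤ s * n)
    (h2 : q * n ≤ s) (h3 : T + 2 * q * n ≤ q * m)
    (κ : Fin 2 → ℕ) (A : Finset ℤ) (hA : ∀ a ∈ A, ∃ S : Finset ℕ, κ 1 < S.card ∧
      ∀ t ∈ S, (((k - q : ℕ) : ℤ) * t : ℤ) ≤ a ∧
        a < ((k - q : ℕ) : ℤ) * t + ((if κ 0 = 0 then (if t ≤ m then
          max (k * (m - t) - s) ((k - s) * (m - t) + T) else 0) else k * (m - (κ 0 + t)) : ℕ) : ℤ)) :
    A.card ≤ k * (m - (κ 0 + κ 1)) := by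
  obtain ⟨v, hv⟩ : ∃ v, k = v + q := ⟨k - q, by omega⟩
  have e0 : k - q = v := by omega
  rw [e0] at hA
  rcases Nat.eq_zero_or_pos (κ 0) with h0 | h0
  · simp only [if_pos h0] at hA
    have hlt : ∀ a : ℤ, ∀ t : ℕ, ((v : ℤ) * t ≤ a ∧ a < (v : ℤ) * t + ((if t ≤ m then
          max (k * (m - t) - s) ((k - s) * (m - t) + T) else 0 : ℕ) : ℤ)) →
        t ≤ m ∧ ((t + n ≤ m ∧ a < k * m - q * t - s) ∨ (m < t + n ∧ a < k * m - q * t + T)) := by
      rintro a t ⟨g1, g2⟩
      rcases lt_or_ge m t with h | h
      · exfalso
        rw [if_neg (by omega)] at g2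
        push_cast at g2
        omega
      · refine ⟨h, ?_⟩
        rw [if_pos h] at g2
        obtain ⟨r, hr⟩ : ∃ r, m = t + r := ⟨m - t, by omega⟩
        have e1 : m - t = r := by omega
        rw [e1] at g2
        have hsr : (0 : ℤ) ≤ s * r := by positivity
        have hk' : (((k - s : ℕ) : ℤ)) = k - s := by omega
        have e2 : (k : ℤ) * m = v * t + q * t + k * r := by
          rw [hr, hv]
          push_cast
          ring
        rcases le_or_gt (t + n) m with h4 | h4
        · left
          refine ⟨h4, ?_⟩
          have h5 : n ≤ r := by omega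
          have h6 : T + s ≤ s * r := h1.trans (Nat.mul_le_mul_left s h5)
          have h7 : (k - s) * r + T + s ≤ k * r := by
            have : (k - s) * r + s * r = k * r := by
              rw [← add_mul, Nat.sub_add_cancel hs]
            omega
          have h8 : max (k * r - s) ((k - s) * r + T) + s ≤ k * r := by
            rcases le_total (k * r - s) ((k - s) * r + T) with h | h
            · rw [max_eq_right h]
              exact h7
            · rw [max_eq_left h]
              have : s ≤ k * r := by omega
              omega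
          have h9 : ((max (k * r - s) ((k - s) * r + T) : ℕ) : ℤ) + s ≤ k * r := by
            exact_mod_cast h8
          linarith
        · right
          refine ⟨h4, ?_⟩
          have h8 : max (k * r - s) ((k - s) * r + T) ≤ k * r + T := by
            apply max_le
            · omega
            · have : (k - s) * r ≤ k * r := Nat.mul_le_mul_right r (Nat.sub_le _ _)
              omega
          have h9 : ((max (k * r - s) ((k - s) * r + T) : ℕ) : ℤ) ≤ k * r + T := by
            exact_mod_cast h8
          linarith
    rw [h0, zero_add]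
    rcases le_or_gt (κ 1) m with hi | hi
    · apply card_le_Ico (l := v * κ 1) (u := k * m - q * κ 1)
      · intro a ha
        obtain ⟨S, hS, hSt⟩ := hA a ha
        constructor
        · obtain ⟨t, ht, hti⟩ := exists_ge_of_card hS
          have g1 := (hSt t ht).1
          have g2 : (v : ℤ) * κ 1 ≤ v * t :=
            mul_le_mul_of_nonneg_left (by exact_mod_cast hti) (by positivity)
          linarith
        · by_contra hge
          push Not at hge
          rcases lt_or_ge n (κ 1) with hn | hn
          · -- `n < κ 1`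
            have g1 : S ⊆ range (κ 1 - n) ∪ Ico (m + 1 - n) (m + 1) := by
              intro t ht
              obtain ⟨g3, g4 | g4⟩ := hlt a t (hSt t ht)
              · rw [mem_union]
                left
                rw [mem_range]
                have g5 : (q : ℤ) * t + s < q * κ 1 := by linarith [g4.2]
                have g6 : (q : ℤ) * n ≤ s := by exact_mod_cast h2
                have g7 : (q : ℤ) * (t + n) < q * κ 1 := by linarith
                have g8 : ((t : ℤ) + n) < κ 1 := lt_of_mul_lt_mul_left g7 (by positivity)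
                omega
              · rw [mem_union]
                right
                rw [mem_Ico]
                omega
            have g2 := (card_le_card g1).trans (card_union_le _ _)
            rw [card_range, Nat.card_Ico] at g2
            omega
          · -- `κ 1 ≤ n`
            obtain ⟨t, ht, _⟩ := exists_ge_of_card hS
            obtain ⟨g3, g4 | g4⟩ := hlt a t (hSt t ht)
            · have g5 : (q : ℤ) * t + s < q * κ 1 := by linarith [g4.2]
              have g6 : (q : ℤ) * n ≤ s := by exact_mod_cast h2
              have g7 : (q : ℤ) * (t + n) < q * κ 1 := by linarith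
              have g8 : ((t : ℤ) + n) < κ 1 := lt_of_mul_lt_mul_left g7 (by positivity)
              omega
            · have g5 : (q : ℤ) * t < q * κ 1 + T := by linarith [g4.2]
              have g6 : (T : ℤ) + 2 * q * n ≤ q * m := by exact_mod_cast h3
              have g7 : (q : ℤ) * κ 1 ≤ q * n :=
                mul_le_mul_of_nonneg_left (by exact_mod_cast hn) (by positivity)
              have g8 : (q : ℤ) * t < q * (m - n) := by linarith
              have g9 : (t : ℤ) < m - n := lt_of_mul_lt_mul_left g8 (by positivity)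
              omega
      · obtain ⟨r, rfl⟩ : ∃ r, m = κ 1 + r := ⟨m - κ 1, by omega⟩
        rw [Nat.add_sub_cancel_left, hv]
        push_cast
        apply le_of_eq
        ring
    · have : A = ∅ := by
        rw [eq_empty_iff_forall_notMem]
        intro a ha
        obtain ⟨S, hS, hSt⟩ := hA a ha
        have g1 : ∀ t ∈ S, t < m + 1 := by
          intro t ht
          have := (hlt a t (hSt t ht)).1
          omega
        have := card_le_of_lt g1
        omega
      rw [this, card_empty]
      exact Nat.zero_le _
  · have h0' : κ 0 ≠ 0 := by omega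
    simp only [if_neg h0'] at hA
    rcases lt_or_ge m (κ 0) with hm | hm
    · have : A = ∅ := by
        rw [eq_empty_iff_forall_notMem]
        intro a ha
        obtain ⟨S, hS, hSt⟩ := hA a ha
        obtain ⟨t, ht, _⟩ := exists_ge_of_card hS
        obtain ⟨g1, g2⟩ := hSt t ht
        have e1 : m - (κ 0 + t) = 0 := by omega
        rw [e1] at g2
        push_cast at g2
        omega
      rw [this, card_empty]
      exact Nat.zero_le _
    · obtain ⟨n', hn'⟩ : ∃ n', m = κ 0 + n' := ⟨m - κ 0, by omega⟩
      have hlt : ∀ a : ℤ, ∀ t : ℕ, ((v : ℤ) * t ≤ a ∧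
          a < (v : ℤ) * t + ((k * (m - (κ 0 + t)) : ℕ) : ℤ)) → t < n' ∧ a < k * n' - q * t := by
        rintro a t ⟨g1, g2⟩
        rcases le_or_gt n' t with h | h
        · exfalso
          have e1 : m - (κ 0 + t) = 0 := by omega
          rw [e1] at g2
          push_cast at g2
          omega
        · refine ⟨h, ?_⟩
          obtain ⟨r, hr⟩ : ∃ r, n' = t + r := ⟨n' - t, by omega⟩
          have e1 : m - (κ 0 + t) = r := by omega
          rw [e1] at g2
          have e2 : (k : ℤ) * n' = v * t + q * t + k * r := by
            rw [hr, hv]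
            push_cast
            ring
          push_cast at g2
          linarith
      have e2 : m - (κ 0 + κ 1) = n' - κ 1 := by omega
      rw [e2]
      rcases le_or_gt (κ 1) n' with hi | hi
      · apply card_le_Ico (l := v * κ 1) (u := k * n' - q * κ 1)
        · intro a ha
          obtain ⟨S, hS, hSt⟩ := hA a ha
          constructor
          · obtain ⟨t, ht, hti⟩ := exists_ge_of_card hS
            have g1 := (hSt t ht).1
            have g2 : (v : ℤ) * κ 1 ≤ v * t :=
              mul_le_mul_of_nonneg_left (by exact_mod_cast hti) (by positivity)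
            linarith
          · by_contra hge
            push Not at hge
            have g1 : ∀ t ∈ S, t < κ 1 := by
              intro t ht
              have g2 := (hlt a t (hSt t ht)).2
              have g5 : (q : ℤ) * t < q * κ 1 := by linarith
              have g6 : (t : ℤ) < κ 1 := lt_of_mul_lt_mul_left g5 (by positivity)
              exact_mod_cast g6
            have := card_le_of_lt g1
            omega
        · obtain ⟨r, hr⟩ : ∃ r, n' = κ 1 + r := ⟨n' - κ 1, by omega⟩
          rw [hr, Nat.add_sub_cancel_left, hv]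
          push_cast
          apply le_of_eq
          ring
      · have : A = ∅ := by
          rw [eq_empty_iff_forall_notMem]
          intro a ha
          obtain ⟨S, hS, hSt⟩ := hA a ha
          have g1 : ∀ t ∈ S, t < n' := fun t ht => (hlt a t (hSt t ht)).1
          have := card_le_of_lt g1
          omega
        rw [this, card_empty]
        exact Nat.zero_le _

theorem EmpS_two {ι : Type} [Fintype ι] {k m s T q n : ℕ} (hk : Fintype.card ι = k) (hs : s ≤ k)
    (hq : q ≤ k) (h1 : T + s ≤ s * n) (h2 : q * n ≤ s) (h3 : T + 2 * q * n ≤ q * m)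
    {N : (Fin 2 → ℕ) → ℕ} (hN1 : ∀ κ, κ 0 + κ 1 < m → N κ + s ≤ k * (m - (κ 0 + κ 1)))
    (hN2 : ∀ κ, κ 0 + κ 1 = m → N κ ≤ T) (hN3 : ∀ κ, m < κ 0 + κ 1 → N κ = 0) :
    EmpS (fun _ : ι => m) (Srt N) := by
  set N' : (Fin 2 → ℕ) → ℕ := fun κ => if κ 0 = 0 then (if κ 1 ≤ m then
    max (k * (m - κ 1) - s) ((k - s) * (m - κ 1) + T) else 0) else k * (m - (κ 0 + κ 1)) with hN'
  set N'' : (Fin 2 → ℕ) → ℕ := fun κ => k * (m - (κ 0 + κ 1)) with hN''
  refine EmpS_spread (N' := N') (B := k * m + T + m) ?_ ?_ 0 (k - s)
    (fun κ A hA => spread_one hs hN1 hN2 hN3 κ A hA) ?_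
  · intro κ
    rcases lt_trichotomy (κ 0 + κ 1) m with h | h | h
    · have g1 := hN1 κ h
      have g2 : k * (m - (κ 0 + κ 1)) ≤ k * m := Nat.mul_le_mul_left k (Nat.sub_le _ _)
      omega
    · have g1 := hN2 κ h
      omega
    · rw [hN3 κ h]
      exact Nat.zero_le _
  · intro κ i hi
    apply hN3
    have : κ i ≤ κ 0 + κ 1 := by
      fin_cases i
      · simp only [Fin.zero_eta]; omega
      · simp only [Fin.mk_one]; omega
    omega
  refine EmpS_spread (N' := N'') (B := k * m + T + m) ?_ ?_ 1 (k - q) ?_ ?_
  · intro κ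
    rw [hN']
    simp only
    split_ifs
    · apply max_le
      · have g2 : k * (m - κ 1) ≤ k * m := Nat.mul_le_mul_left k (Nat.sub_le _ _)
        omega
      · have g2 : (k - s) * (m - κ 1) ≤ k * m := Nat.mul_le_mul (Nat.sub_le _ _) (Nat.sub_le _ _)
        omega
    · exact Nat.zero_le _
    · have g2 : k * (m - (κ 0 + κ 1)) ≤ k * m := Nat.mul_le_mul_left k (Nat.sub_le _ _)
      omega
  · intro κ i hi
    rw [hN']
    simp only
    have h4 : m < κ i := by omega
    split_ifs with g1 g2
    · exfalso
      fin_cases i
      · simp only [Fin.zero_eta] at h4; omega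
      · simp only [Fin.mk_one] at h4; omega
    · rfl
    · have : κ i ≤ κ 0 + κ 1 := by
        fin_cases i
        · simp only [Fin.zero_eta]; omega
        · simp only [Fin.mk_one]; omega
      have e : m - (κ 0 + κ 1) = 0 := by omega
      rw [e, mul_zero]
  · intro κ A hA
    refine spread_two hs hq h1 h2 h3 κ A fun a ha => ?_
    obtain ⟨S, hS, hSt⟩ := hA a ha
    refine ⟨S, hS, fun t ht => ?_⟩
    have g1 := hSt t ht
    rw [hN'] at g1
    simp only [Function.update_self, Function.update_of_ne (by decide : (0 : Fin 2) ≠ 1)] at g1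
    exact g1
  · refine EmpS_rows (fun m hm i => hm.1 i) ?_
    intro κ B hB
    rw [sum_const, card_univ, hk, smul_eq_mul, Fin.sum_univ_two]
    apply card_le_Ico (l := 0) (u := ((k * (m - (κ 0 + κ 1)) : ℕ) : ℤ))
    · intro a ha
      obtain ⟨g0, g1, g2⟩ := hB a ha
      simp only [Int.toNat_natCast] at g1 g2
      exact ⟨g1, g2⟩
    · rw [sub_zero]

end Pool.Agent.H35.SP
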