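import Mathlib
import Pool.Agent.H35.SP.Dbl
import Pool.Agent.H35.SP.Spr
import Pool.Agent.H35.SP.Cnt3

set_option autoImplicit false

/-! # Double flattening in two variables, emptiness -/

namespace Pool.Agent.H35.SP

open Finset Pool.Agent.TH3.IR

/-- the part of a double flattening which matters -/
theorem row_sub {L R : ℝ} {μ ν : Fin 2 → ℝ} {v₁ v₂ : ℤ} {K₁ K₂ σ₀ σ₁ : ℝ}
    (hK₁ : μ 0 + v₁ = K₁) (hK₂ : μ 1 + v₂ = K₂)
    (hs₀ : μ 0 + ν 0 = σ₀) (hs₁ : μ 1 + ν 1 = σ₁) (hσ₁ : 0 < σ₁) (hσσ : σ₁ ≤ σ₀)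
    (hσK : σ₀ ≤ K₁) (hK₂0 : 0 < K₂) (hKK : K₁ ^ 2 = σ₀ * K₂) {x : ℝ} {k₁ k₂ : ℝ}
    {b b' t t' u u' : ℝ} (hb : b + k₂ ≤ b') (ht : t + k₁ ≤ t') (hu : 0 ≤ u) (hu' : u + k₁ ≤ u')
    (h1 : L + (μ 0 * t' + μ 1 * b) ≤ x - v₂ * b - v₁ * t')
    (h2 : x - v₂ * b - v₁ * t ≤ R - (ν 0 * t + ν 1 * b))
    (h3 : L + (μ 0 * u' + μ 1 * b') ≤ x - v₂ * b' - v₁ * u') :
    K₂ * k₂ ≤ x - (L + K₁ * k₁) - K₂ * b ∧ K₁ * t ≤ x - (L + K₁ * k₁) - K₂ * b ∧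
      (x - (L + K₁ * k₁) - K₂ * b) - (K₁ - σ₀) * t ≤ R - L - K₁ * k₁ - σ₁ * b := by
  have _ := hσσ
  have _ := hKK
  have hσ₀ : 0 < σ₀ := lt_of_lt_of_le hσ₁ hσσ
  have hK₁0 : 0 < K₁ := lt_of_lt_of_le hσ₀ hσK
  refine ⟨?_, ?_, ?_⟩
  · have g1 : L + K₁ * u' + K₂ * b' ≤ x := by
      rw [← hK₁, ← hK₂]
      linarith
    have g2 : K₁ * k₁ ≤ K₁ * u' := mul_le_mul_of_nonneg_left (by linarith) hK₁0.le
    have g3 : K₂ * (b + k₂) ≤ K₂ * b' := mul_le_mul_of_nonneg_left hb hK₂0.le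
    linarith
  · have g1 : L + K₁ * t' + K₂ * b ≤ x := by
      rw [← hK₁, ← hK₂]
      linarith
    have g2 : K₁ * (t + k₁) ≤ K₁ * t' := mul_le_mul_of_nonneg_left ht hK₁0.le
    linarith
  · have g1 : x ≤ R + (K₁ - σ₀) * t + (K₂ - σ₁) * b := by
      rw [← hK₁, ← hK₂, ← hs₀, ← hs₁]
      linarith
    linarith

/-- the value of the sawtooth function -/
theorem saw_ge {K σ z : ℝ} (hK : 0 < K) (hσK : σ ≤ K) :
    σ * z / K ≤ z - (K - σ) * ⌊z / K⌋ := by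
  have h1 := Int.floor_le (z / K)
  have h2 : (K - σ) * ⌊z / K⌋ ≤ (K - σ) * (z / K) :=
    mul_le_mul_of_nonneg_left h1 (sub_nonneg.2 hσK)
  have h3 : (K - σ) * (z / K) = z - σ * z / K := by
    field_simp
  linarith

theorem min_max_diff {T : Finset ℤ} {k : ℤ} (hk : 0 ≤ k) (h : k < (T.card : ℤ)) :
    ∃ b ∈ T, ∃ b' ∈ T, b + k ≤ b' := by
  have hne : T.Nonempty := by
    rw [← card_pos]
    omega
  refine ⟨T.min' hne, T.min'_mem hne, T.max' hne, T.max'_mem hne, ?_⟩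
  have h1 : T ⊆ Icc (T.min' hne) (T.max' hne) := fun t ht =>
    mem_Icc.2 ⟨T.min'_le t ht, T.le_max' t ht⟩
  have h2 := card_le_card h1
  rw [Int.card_Icc] at h2
  omega

theorem EmpS_double {ι : Type} [Fintype ι] {m k s T q n : ℕ} {L R : ℝ} {μ ν : Fin 2 → ℝ}
    (hμ : ∀ i, 0 ≤ μ i) (hν : ∀ i, 0 ≤ ν i) {v₁ v₂ : ℤ} (hv₁ : ν 0 ≤ v₁) (hv₂ : ν 1 ≤ v₂)
    {K₁ K₂ σ₀ σ₁ η B₀ W : ℝ} {N : ℤ} (hK₁ : μ 0 + v₁ = K₁) (hK₂ : μ 1 + v₂ = K₂)
    (hs₀ : μ 0 + ν 0 = σ₀) (hs₁ : μ 1 + ν 1 = σ₁) (hσ₁ : 0 < σ₁) (hσσ : σ₁ ≤ σ₀)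
    (hKK : K₁ ^ 2 = σ₀ * K₂) (hη : K₂ = N * K₁ + η) (hk : K₁ * K₂ / σ₁ = k)
    (hWle : R - L ≤ W)
    (hm : K₂ / σ₁ * (W + (σ₀ + σ₁) / 2) + (K₁ - σ₀) * |η| / (2 * σ₁) +
        ((K₂ / K₁ + 2) * (K₁ / σ₁ + 1 + σ₁ / 8 + B₀ ^ 2 / (2 * σ₁)) + (2 * K₁ + σ₀) / σ₁ + 2) +
        s ≤ k * (m + 1))
    (hB₀ : 0 ≤ B₀) (hW1 : 0 ≤ W - K₁ * (m - 1))
    (hW2 : 2 * K₁ + σ₀ - B₀ ≤ W - K₁ * (m - 1))
    (hT : max ((R - L - K₁ * m) * K₂ / σ₁) 0 + 1 ≤ T) (hW3 : R - L < K₁ * (m + 1))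
    (hcard : Fintype.card ι = k) (hs : s ≤ k) (hq : q ≤ k) (h1 : T + s ≤ s * n) (h2 : q * n ≤ s)
    (h3 : T + 2 * q * n ≤ q * m) :
    EmpS (fun _ : ι => m) (RegS L R μ ν) := by
  classical
  have hσ₀ : 0 < σ₀ := lt_of_lt_of_le hσ₁ hσσ
  have hσK : σ₀ ≤ K₁ := by linarith
  have hσK₂ : σ₁ ≤ K₂ := by linarith
  have hK₁0 : 0 < K₁ := lt_of_lt_of_le hσ₀ hσK
  have hK₂0 : 0 < K₂ := lt_of_lt_of_le hσ₁ hσK₂
  have hpos : ∀ i, 0 < μ i + ν i := by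
    intro i
    fin_cases i
    · simp only [Fin.zero_eta]
      rw [hs₀]; exact hσ₀
    · simp only [Fin.mk_one]
      rw [hs₁]; exact hσ₁
  obtain ⟨B, hB⟩ := RegS_bounded (L := L) (R := R) hμ hν hpos
  set D : Set (ℤ × (Fin 2 → ℤ)) := RegS L R μ ν with hD
  set D1 : Set (ℤ × (Fin 2 → ℤ)) := {m | 0 ≤ m.2 0 ∧ 0 ≤ m.2 1 ∧ ∃ t t' : ℤ, t + m.2 0 ≤ t' ∧
      (m.1 - v₁ * t, Function.update m.2 0 t) ∈ D ∧
      (m.1 - v₁ * t', Function.update m.2 0 t') ∈ D} with hD1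
  set D2 : Set (ℤ × (Fin 2 → ℤ)) := {m | 0 ≤ m.2 0 ∧ 0 ≤ m.2 1 ∧ ∃ b b' : ℤ, b + m.2 1 ≤ b' ∧
      (m.1 - v₂ * b, Function.update m.2 1 b) ∈ D1 ∧
      (m.1 - v₂ * b', Function.update m.2 1 b') ∈ D1} with hD2
  have hvB : (0 : ℤ) ≤ |v₁| * (B : ℤ) := mul_nonneg (abs_nonneg _) (by positivity)
  -- bounds for `D1`
  have hB1 : ∀ m ∈ D1, |m.1| ≤ ((B + v₁.natAbs * B : ℕ) : ℤ) ∧ m.2 0 ≤ B ∧ m.2 1 ≤ B := by
    rintro m ⟨h0, h0', t, t', htt, hb, hb'⟩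
    have g1 := hB _ hb
    have g1' := hB _ hb'
    simp only at g1 g1'
    obtain ⟨g2, g3⟩ := g1
    have g4 := g3 0
    have g5 := g3 1
    have g4' := g1'.2 0
    rw [Function.update_self] at g4 g4'
    rw [Function.update_of_ne (by decide)] at g5
    have g6 : |v₁ * t| ≤ |v₁| * B := by
      rw [abs_mul, abs_of_nonneg g4.1]
      exact mul_le_mul_of_nonneg_left g4.2 (abs_nonneg _)
    have e : ((v₁.natAbs : ℕ) : ℤ) = |v₁| := Int.natCast_natAbs v₁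
    refine ⟨?_, by omega, by omega⟩
    have g8 : |m.1| ≤ |m.1 - v₁ * t| + |v₁ * t| := by
      have := abs_add_le (m.1 - v₁ * t) (v₁ * t)
      rwa [sub_add_cancel] at this
    push_cast
    rw [← Int.abs_eq_natAbs] at *
    linarith
  refine EmpS_flatC (D' := D1) 0 v₁ (B := B) (fun m hm => ⟨(hB m hm).1, (hB m hm).2 0⟩) ?_ ?_
  · intro x c k hk T hT hTD
    obtain ⟨t, ht, t', ht', htt⟩ := min_max_diff hk hT
    have g1 := (hB _ (hTD t ht)).2 1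
    simp only at g1
    rw [Function.update_of_ne (by decide)] at g1
    refine ⟨?_, ?_, t, t', ?_, ?_, ?_⟩
    · simpa using hk
    · simp only
      rw [Function.update_of_ne (by decide)]
      exact g1.1
    · simpa using htt
    · simp only [Function.update_idem]
      exact hTD t ht
    · simp only [Function.update_idem]
      exact hTD t' ht'
  refine EmpS_flatC (D' := D2) 1 v₂ (B := B + v₁.natAbs * B) ?_ ?_ ?_
  · intro m hm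
    obtain ⟨g1, g2, g3⟩ := hB1 m hm
    refine ⟨g1, hm.2.1, ?_⟩
    have : (0 : ℤ) ≤ ((v₁.natAbs * B : ℕ) : ℤ) := by positivity
    push_cast at this ⊢
    linarith
  · intro x c k hk T hT hTD
    obtain ⟨t, ht, t', ht', htt⟩ := min_max_diff hk hT
    have g1 := (hTD t ht).1
    simp only at g1
    rw [Function.update_of_ne (by decide)] at g1
    refine ⟨?_, ?_, t, t', ?_, ?_, ?_⟩
    · simp only
      rw [Function.update_of_ne (by decide)]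
      exact g1
    · simpa using hk
    · simpa using htt
    · simp only [Function.update_idem]
      exact hTD t ht
    · simp only [Function.update_idem]
      exact hTD t' ht'
  -- bounds for `D2`
  set B2 : ℕ := (B + v₁.natAbs * B) + v₂.natAbs * B with hB2
  have hbd2 : ∀ m ∈ D2, |m.1| ≤ B2 ∧ ∀ j, 0 ≤ m.2 j ∧ m.2 j ≤ B2 := by
    rintro m ⟨h0, h0', b, b', hbb, hb, hb'⟩
    obtain ⟨g1, g2, g3⟩ := hB1 _ hb
    obtain ⟨g1', g2', g3'⟩ := hB1 _ hb'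
    have g4 := hb.2.1
    simp only at g1 g2 g3 g1' g2' g3' g4
    rw [Function.update_self] at g3 g3' g4
    rw [Function.update_of_ne (by decide)] at g2
    have g6 : |v₂ * b| ≤ |v₂| * B := by
      rw [abs_mul, abs_of_nonneg g4]
      exact mul_le_mul_of_nonneg_left g3 (abs_nonneg _)
    have e : ((v₁.natAbs : ℕ) : ℤ) = |v₁| := Int.natCast_natAbs v₁
    have e' : ((v₂.natAbs : ℕ) : ℤ) = |v₂| := Int.natCast_natAbs v₂
    have g7 : (0 : ℤ) ≤ |v₂| * B := mul_nonneg (abs_nonneg _) (by positivity)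
    have hB2' : (B2 : ℤ) = B + |v₁| * B + |v₂| * B := by
      rw [hB2]
      push_cast
      ring
    have hBle : (B : ℤ) ≤ B2 := by rw [hB2']; linarith
    push_cast at g1
    refine ⟨?_, fun j => ?_⟩
    · have g8 : |m.1| ≤ |m.1 - v₂ * b| + |v₂ * b| := by
        have := abs_add_le (m.1 - v₂ * b) (v₂ * b)
        rwa [sub_add_cancel] at this
      rw [hB2']
      linarith
    · fin_cases j
      · simp only [Fin.zero_eta]
        exact ⟨h0, by linarith⟩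
      · simp only [Fin.mk_one]
        exact ⟨h0', by linarith⟩
  -- the rows
  have hrow : ∀ (κ : Fin 2 → ℕ) (x : ℤ), ((x, fun i => (κ i : ℤ)) : ℤ × (Fin 2 → ℤ)) ∈ D2 →
      ∃ b : ℕ, K₂ * κ 1 ≤ (x : ℝ) - (L + K₁ * κ 0) - K₂ * b ∧
        ((x : ℝ) - (L + K₁ * κ 0) - K₂ * b) -
          (K₁ - σ₀) * ⌊((x : ℝ) - (L + K₁ * κ 0) - K₂ * b) / K₁⌋ ≤
          R - L - K₁ * κ 0 - σ₁ * b := by
    rintro κ x ⟨_, _, b, b', hbb, hb, hb'⟩
    simp only at hbb hb hb'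
    obtain ⟨_, f2, t, t', ht, f3, f4⟩ := hb
    obtain ⟨_, f2', u, u', hu, f3', f4'⟩ := hb'
    simp only [Function.update_self, Function.update_of_ne (by decide : (0 : Fin 2) ≠ 1)] at f2 ht
    simp only [Function.update_self, Function.update_of_ne (by decide : (0 : Fin 2) ≠ 1)] at f2' hu
    obtain ⟨_, _, f5⟩ := f3
    obtain ⟨_, f6, _⟩ := f4
    obtain ⟨f7, _, _⟩ := f3'
    obtain ⟨_, f8, _⟩ := f4'
    have f7 := f7 0
    simp only [Fin.sum_univ_two, Function.update_self,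
      Function.update_of_ne (by decide : (1 : Fin 2) ≠ 0)] at f5 f6 f7 f8
    obtain ⟨b, rfl⟩ := Int.eq_ofNat_of_zero_le f2
    push_cast at f5 f6 f8
    have hbbr : (b : ℝ) + κ 1 ≤ b' := by exact_mod_cast hbb
    have htr : (t : ℝ) + κ 0 ≤ t' := by exact_mod_cast ht
    have hur : (u : ℝ) + κ 0 ≤ u' := by exact_mod_cast hu
    have hu0 : (0 : ℝ) ≤ u := by exact_mod_cast f7
    obtain ⟨g1, g2, g3⟩ := row_sub (x := x) hK₁ hK₂ hs₀ hs₁ hσ₁ hσσ hσK hK₂0 hKK hbbr htr hu0 hur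
      f6 f5 f8
    refine ⟨b, g1, ?_⟩
    have g4 : t ≤ ⌊((x : ℝ) - (L + K₁ * κ 0) - K₂ * b) / K₁⌋ := by
      rw [Int.le_floor, le_div_iff₀ hK₁0]
      linarith
    have g5 : (t : ℝ) ≤ ⌊((x : ℝ) - (L + K₁ * κ 0) - K₂ * b) / K₁⌋ := by exact_mod_cast g4
    have g6 := mul_le_mul_of_nonneg_left g5 (sub_nonneg.2 hσK)
    linarith
  -- the number of elements of the rows
  set NN : (Fin 2 → ℕ) → ℕ := fun κ => ((Icc (-(B2 : ℤ)) B2).filter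
    fun x => ((x, fun i => (κ i : ℤ)) : ℤ × (Fin 2 → ℤ)) ∈ D2).card with hNN
  refine EmpS_sort (N := NN) hbd2 ?_ ?_
  · intro κ T hT
    apply card_le_card
    intro t ht
    rw [mem_filter, mem_Icc]
    have g1 := (hbd2 _ (hT t ht)).1
    simp only at g1
    exact ⟨abs_le.1 g1, hT t ht⟩
  have hmem : ∀ κ : Fin 2 → ℕ, ∀ x ∈ (Icc (-(B2 : ℤ)) B2).filter
      (fun x => ((x, fun i => (κ i : ℤ)) : ℤ × (Fin 2 → ℤ)) ∈ D2),
      ((x, fun i => (κ i : ℤ)) : ℤ × (Fin 2 → ℤ)) ∈ D2 := fun κ x hx => (mem_filter.1 hx).2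
  refine EmpS_two hcard hs hq h1 h2 h3 ?_ ?_ ?_
  · -- rows below the level `m`
    intro κ hκ
    have hκr : (κ 0 : ℝ) + κ 1 ≤ m - 1 := by
      have : ((κ 0 + κ 1 + 1 : ℕ) : ℝ) ≤ m := by exact_mod_cast hκ
      push_cast at this
      linarith
    set q₀ : ℤ := ⌊K₂ * κ 1 / K₁⌋ with hq₀
    have hq1 := Int.floor_le (K₂ * κ 1 / K₁)
    have hq2 := Int.lt_floor_add_one (K₂ * κ 1 / K₁)
    rw [← hq₀, le_div_iff₀ hK₁0] at hq1
    rw [← hq₀, div_lt_iff₀ hK₁0] at hq2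
    have hq3 : σ₀ * q₀ ≤ K₁ * κ 1 := by
      have g1 : σ₀ * (q₀ * K₁) ≤ σ₀ * (K₂ * κ 1) := mul_le_mul_of_nonneg_left hq1 hσ₀.le
      have g2 : (σ₀ * q₀) * K₁ ≤ (K₁ * κ 1) * K₁ := by
        have : σ₀ * (K₂ * κ 1) = K₁ ^ 2 * κ 1 := by rw [hKK]; ring
        nlinarith
      exact le_of_mul_le_mul_right g2 hK₁0
    have hYge : W - K₁ * (m - 1) ≤ W - K₁ * κ 0 - σ₀ * q₀ := by
      have : K₁ * (κ 0 + κ 1) ≤ K₁ * (m - 1) := mul_le_mul_of_nonneg_left hκr hK₁0.le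
      linarith
    have hup := valid_upper (c := L + K₁ * κ 0 + K₁ * q₀) (Y := W - K₁ * κ 0 - σ₀ * q₀)
      (α := K₂ * κ 1 - K₁ * q₀) (K := K₁) (by linarith) (by linarith) hK₂0 hσ₀ hσK hσ₁ hKK hη hB₀
      (by linarith) (by linarith) ((Icc (-(B2 : ℤ)) B2).filter
      (fun x => ((x, fun i => (κ i : ℤ)) : ℤ × (Fin 2 → ℤ)) ∈ D2)) (by
      intro x hx
      obtain ⟨b, g1, g2⟩ := hrow κ x (hmem κ x hx)
      set z := (x : ℝ) - (L + K₁ * κ 0) - K₂ * b with hz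
      -- move `z` into the window
      set i := ⌊(z - K₂ * κ 1) / K₂⌋.toNat with hi
      have hi0 : 0 ≤ ⌊(z - K₂ * κ 1) / K₂⌋ :=
        Int.floor_nonneg.2 (div_nonneg (by linarith) hK₂0.le)
      have hi1 : ((i : ℕ) : ℤ) = ⌊(z - K₂ * κ 1) / K₂⌋ := Int.toNat_of_nonneg hi0
      have hi2 := Int.floor_le ((z - K₂ * κ 1) / K₂)
      have hi3 := Int.lt_floor_add_one ((z - K₂ * κ 1) / K₂)
      rw [← hi1] at hi2 hi3
      rw [le_div_iff₀ hK₂0] at hi2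
      rw [div_lt_iff₀ hK₂0] at hi3
      push_cast at hi2 hi3
      have g3 := g_steps hK₁0 hσ₀ hσK hσσ hKK (z - K₂ * i) i
      rw [sub_add_cancel] at g3
      have g4 := floor_shift (K := K₁) (z := z - K₂ * i - K₁ * q₀) hK₁0 q₀
      rw [sub_add_cancel] at g4
      have g4' : (⌊(z - K₂ * i) / K₁⌋ : ℝ) = ⌊(z - K₂ * i - K₁ * q₀) / K₁⌋ + q₀ := by
        exact_mod_cast g4
      have e1 : (x : ℝ) - (L + K₁ * κ 0 + K₁ * q₀ + K₂ * ((b + i : ℕ) : ℝ)) =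
          z - K₂ * i - K₁ * q₀ := by
        rw [hz]
        push_cast
        ring
      refine ⟨b + i, ?_, ?_, ?_⟩
      · rw [e1]
        linarith
      · rw [e1]
        linarith
      · rw [e1]
        push_cast
        rw [g4'] at g3
        linarith)
    have e1 : W - K₁ * κ 0 - σ₀ * q₀ - σ₀ * (K₂ * κ 1 - K₁ * q₀) / K₁ =
        W - K₁ * (κ 0 + κ 1) := by
      have : σ₀ * (K₂ * κ 1 - K₁ * q₀) / K₁ = K₁ * κ 1 - σ₀ * q₀ := by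
        rw [mul_sub, ← mul_assoc, ← hKK]
        field_simp
      rw [this]
      ring
    rw [e1] at hup
    have e2 : K₂ / σ₁ * (W - K₁ * (κ 0 + κ 1) + (σ₀ + σ₁) / 2 - K₁) =
        K₂ / σ₁ * (W + (σ₀ + σ₁) / 2) - K₁ * K₂ / σ₁ * (κ 0 + κ 1 + 1) := by
      field_simp
      ring
    rw [e2, hk] at hup
    have h4 : ((NN κ : ℕ) : ℝ) + s ≤ k * (m - (κ 0 + κ 1)) := by
      rw [hNN]
      simp only
      linarith
    have h5 : ((NN κ + s : ℕ) : ℝ) ≤ ((k * (m - (κ 0 + κ 1)) : ℕ) : ℝ) := by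
      rw [Nat.cast_mul, Nat.cast_sub hκ.le]
      push_cast
      exact h4
    exact_mod_cast h5
  · -- rows of level `m`
    intro κ hκ
    have hκr : (κ 0 : ℝ) + κ 1 = m := by exact_mod_cast hκ
    have h4 := card_le_of_mem' (S := (Icc (-(B2 : ℤ)) B2).filter
      (fun x => ((x, fun i => (κ i : ℤ)) : ℤ × (Fin 2 → ℤ)) ∈ D2))
      (s := L + K₁ * κ 0 + K₂ * κ 1)
      (t := L + K₁ * κ 0 + K₂ * κ 1 + (R - L - K₁ * m) * K₂ / σ₁) (by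
      intro x hx
      obtain ⟨b, g1, g2⟩ := hrow κ x (hmem κ x hx)
      set z := (x : ℝ) - (L + K₁ * κ 0) - K₂ * b with hz
      have hb0 : (0 : ℝ) ≤ K₂ * b := by positivity
      refine ⟨by linarith, ?_⟩
      have g3 := saw_ge (z := z) hK₁0 hσK
      have g4 : σ₀ * z / K₁ ≤ R - L - K₁ * κ 0 - σ₁ * b := g3.trans g2
      have g5 : K₁ * κ 1 ≤ σ₀ * z / K₁ := by
        rw [le_div_iff₀ hK₁0]
        have : σ₀ * (K₂ * κ 1) ≤ σ₀ * z := mul_le_mul_of_nonneg_left g1 hσ₀.le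
        nlinarith
      have g6 : σ₁ * b ≤ R - L - K₁ * m := by
        rw [← hκr]
        linarith
      -- `K₂ * b ≤ (σ₁ * b) * K₂ / σ₁`
      have g7 : z ≤ (K₁ / σ₀) * (R - L - K₁ * κ 0 - σ₁ * b) := by
        rw [div_mul_eq_mul_div, le_div_iff₀ hσ₀]
        rw [div_le_iff₀ hK₁0] at g4
        linarith
      have e3 : K₁ / σ₀ * K₁ = K₂ := by
        rw [div_mul_eq_mul_div, ← sq, hKK]
        field_simp
      have g8 : z + K₂ * b - K₂ * κ 1 ≤ (R - L - K₁ * m) * K₂ / σ₁ := by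
        have e4 : K₂ * κ 1 = K₁ / σ₀ * (K₁ * κ 1) := by
          rw [← mul_assoc, e3]
        have g9 : z - K₂ * κ 1 ≤ K₁ / σ₀ * (R - L - K₁ * m - σ₁ * b) := by
          rw [e4, ← hκr]
          have : K₁ / σ₀ * (R - L - K₁ * κ 0 - σ₁ * b) - K₁ / σ₀ * (K₁ * κ 1) =
              K₁ / σ₀ * (R - L - K₁ * (κ 0 + κ 1) - σ₁ * b) := by ring
          linarith
        have g10 : K₁ / σ₀ * (R - L - K₁ * m - σ₁ * b) ≤ K₂ / σ₁ * (R - L - K₁ * m - σ₁ * b) := by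
          apply mul_le_mul_of_nonneg_right _ (by linarith)
          rw [div_le_div_iff₀ hσ₀ hσ₁]
          have g11 : K₁ * σ₁ ≤ K₁ * K₁ := mul_le_mul_of_nonneg_left (hσσ.trans hσK) hK₁0.le
          nlinarith
        have e5 : K₂ / σ₁ * (R - L - K₁ * m - σ₁ * b) =
            (R - L - K₁ * m) * K₂ / σ₁ - K₂ * b := by
          field_simp
        linarith
      linarith)
    have h5 : ((NN κ : ℕ) : ℝ) ≤ T := by
      rw [hNN]
      simp only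
      refine h4.trans (le_trans (le_of_eq ?_) hT)
      congr 2
      ring
    exact_mod_cast h5
  · -- no rows above the level `m`
    intro κ hκ
    have hκr : (m : ℝ) + 1 ≤ κ 0 + κ 1 := by
      have : ((m + 1 : ℕ) : ℝ) ≤ ((κ 0 + κ 1 : ℕ) : ℝ) := by exact_mod_cast hκ
      push_cast at this
      linarith
    rw [hNN]
    simp only
    rw [card_eq_zero, eq_empty_iff_forall_notMem]
    intro x hx
    obtain ⟨b, g1, g2⟩ := hrow κ x (hmem κ x hx)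
    set z := (x : ℝ) - (L + K₁ * κ 0) - K₂ * b with hz
    have g3 := saw_ge (z := z) hK₁0 hσK
    have g4 : σ₀ * z / K₁ ≤ R - L - K₁ * κ 0 - σ₁ * b := g3.trans g2
    have g5 : K₁ * κ 1 ≤ σ₀ * z / K₁ := by
      rw [le_div_iff₀ hK₁0]
      have : σ₀ * (K₂ * κ 1) ≤ σ₀ * z := mul_le_mul_of_nonneg_left g1 hσ₀.le
      nlinarith
    have g6 : (0 : ℝ) ≤ σ₁ * b := by positivity
    have g7 : K₁ * (m + 1) ≤ K₁ * (κ 0 + κ 1) := mul_le_mul_of_nonneg_left hκr hK₁0.le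
    linarith

end Pool.Agent.H35.SP
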