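import Mathlib

set_option autoImplicit false

/-! # Parameters -/

namespace Pool.Agent.H35.SP

/-- the parameters of the degeneration -/
theorem exists_par {ρ : ℝ} (hρ : 100 ≤ ρ) : ∃ (N v₁ v₂ : ℤ) (l τ : ℝ), 1 ≤ l ∧ l ≤ 1 + 4 / ρ ∧
    0 < τ ∧ τ < 1 ∧ 12 * l * τ + v₂ = 2 * ρ ^ 2 ∧ 18 * l ^ 2 * τ + v₁ = 6 * l * ρ ∧
    |2 * ρ ^ 2 - N * (6 * l * ρ)| ≤ 6 * l * ρ / 35 := by
  have hρ0 : 0 < ρ := by linarith
  -- `v₂`
  obtain ⟨v₂, δ, hδ, hδ0, hδ1⟩ : ∃ (v₂ : ℤ) (δ : ℝ), 2 * ρ ^ 2 - v₂ = δ ∧ 0 < δ ∧ δ ≤ 1 := by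
    refine ⟨⌈2 * ρ ^ 2⌉ - 1, _, rfl, ?_, ?_⟩
    · have := Int.ceil_lt_add_one (2 * ρ ^ 2)
      push_cast
      linarith
    · have := Int.le_ceil (2 * ρ ^ 2)
      push_cast
      linarith
  set c := 6 * ρ - 3 / 2 * δ with hc
  have hc1 : 6 * ρ - 3 / 2 ≤ c := by rw [hc]; linarith
  have hc2 : c ≤ 6 * ρ := by rw [hc]; linarith
  have hc0 : 0 < c := by linarith
  -- `N`
  obtain ⟨N, hN1, hN2⟩ : ∃ N : ℤ, (N : ℝ) ≤ ρ / 3 - 1 / 10 ∧ ρ / 3 - 11 / 10 ≤ N := by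
    refine ⟨⌊ρ / 3 - 1 / 10⌋, Int.floor_le _, ?_⟩
    have := Int.lt_floor_add_one (ρ / 3 - 1 / 10)
    linarith
  have hN0 : (0 : ℝ) < N := by linarith
  -- `v₁`
  obtain ⟨v₁, hv⟩ : ∃ v₁ : ℤ, |ρ * c / (3 * N) - v₁| ≤ 1 / 2 := ⟨round _, abs_sub_round _⟩
  set l := (v₁ : ℝ) / c with hl
  have hlc : l * c = v₁ := by rw [hl]; field_simp
  have hdif : |ρ / (3 * N) - l| ≤ 1 / (2 * c) := by
    have e : ρ / (3 * N) - l = (ρ * c / (3 * N) - v₁) / c := by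
      rw [hl]
      field_simp
    rw [e, abs_div, abs_of_pos hc0, div_le_div_iff₀ hc0 (by positivity)]
    nlinarith
  have h12 : 1 / (2 * c) ≤ 1 / (12 * ρ - 3) := by
    apply one_div_le_one_div_of_le (by linarith)
    linarith
  have hd := abs_le.1 hdif
  have hr1 : 1 + 3 / (10 * ρ) ≤ ρ / (3 * N) := by
    rw [le_div_iff₀ (by positivity)]
    have h1 : (1 + 3 / (10 * ρ)) * (3 * N) ≤ (1 + 3 / (10 * ρ)) * (ρ - 3 / 10) := by
      apply mul_le_mul_of_nonneg_left _ (by positivity)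
      linarith
    have h2 : (1 + 3 / (10 * ρ)) * (ρ - 3 / 10) = ρ - 9 / (100 * ρ) := by
      field_simp
      ring
    have h3 : 0 < 9 / (100 * ρ) := by positivity
    linarith
  have hr2 : ρ / (3 * N) ≤ 1 + 7 / (2 * ρ) := by
    rw [div_le_iff₀ (by positivity)]
    have h1 : (1 + 7 / (2 * ρ)) * (ρ - 33 / 10) ≤ (1 + 7 / (2 * ρ)) * (3 * N) := by
      apply mul_le_mul_of_nonneg_left _ (by positivity)
      linarith
    have h2 : (1 + 7 / (2 * ρ)) * (ρ - 33 / 10) = ρ + (1 / 5 - 231 / (20 * ρ)) := by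
      field_simp
      ring
    have h3 : 231 / (20 * ρ) ≤ 1 / 5 := by
      rw [div_le_iff₀ (by positivity)]
      nlinarith
    linarith
  have hsm : 1 / (12 * ρ - 3) ≤ 3 / (10 * ρ) := by
    rw [div_le_div_iff₀ (by linarith) (by positivity)]
    nlinarith
  have hsm2 : 1 / (12 * ρ - 3) ≤ 1 / (2 * ρ) := by
    apply one_div_le_one_div_of_le (by positivity)
    linarith
  have hl1 : 1 ≤ l := by linarith
  have hl2 : l ≤ 1 + 4 / ρ := by
    have e : 7 / (2 * ρ) + 1 / (2 * ρ) = 4 / ρ := by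
      field_simp
      ring
    linarith
  have hl0 : 0 < l := by linarith
  refine ⟨N, v₁, v₂, l, δ / (12 * l), hl1, hl2, by positivity, ?_, ?_, ?_, ?_⟩
  · rw [div_lt_one (by positivity)]
    linarith
  · rw [← hδ]
    field_simp
    ring
  · rw [← hlc, hc]
    field_simp
    ring
  · have e : 2 * ρ ^ 2 - N * (6 * l * ρ) = 6 * ρ * N * (ρ / (3 * N) - l) := by
      field_simp
      ring
    rw [e, abs_mul, abs_of_pos (by positivity : 0 < 6 * ρ * N)]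
    have h1 : 6 * ρ * N * |ρ / (3 * N) - l| ≤ 6 * ρ * N * (1 / (12 * ρ - 3)) :=
      mul_le_mul_of_nonneg_left (hdif.trans h12) (by positivity)
    refine h1.trans ?_
    rw [mul_one_div, div_le_div_iff₀ (by linarith) (by norm_num)]
    have h2 : (N : ℝ) * 35 ≤ 12 * ρ - 3 := by linarith
    have h3 : 6 * ρ * (N * 35) ≤ 6 * ρ * (12 * ρ - 3) := mul_le_mul_of_nonneg_left h2 (by positivity)
    have h4 : 6 * ρ * (12 * ρ - 3) ≤ 6 * l * ρ * (12 * ρ - 3) := by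
      apply mul_le_mul_of_nonneg_right _ (by linarith)
      nlinarith
    linarith

end Pool.Agent.H35.SP
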