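import Mathlib
import Pool.Agent.H35.SP.DblE
import Pool.Agent.H35.SP.Par

set_option autoImplicit false

/-! # Emptiness in space, almost optimal -/

namespace Pool.Agent.H35.SP

open Finset Pool.Agent.TH3.IR

/-- the final inequality -/
theorem num_emp {ρ l M η s : ℝ} (hρ : 10000 ≤ ρ) (hl1 : 1 ≤ l) (hl2 : l ≤ 1 + 4 / ρ)
    (hη : |η| ≤ 6 * l * ρ / 35) (hs : s ≤ ρ ^ 2 / 30) :
    2 * ρ ^ 2 / (12 * l) *
      (6 * l * (ρ * (M + 1) - 11 / 4) + (18 * l ^ 2 + 12 * l) / 2) +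
      (6 * l * ρ - 18 * l ^ 2) * |η| / (2 * (12 * l)) +
        ((2 * ρ ^ 2 / (6 * l * ρ) + 2) * (6 * l * ρ / (12 * l) + 1 + 12 * l / 8 +
          (18 * l ^ 2 + 33 / 2 * l) ^ 2 / (2 * (12 * l))) +
          (2 * (6 * l * ρ) + 18 * l ^ 2) / (12 * l) + 2) + s ≤ ρ ^ 3 * (M + 1) := by
  have hρ0 : 0 < ρ := by linarith
  have hl0 : 0 < l := by linarith
  have hr : (l - 1) * ρ ≤ 4 := by
    have : l - 1 ≤ 4 / ρ := by linarith
    rw [le_div_iff₀ hρ0] at this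
    exact this
  have hl3 : l ≤ 1001 / 1000 := by nlinarith
  have e1 : 2 * ρ ^ 2 / (12 * l) *
      (6 * l * (ρ * (M + 1) - 11 / 4) + (18 * l ^ 2 + 12 * l) / 2) =
      ρ ^ 3 * (M + 1) + ρ ^ 2 * (-(11 / 4) + 3 / 2 * l + 1) := by
    field_simp
    ring
  have e2 : (6 * l * ρ - 18 * l ^ 2) * |η| / (2 * (12 * l)) = (ρ - 3 * l) * |η| / 4 := by
    field_simp
    ring
  obtain ⟨c, hc⟩ : ∃ c, c = (18 * l ^ 2 + 33 / 2 * l) ^ 2 / (2 * (12 * l)) := ⟨_, rfl⟩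
  have hc0 : 0 ≤ c := by
    rw [hc]
    positivity
  have hc1 : c ≤ 52 := by
    rw [hc, div_le_iff₀ (by positivity)]
    have h1 : 18 * l ^ 2 + 33 / 2 * l ≤ 35 * l := by nlinarith
    have h2 : 0 ≤ 18 * l ^ 2 + 33 / 2 * l := by positivity
    have h3 : (18 * l ^ 2 + 33 / 2 * l) ^ 2 ≤ (35 * l) ^ 2 := by
      apply pow_le_pow_left₀ h2 h1
    nlinarith
  rw [← hc]
  have e3 : (2 * ρ ^ 2 / (6 * l * ρ) + 2) * (6 * l * ρ / (12 * l) + 1 + 12 * l / 8 + c) +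
          (2 * (6 * l * ρ) + 18 * l ^ 2) / (12 * l) + 2 =
      ρ ^ 2 / (6 * l) + ρ / (3 * l) * (1 + c) + 5 / 2 * ρ + 4 + 9 / 2 * l + 2 * c := by
    field_simp
    ring
  rw [e1, e2, e3]
  have h2 : (ρ - 3 * l) * |η| / 4 ≤ 3 / 70 * l * ρ ^ 2 := by
    have h3 : (ρ - 3 * l) * |η| ≤ ρ * |η| :=
      mul_le_mul_of_nonneg_right (by linarith) (abs_nonneg _)
    have h4 : ρ * |η| ≤ ρ * (6 * l * ρ / 35) := mul_le_mul_of_nonneg_left hη hρ0.le
    nlinarith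
  have h3 : ρ / (3 * l) ≤ ρ / 3 := by
    apply div_le_div_of_nonneg_left hρ0.le (by norm_num)
    linarith
  have h3' : ρ / (3 * l) * (1 + c) ≤ ρ / 3 * 53 := by
    apply mul_le_mul h3 (by linarith) (by linarith) (by positivity)
  have h4 : ρ ^ 2 / (6 * l) ≤ ρ ^ 2 / 6 := by
    apply div_le_div_of_nonneg_left (by positivity) (by norm_num)
    linarith
  have h5 : ρ ^ 2 * (l - 1) ≤ 4 * ρ := by nlinarith
  have h7 : ρ ^ 2 * (-(11 / 4) + 3 / 2 * l + 1) =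
      ρ ^ 2 * (-(1 / 4)) + 3 / 2 * (ρ ^ 2 * (l - 1)) := by ring
  rw [h7]
  have h8 : 3 / 70 * l * ρ ^ 2 = 3 / 70 * ρ ^ 2 + 3 / 70 * (ρ ^ 2 * (l - 1)) := by ring
  rw [h8] at h2
  -- `- 1/4 + 1/6 + 3/70 = - 17/420`
  have h9 : 0 ≤ ρ * (1 / 140 * ρ - 30) := by
    apply mul_nonneg hρ0.le
    linarith
  nlinarith

/-- the natural parameters of the spreading -/
theorem exists_nat_par {ρ x : ℝ} {m : ℕ} (hρ : 10000 ≤ ρ) (hx0 : 0 ≤ x) (hxρ : x ≤ ρ)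
    (hxm : 1600 * (x + 1) ^ 2 ≤ m) :
    ∃ s T q n : ℕ, (s : ℝ) ≤ ρ ^ 2 / 30 ∧ ρ ^ 2 * x + 1 ≤ T ∧ q ≤ s ∧ T + s ≤ s * n ∧ q * n ≤ s ∧
      T + 2 * q * n ≤ q * m := by
  have hρ0 : 0 < ρ := by linarith
  set s := ⌊ρ ^ 2 / 30⌋₊ with hs
  set T := ⌈ρ ^ 2 * x⌉₊ + 1 with hT
  have hs1 : (s : ℝ) ≤ ρ ^ 2 / 30 := Nat.floor_le (by positivity)
  have hs2 : ρ ^ 2 / 30 < s + 1 := Nat.lt_floor_add_one _
  have hT1 : ρ ^ 2 * x + 1 ≤ T := by
    rw [hT]
    push_cast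
    linarith [Nat.le_ceil (ρ ^ 2 * x)]
  have hT2 : (T : ℝ) ≤ ρ ^ 2 * x + 2 := by
    rw [hT]
    push_cast
    linarith [Nat.ceil_lt_add_one (by positivity : 0 ≤ ρ ^ 2 * x)]
  have hρ2 : 10000 * ρ ≤ ρ ^ 2 := by nlinarith
  have hsbig : (3000000 : ℝ) ≤ s := by nlinarith
  have hsρ : 300 * ρ ≤ s := by nlinarith
  have hs0 : 0 < s := by
    have : (0 : ℝ) < s := by linarith
    exact_mod_cast this
  set n := T / s + 2 with hn
  have hn1 : T + s ≤ s * n := by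
    have h1 := Nat.lt_mul_div_succ T hs0
    calc T + s ≤ s * (T / s + 1) + s := Nat.add_le_add_right h1.le s
      _ = s * n := by rw [hn]; ring
  have hn2 : (n : ℝ) ≤ 30 * (x + 1) := by
    have h1 : ((T / s : ℕ) : ℝ) ≤ T / s := Nat.cast_div_le
    have h2 : (T : ℝ) / s ≤ 30 * x + 1 := by
      rw [div_le_iff₀ (by linarith)]
      nlinarith
    rw [hn]
    push_cast
    linarith
  have hn0 : 0 < n := by rw [hn]; exact Nat.succ_pos _
  set q := s / n with hq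
  have hq1 : q * n ≤ s := Nat.div_mul_le_self s n
  have hq2 : (s : ℝ) < (q + 1) * n := by
    have h1 := Nat.lt_mul_div_succ s hn0
    rw [← hq] at h1
    have : ((s : ℕ) : ℝ) < ((n * (q + 1) : ℕ) : ℝ) := by exact_mod_cast h1
    push_cast at this
    linarith
  have hq3 : (s : ℝ) < (q + 1) * (30 * (x + 1)) := by
    have : ((q : ℝ) + 1) * n ≤ (q + 1) * (30 * (x + 1)) :=
      mul_le_mul_of_nonneg_left hn2 (by positivity)
    linarith
  refine ⟨s, T, q, n, hs1, hT1, Nat.div_le_self s n, hn1, hq1, ?_⟩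
  have h1 : (T : ℝ) + 2 * s ≤ q * m := by
    have h2 : (q : ℝ) * (1600 * (x + 1) ^ 2) ≤ q * m :=
      mul_le_mul_of_nonneg_left hxm (by positivity)
    have h3 : (s : ℝ) * (160 / 3 * (x + 1)) ≤ (q + 1) * (30 * (x + 1)) * (160 / 3 * (x + 1)) :=
      mul_le_mul_of_nonneg_right hq3.le (by positivity)
    have h4 : ((q : ℝ) + 1) * (30 * (x + 1)) * (160 / 3 * (x + 1)) =
        q * (1600 * (x + 1) ^ 2) + 1600 * (x + 1) ^ 2 := by ring
    have h5 : ρ ^ 2 * x ≤ 30 * (s + 1) * x := mul_le_mul_of_nonneg_right (by linarith) hx0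
    have h6 : 1600 * (x + 1) ^ 2 ≤ 16 * s * (x + 1) := by
      have : 100 * (x + 1) ≤ s := by linarith
      nlinarith
    nlinarith
  have h2 : (q : ℝ) * n ≤ s := by exact_mod_cast hq1
  have h3 : ((T + 2 * q * n : ℕ) : ℝ) ≤ ((q * m : ℕ) : ℝ) := by
    push_cast
    linarith
  exact_mod_cast h3

theorem EmpS_three {ι : Type} [Fintype ι] (d m k : ℕ) {ρ x : ℝ} (hρ : 10000 ≤ ρ)
    (hk : ρ ^ 3 = k) (hcard : Fintype.card ι = k) (hd : d ≤ ρ * (m + 1) - 11 / 4)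
    (hx0 : 0 ≤ x) (hdx : d ≤ ρ * m + x) (hxρ : x ≤ ρ) (hxm : 1600 * (x + 1) ^ 2 ≤ m) :
    EmpS (fun _ : ι => m) (RegS (0 : ℝ) d (fun _ : Fin 2 => 0) (fun _ => 1)) := by
  have hρ0 : 0 < ρ := by linarith
  obtain ⟨N, v₁, v₂, l, τ', hl1, hl2, hτ0, hτ1, hp2, hp1, hη⟩ := exists_par (ρ := ρ) (by linarith)
  have hl0 : 0 < l := by linarith
  have hl2' : l ≤ 2 := by
    have : 4 / ρ ≤ 1 := by
      rw [div_le_one hρ0]
      linarith
    linarith
  obtain ⟨s, T, q, n, hs1, hT1, hqs, hn1, hn2, hn3⟩ := exists_nat_par hρ hx0 hxρ hxm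
  have hsk : s ≤ k := by
    have : (s : ℝ) ≤ k := by
      rw [← hk]
      nlinarith
    exact_mod_cast this
  refine Asm.theta (fun hμ hν j hj hpos v hv h => EmpS_flat hμ hν j hj hpos v hv h)
    (fun d j _ h0 h1 h => EmpS_theta d j h0 h1 h) d 0 (ρ := 3 * l) (by linarith) ?_
  intro L R μ ν hμ hν hW hsum
  have s0 : μ 0 + ν 0 = 9 * l ^ 2 := by
    rw [hsum, Function.update_self]
    ring
  have s1 : μ 1 + ν 1 = 3 * l := by
    rw [hsum, Function.update_of_ne (by decide)]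
  have hpos : ∀ i, 0 < μ i + ν i := by
    intro i
    fin_cases i
    · simp only [Fin.zero_eta]; rw [s0]; positivity
    · simp only [Fin.mk_one]; rw [s1]; positivity
  refine EmpS_nodal hμ hν hpos 1 (by rw [s1]; linarith) hτ0 hτ1 ?_
  rw [s1]
  set μ3 : Fin 2 → ℝ := Function.update (fun i => 2 * τ' * (μ i + ν i)) 1 (4 * τ' * (3 * l))
    with hμ3
  set ν3 : Fin 2 → ℝ := Function.update (fun i => 2 * (1 - τ') * (μ i + ν i)) 1
    (4 * (1 - τ') * (3 * l)) with hν3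
  have m30 : μ3 0 = 18 * l ^ 2 * τ' := by
    rw [hμ3, Function.update_of_ne (by decide), s0]; ring
  have m31 : μ3 1 = 12 * l * τ' := by rw [hμ3, Function.update_self]; ring
  have n30 : ν3 0 = 18 * l ^ 2 * (1 - τ') := by
    rw [hν3, Function.update_of_ne (by decide), s0]; ring
  have n31 : ν3 1 = 12 * l * (1 - τ') := by rw [hν3, Function.update_self]; ring
  clear_value μ3 ν3
  have hτ'1 : 0 < 1 - τ' := by linarith
  have hWW : 2 * (1 - τ') * (R - L) - -(2 * τ' * (R - L)) = 6 * l * d := by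
    have : 2 * (1 - τ') * (R - L) - -(2 * τ' * (R - L)) = 2 * (R - L) := by ring
    rw [this, hW]
    ring
  refine EmpS_double (m := m) (k := k) (s := s) (T := T) (q := q) (n := n) (v₁ := v₁) (v₂ := v₂)
    (K₁ := 6 * l * ρ) (K₂ := 2 * ρ ^ 2) (σ₀ := 18 * l ^ 2) (σ₁ := 12 * l) (N := N)
    (η := 2 * ρ ^ 2 - N * (6 * l * ρ)) (B₀ := 18 * l ^ 2 + 33 / 2 * l)
    (W := 6 * l * (ρ * (m + 1) - 11 / 4))
    ?_ ?_ ?_ ?_ ?_ ?_ ?_ ?_ ?_ ?_ ?_ ?_ ?_ ?_ ?_ ?_ ?_ ?_ ?_ ?_ hcard hsk (hqs.trans hsk)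
    hn1 hn2 hn3
  · intro i
    fin_cases i
    · simp only [Fin.zero_eta]; rw [m30]; positivity
    · simp only [Fin.mk_one]; rw [m31]; positivity
  · intro i
    fin_cases i
    · simp only [Fin.zero_eta]; rw [n30]; positivity
    · simp only [Fin.mk_one]; rw [n31]; positivity
  · rw [n30]
    nlinarith
  · rw [n31]
    nlinarith
  · rw [m30]; linarith
  · rw [m31]; linarith
  · rw [m30, n30]; ring
  · rw [m31, n31]; ring
  · positivity
  · nlinarith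
  · ring
  · ring
  · rw [← hk]
    field_simp
    ring
  · rw [hWW]
    exact mul_le_mul_of_nonneg_left hd (by positivity)
  · rw [← hk]
    exact num_emp hρ hl1 hl2 hη hs1
  · positivity
  · have : 6 * l * (ρ * (m + 1) - 11 / 4) - 6 * l * ρ * (m - 1) = 6 * l * (2 * ρ - 11 / 4) := by
      ring
    rw [this]
    apply mul_nonneg (by positivity)
    linarith
  · apply le_of_eq
    ring
  · rw [hWW]
    have e : (6 * l * d - 6 * l * ρ * m) * (2 * ρ ^ 2) / (12 * l) = ρ ^ 2 * (d - ρ * m) := by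
      field_simp
      ring
    rw [e]
    refine le_trans ?_ hT1
    have h1 : ρ ^ 2 * ((d : ℝ) - ρ * m) ≤ ρ ^ 2 * x :=
      mul_le_mul_of_nonneg_left (by linarith) (by positivity)
    have h2 : max (ρ ^ 2 * ((d : ℝ) - ρ * m)) 0 ≤ ρ ^ 2 * x := max_le h1 (by positivity)
    linarith
  · rw [hWW]
    have : (d : ℝ) < ρ * (m + 1) := by linarith
    have h1 : 6 * l * (d : ℝ) < 6 * l * (ρ * (m + 1)) :=
      mul_lt_mul_of_pos_left this (by positivity)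
    linarith

end Pool.Agent.H35.SP
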