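import Mathlib
import Pool.Agent.H35.SP.Dbl
import Pool.Agent.H35.SP.Par
import Pool.Graph.R_seed8.TH3.IR.SCubic
import Pool.Graph.R_seed8.TH3.IR.SNodal
import Pool.Graph.R_seed8.TH3.IR.Asm0

set_option autoImplicit false

/-! # Independence in space, almost optimal -/

namespace Pool.Agent.H35.SP

open Finset Pool.Agent.TH3.IR

/-- the final inequality -/
theorem num_fin {ρ l d m η : ℝ} (hρ : 215 ≤ ρ) (hl1 : 1 ≤ l) (hl2 : l ≤ 1 + 4 / ρ)
    (hη : |η| ≤ 6 * l * ρ / 35) (hd : ρ * (m + 1) - 3 / 4 ≤ d) :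
    ρ ^ 3 * (m + 1) ≤ 2 * ρ ^ 2 / (12 * l) *
      (2 * (l * (3 * d - 1) - 9 * l * (l - 1)) - (6 * l + 1) + (18 * l ^ 2 + 12 * l) / 2) -
      (6 * l * ρ - 18 * l ^ 2) * |η| / (2 * (12 * l)) -
        ((2 * ρ ^ 2 / (6 * l * ρ) + 2) * (6 * l * ρ / (12 * l) + 1 + 12 * l / 8) +
          (6 * l * ρ + 18 * l ^ 2) / (12 * l) + 2) := by
  have hρ0 : 0 < ρ := by linarith
  have hl0 : 0 < l := by linarith
  have h1 : ρ ^ 3 * (m + 1) ≤ ρ ^ 2 * (d + 3 / 4) := by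
    have : ρ ^ 2 * (ρ * (m + 1)) ≤ ρ ^ 2 * (d + 3 / 4) :=
      mul_le_mul_of_nonneg_left (by linarith) (by positivity)
    nlinarith
  refine h1.trans ?_
  have hr : (l - 1) * ρ ≤ 4 := by
    have : l - 1 ≤ 4 / ρ := by linarith
    rw [le_div_iff₀ hρ0] at this
    exact this
  have e1 : 2 * ρ ^ 2 / (12 * l) *
      (2 * (l * (3 * d - 1) - 9 * l * (l - 1)) - (6 * l + 1) + (18 * l ^ 2 + 12 * l) / 2) =
      ρ ^ 2 * (d - 1 / 3 - 3 * (l - 1) + 3 / 2 * l) - ρ ^ 2 / (6 * l) := by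
    field_simp
    ring
  have e2 : (6 * l * ρ - 18 * l ^ 2) * |η| / (2 * (12 * l)) = (ρ - 3 * l) * |η| / 4 := by
    field_simp
    ring
  have e3 : (2 * ρ ^ 2 / (6 * l * ρ) + 2) * (6 * l * ρ / (12 * l) + 1 + 12 * l / 8) +
          (6 * l * ρ + 18 * l ^ 2) / (12 * l) + 2 =
      ρ ^ 2 / (6 * l) + ρ / (3 * l) + 2 * ρ + 4 + 9 / 2 * l := by
    field_simp
    ring
  rw [e1, e2, e3]
  have h2 : (ρ - 3 * l) * |η| / 4 ≤ 3 / 70 * l * ρ ^ 2 := by
    have h3 : (ρ - 3 * l) * |η| ≤ ρ * |η| :=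
      mul_le_mul_of_nonneg_right (by linarith) (abs_nonneg _)
    have h4 : ρ * |η| ≤ ρ * (6 * l * ρ / 35) := mul_le_mul_of_nonneg_left hη hρ0.le
    nlinarith
  have h3 : ρ / (3 * l) ≤ ρ / 3 := by
    apply div_le_div_of_nonneg_left hρ0.le (by norm_num)
    linarith
  have h4 : ρ ^ 2 / (6 * l) ≤ ρ ^ 2 / 6 := by
    apply div_le_div_of_nonneg_left (by positivity) (by norm_num)
    linarith
  have h5 : ρ ^ 2 * (l - 1) ≤ 4 * ρ := by nlinarith
  have h6 : l ≤ 2 := by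
    have : 4 / ρ ≤ 1 := by
      rw [div_le_one hρ0]
      linarith
    linarith
  have h7 : ρ ^ 2 * (d - 1 / 3 - 3 * (l - 1) + 3 / 2 * l) =
      ρ ^ 2 * (d + 7 / 6) - 3 / 2 * (ρ ^ 2 * (l - 1)) := by ring
  rw [h7]
  have h8 : 3 / 70 * l * ρ ^ 2 = 3 / 70 * ρ ^ 2 + 3 / 70 * (ρ ^ 2 * (l - 1)) := by ring
  rw [h8] at h2
  -- `7/6 - 1/6 - 1/6 - 3/70 - 3/4 = 17/420`
  have h9 : 0 ≤ ρ * (17 / 420 * ρ - 853 / 100) := by
    apply mul_nonneg hρ0.le
    nlinarith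
  nlinarith

theorem SurS_three {ι : Type} [Fintype ι] (d m : ℕ) {ρ : ℝ} (hρ : 215 ≤ ρ)
    (hk : ρ ^ 3 = Fintype.card ι) (hd : ρ * (m + 1) - 3 / 4 ≤ d) :
    SurS (fun _ : ι => m) (RegS (0 : ℝ) d (fun _ : Fin 2 => 0) (fun _ => 1)) := by
  have hρ0 : 0 < ρ := by linarith
  obtain ⟨N, v₁, v₂, l, τ', hl1, hl2, hτ0, hτ1, hp2, hp1, hη⟩ := exists_par (ρ := ρ) (by linarith)
  have hl0 : 0 < l := by linarith
  have hl2' : l ≤ 2 := by
    have : 4 / ρ ≤ 1 := by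
      rw [div_le_one hρ0]
      linarith
    linarith
  obtain ⟨v, hv0, hv1⟩ := Asm.exists_int (9 * l)
  obtain ⟨τ, hτ⟩ : ∃ τ : ℝ, τ = (9 * l - v) / 9 := ⟨_, rfl⟩
  have hτ9 : 9 * τ + v = 9 * l := by
    rw [hτ]
    ring
  have h0 : 0 < τ := by
    rw [hτ]
    positivity
  have h1 : τ < 1 := by
    rw [hτ]
    linarith
  apply SurS_cubic d 0 h0 h1
  set L : ℝ := -((3 * d - 1) * τ) with hL
  set R : ℝ := (3 * d - 1) * (1 - τ) with hR
  set μ : Fin 2 → ℝ := Function.update (fun _ => 3 * τ) 0 (9 * τ) with hμ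
  set ν : Fin 2 → ℝ := Function.update (fun _ => 3 * (1 - τ)) 0 (9 * (1 - τ)) with hν
  have m0 : μ 0 = 9 * τ := by rw [hμ, Function.update_self]
  have m1 : μ 1 = 3 * τ := by rw [hμ, Function.update_of_ne (by decide)]
  have n0 : ν 0 = 9 * (1 - τ) := by rw [hν, Function.update_self]
  have n1 : ν 1 = 3 * (1 - τ) := by rw [hν, Function.update_of_ne (by decide)]
  clear_value μ ν
  have hτ1' : 0 < 1 - τ := by linarith
  have hv9 : (v : ℝ) = 9 * l - 9 * τ := by linarith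
  refine SurS_flat2 ?_ ?_ ?_ 0 v ?_ ?_ ?_
  · intro i
    fin_cases i
    · simp only [Fin.zero_eta]; rw [m0]; positivity
    · simp only [Fin.mk_one]; rw [m1]; positivity
  · intro i
    fin_cases i
    · simp only [Fin.zero_eta]; rw [n0]; positivity
    · simp only [Fin.mk_one]; rw [n1]; positivity
  · intro i
    fin_cases i
    · simp only [Fin.zero_eta]; rw [m0, n0]; linarith
    · simp only [Fin.mk_one]; rw [m1, n1]; linarith
  · rw [n0, hv9]; linarith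
  · rw [m0, hv9]; linarith
  have e1 : μ 0 + v = 9 * l := by rw [m0, hv9]; ring
  have e2 : v - ν 0 = 9 * (l - 1) := by rw [n0, hv9]; ring
  have e3 : μ 0 + ν 0 = 9 := by rw [m0, n0]; ring
  rw [e1, e2, e3]
  set μ2 : Fin 2 → ℝ := Function.update μ 0 (9 * l) with hμ2
  set ν2 : Fin 2 → ℝ := Function.update (fun i => (ν i * (9 * l) + μ i * (9 * (l - 1))) / 9) 0
    (9 * l * (9 * (l - 1)) / 9) with hν2
  set R2 : ℝ := (R * (9 * l) - L * (9 * (l - 1)) - 9 * l * (9 * (l - 1))) / 9 with hR2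
  have m20 : μ2 0 = 9 * l := by rw [hμ2, Function.update_self]
  have m21 : μ2 1 = 3 * τ := by rw [hμ2, Function.update_of_ne (by decide), m1]
  have n20 : ν2 0 = 9 * l * (l - 1) := by rw [hν2, Function.update_self]; ring
  have n21 : ν2 1 = 3 * l - 3 * τ := by
    rw [hν2, Function.update_of_ne (by decide), n1, m1]; ring
  have hW2 : R2 - L = l * (3 * d - 1) - 9 * l * (l - 1) := by
    rw [hR2, hR, hL]
    ring
  clear_value μ2 ν2 R2
  have hl10 : 0 ≤ l - 1 := by linarith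
  refine SurS_nodal ?_ ?_ ?_ 1 ?_ hτ0 hτ1 ?_
  · intro i
    fin_cases i
    · simp only [Fin.zero_eta]; rw [m20]; positivity
    · simp only [Fin.mk_one]; rw [m21]; positivity
  · intro i
    fin_cases i
    · simp only [Fin.zero_eta]; rw [n20]; positivity
    · simp only [Fin.mk_one]; rw [n21]; linarith
  · intro i
    fin_cases i
    · simp only [Fin.zero_eta]; rw [m20, n20]; nlinarith
    · simp only [Fin.mk_one]; rw [m21, n21]; linarith
  · rw [m21, n21]; linarith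
  have s0 : μ2 0 + ν2 0 = 9 * l ^ 2 := by rw [m20, n20]; ring
  have s1 : μ2 1 + ν2 1 = 3 * l := by rw [m21, n21]; ring
  rw [s1]
  set μ3 : Fin 2 → ℝ := Function.update (fun i => 2 * τ' * (μ2 i + ν2 i)) 1 (4 * τ' * (3 * l))
    with hμ3
  set ν3 : Fin 2 → ℝ := Function.update (fun i => 2 * (1 - τ') * (μ2 i + ν2 i)) 1
    (4 * (1 - τ') * (3 * l)) with hν3
  have m30 : μ3 0 = 18 * l ^ 2 * τ' := by
    rw [hμ3, Function.update_of_ne (by decide), s0]; ring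
  have m31 : μ3 1 = 12 * l * τ' := by rw [hμ3, Function.update_self]; ring
  have n30 : ν3 0 = 18 * l ^ 2 * (1 - τ') := by
    rw [hν3, Function.update_of_ne (by decide), s0]; ring
  have n31 : ν3 1 = 12 * l * (1 - τ') := by rw [hν3, Function.update_self]; ring
  clear_value μ3 ν3
  have hτ'1 : 0 < 1 - τ' := by linarith
  refine SurS_double (v₁ := v₁) (v₂ := v₂) (K₁ := 6 * l * ρ) (K₂ := 2 * ρ ^ 2)
    (σ₀ := 18 * l ^ 2) (σ₁ := 12 * l) (N := N) (η := 2 * ρ ^ 2 - N * (6 * l * ρ))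
    ?_ ?_ ?_ ?_ ?_ ?_ ?_ ?_ ?_ ?_ ?_ ?_ ?_ ?_
  · intro i
    fin_cases i
    · simp only [Fin.zero_eta]; rw [m30]; positivity
    · simp only [Fin.mk_one]; rw [m31]; positivity
  · intro i
    fin_cases i
    · simp only [Fin.zero_eta]; rw [n30]; positivity
    · simp only [Fin.mk_one]; rw [n31]; positivity
  · rw [n30]
    nlinarith
  · rw [n31]
    nlinarith
  · rw [m30]; linarith
  · rw [m31]; linarith
  · rw [m30, n30]; ring
  · rw [m31, n31]; ring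
  · positivity
  · nlinarith
  · ring
  · ring
  · rw [← hk]
    field_simp
    ring
  · rw [← hk]
    have h2 := num_fin (m := m) (d := d) hρ hl1 hl2 hη hd
    refine h2.trans (le_of_eq ?_)
    have e4 : 2 * (1 - τ') * (R2 - L) - (2 * (3 * l) + 1) * (1 - τ') -
        (-(2 * τ' * (R2 - L)) + (2 * (3 * l) + 1) * τ') = 2 * (R2 - L) - (6 * l + 1) := by ring
    rw [e4, hW2]

end Pool.Agent.H35.SP
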