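import Mathlib
import Pool.Graph.R_seed8.TH3.IR.SMain
import Pool.Graph.R_seed8.TH3.IR.EmptyW
import Pool.Agent.H35.SP.Ind3
import Pool.Agent.H35.SP.Emp3

set_option autoImplicit false

/-! # General points of projective space -/

namespace Pool.Agent.H35.SP

open Finset MvPolynomial Pool.Agent.TH3.IR

/-- independence for general points from the rank version -/
theorem indep_of_SurS {n r m d : ℕ} (h : SurS (fun _ : Fin r => m)
    (RegS (0 : ℝ) d (fun _ : Fin n => 0) (fun _ => 1))) :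
    ∃ F : MvPolynomial (Fin r × Fin (n + 1)) ℂ, F ≠ 0 ∧ ∀ P : Fin r → Fin (n + 1) → ℂ,
      MvPolynomial.eval (fun q : Fin r × Fin (n + 1) => P q.1 q.2) F ≠ 0 →
      Pool.Agent.H932R5.SurjAt (fun _ : Fin r => m) P d := by
  obtain ⟨G, hG0, hG⟩ := exists_minorS h
  refine ⟨_, idx_ne_zero hG0, fun P hP => ?_⟩
  rw [eval_idx] at hP
  obtain ⟨T, hT, hTc, hEmp⟩ := hG ℂ (fun i => P i 0) (fun i j => P i j.succ) hP
  have hnc : nc (Fin n) (fun _ : Fin r => m) = ∑ _i : Fin r, (m + n).choose (n + 1) := by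
    unfold nc
    rw [Fintype.card_fin]
  have hlow := Pool.Agent.H932R5.finrank_ge (K := ℂ) (E := n) d (fun _ : Fin r => m) P
  have hup := SMain.upper (n := n) (d := d) (Pool.Agent.H932R5.Vd d (fun _ : Fin r => m) P)
    (fun f hf => (Submodule.mem_inf.1 hf).1) T hT (by
    intro f hf hs
    have hfh : f.IsHomogeneous d := (Submodule.mem_inf.1 hf).1
    refine lau_eq_zero hfh (hEmp (lau f) hs fun i => ?_)
    have h1 : f ∈ (RingHom.ker (MvPolynomial.eval (Fin.cons 1 (P i) : Fin (n + 2) → ℂ))) ^ m := by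
      have h2 : f ∈ (Pool.Agent.H932R5.hI (P i)) ^ m := by
        have h3 := (Submodule.mem_inf.1 hf).2
        rw [Submodule.restrictScalars_mem, Ideal.mem_iInf] at h3
        exact h3 i
      exact Ideal.pow_right_mono (span_le_ker (P i)) m h2
    have h2 := lau_LMS hfh (P := (Fin.cons 1 (P i) : Fin (n + 2) → ℂ)) (by simp) h1
    have e1 : (Fin.cons 1 (P i) : Fin (n + 2) → ℂ) 0 = 1 := rfl
    have e2 : (Fin.cons 1 (P i) : Fin (n + 2) → ℂ) 1 = P i 0 := rfl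
    have e3 : ∀ j : Fin n, (Fin.cons 1 (P i) : Fin (n + 2) → ℂ) j.succ.succ = P i j.succ :=
      fun j => rfl
    simp only [e1, e2, e3, div_one] at h2
    exact h2)
  apply SMain.surj_of_finrank
  rw [hTc, hnc] at hup
  omega

/-- no forms -/
def NoF {N r : ℕ} (w : Fin r → ℕ) (P : Fin r → Fin N → ℂ) (d : ℕ) : Prop :=
  ∀ G : MvPolynomial (Fin (N + 1)) ℂ, G.IsHomogeneous d →
    (∀ i, G ∈ (Ideal.span (Set.range fun j : Fin N =>
      (X j.succ - C (P i j) * X 0 : MvPolynomial (Fin (N + 1)) ℂ))) ^ (w i)) → G = 0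

theorem NoF.mono_w {N r : ℕ} {w w' : Fin r → ℕ} {P : Fin r → Fin N → ℂ} {d : ℕ}
    (hw : ∀ i, w i ≤ w' i) (h : NoF w P d) : NoF w' P d := fun G hG hi =>
  h G hG fun i => Ideal.pow_le_pow_right (hw i) (hi i)

theorem empty_of_EmpS {n r d : ℕ} {w : Fin r → ℕ} (h : EmpS w
    (RegS (0 : ℝ) d (fun _ : Fin n => 0) (fun _ => 1))) :
    ∃ F : MvPolynomial (Fin r × Fin (n + 1)) ℂ, F ≠ 0 ∧ ∀ P : Fin r → Fin (n + 1) → ℂ,
      MvPolynomial.eval (fun q : Fin r × Fin (n + 1) => P q.1 q.2) F ≠ 0 → NoF w P d := by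
  obtain ⟨G0, hG0, hG⟩ := exists_minor h
  refine ⟨_, idx_ne_zero hG0, fun P hP G hGd hGw => ?_⟩
  rw [eval_idx] at hP
  apply lau_eq_zero hGd
  refine hG ℂ (fun i => P i 0) (fun i j => P i j.succ) hP (lau G) (lau_support hGd) ?_
  intro i
  have h1 : G ∈ (RingHom.ker (MvPolynomial.eval (Fin.cons 1 (P i) : Fin (n + 2) → ℂ))) ^ w i :=
    Ideal.pow_right_mono (span_le_ker (P i)) _ (hGw i)
  have h2 := lau_LMS hGd (P := (Fin.cons 1 (P i) : Fin (n + 2) → ℂ)) (by simp) h1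
  have e1 : (Fin.cons 1 (P i) : Fin (n + 2) → ℂ) 0 = 1 := rfl
  have e2 : (Fin.cons 1 (P i) : Fin (n + 2) → ℂ) 1 = P i 0 := rfl
  have e3 : ∀ j : Fin n, (Fin.cons 1 (P i) : Fin (n + 2) → ℂ) j.succ.succ = P i j.succ :=
    fun j => rfl
  simp only [e1, e2, e3, div_one] at h2
  exact h2

theorem NoF.finrank {n r : ℕ} {w : Fin r → ℕ} {P : Fin r → Fin (n + 1) → ℂ} {d : ℕ}
    (h : NoF w P d) : Module.finrank ℂ ↥(Pool.Agent.H932R5.Vd d w P) = 0 := by
  have h1 : Pool.Agent.H932R5.Vd d w P = ⊥ := by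
    rw [Submodule.eq_bot_iff]
    intro G hG
    obtain ⟨h2, h3⟩ := Submodule.mem_inf.1 hG
    rw [Submodule.restrictScalars_mem, Ideal.mem_iInf] at h3
    exact h G h2 h3
  rw [h1]
  exact finrank_bot ℂ _

/-- one open set for finitely many statements -/
theorem exists_common {ι : Type} (s : Finset ℕ) (Q : ℕ → (ι → ℂ) → Prop)
    (h : ∀ d ∈ s, ∃ F : MvPolynomial ι ℂ, F ≠ 0 ∧ ∀ P : ι → ℂ, MvPolynomial.eval P F ≠ 0 → Q d P) :
    ∃ F : MvPolynomial ι ℂ, F ≠ 0 ∧ ∀ P : ι → ℂ, MvPolynomial.eval P F ≠ 0 → ∀ d ∈ s, Q d P := by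
  classical
  have h' : ∀ d, ∃ F : MvPolynomial ι ℂ, F ≠ 0 ∧
      (d ∈ s → ∀ P : ι → ℂ, MvPolynomial.eval P F ≠ 0 → Q d P) := by
    intro d
    by_cases hd : d ∈ s
    · obtain ⟨F, h1, h2⟩ := h d hd
      exact ⟨F, h1, fun _ => h2⟩
    · exact ⟨1, one_ne_zero, fun h => absurd h hd⟩
  choose F hF0 hF using h'
  refine ⟨∏ d ∈ s, F d, prod_ne_zero_iff.2 fun d _ => hF0 d, fun P hP d hd => ?_⟩
  rw [map_prod, prod_ne_zero_iff] at hP
  exact hF d hd P (hP d hd)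

end Pool.Agent.H35.SP
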